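import Pool.Agent.V11237.SXT.Tube

/-!
Walks in a wedge, with `exp (K (log n)^3)` (after `Pool.Agent.H122R3.SX.Est`).
-/

set_option autoImplicit false

namespace Pool.Agent.V11237.SXT

open Finset Real
open Pool.Agent.H122R3.SX (W walks c fs mem_fs g G fw Saw GW gw wd pos X gw_le pos_le_length gw_mul one_le_gw one_le_g g_pow g_mono g_mul ncard_walks walks_finite fw_mem fw_inj)

/-- multi-scale construction -/
theorem exists_gw {μ K : ℝ} (h : Bd μ K) {η : ℝ} (hη : 0 < η) {κ : ℕ} (hκ : 1 ≤ η * κ) (j : ℕ) :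
    ∃ n : ℕ, n ≤ 16 * κ * 4 ^ j ∧
      exp (-(2 * κ * K2 K * log 2 ^ 2 * (j : ℝ) ^ 3 + 2 * κ * log μ)) ≤
        (gw η ((2 * κ * 2 ^ j : ℕ) : ℤ) n : ℝ) / μ ^ n := by
  have hμ0 : 0 < μ := by linarith [h.one]
  have hlog2 : 0 < log 2 := log_pos (by norm_num)
  have hK2 := K2_nonneg h.Kn
  induction j with
  | zero =>
    refine ⟨2 * κ, by omega, ?_⟩
    have h1 := one_le_gw hη (2 * κ)
    simp only [pow_zero, mul_one, Nat.cast_zero, ne_eq, OfNat.ofNat_ne_zero, not_false_eq_true,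
      zero_pow, mul_zero, zero_add]
    have e1 : exp (-(2 * κ * log μ)) = 1 / μ ^ (2 * κ) := by
      rw [exp_neg, one_div]
      congr 1
      rw [show (2 : ℝ) * κ * log μ = ((2 * κ : ℕ) : ℝ) * log μ by push_cast; ring, exp_nat_mul,
        exp_log hμ0]
    rw [e1]
    apply div_le_div_of_nonneg_right _ (by positivity)
    exact_mod_cast h1
  | succ j ih =>
    obtain ⟨n, hn, hn2⟩ := ih
    have hS : 1 ≤ 2 ^ j := Nat.one_le_two_pow
    obtain ⟨m, hm, hm2⟩ := exists_piece h hS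
    refine ⟨n + κ * m, ?_, ?_⟩
    · have e1 : 16 * (2 ^ j) ^ 2 = 16 * 4 ^ j := by
        rw [← pow_mul, mul_comm j 2, pow_mul]
        norm_num
      rw [e1] at hm
      calc n + κ * m ≤ 16 * κ * 4 ^ j + κ * (16 * 4 ^ j) := by gcongr
        _ ≤ _ := by rw [pow_succ]; nlinarith [Nat.zero_le (κ * 4 ^ j)]
    · have g1 := g_pow (H := 2 * ((2 ^ j : ℕ) : ℤ)) (T := 2 * ((2 ^ j : ℕ) : ℤ)) (by positivity) m κ
      have hT : ((2 * ((2 ^ j : ℕ) : ℤ) : ℤ) : ℝ) ≤ η * ((2 * κ * 2 ^ j : ℕ) : ℤ) := by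
        push_cast
        have : (0 : ℝ) < 2 ^ j := by positivity
        nlinarith
      have g2 := gw_mul hη hT (H' := κ * (2 * ((2 ^ j : ℕ) : ℤ))) n (κ * m)
      have e2 : ((2 * κ * 2 ^ j : ℕ) : ℤ) + κ * (2 * ((2 ^ j : ℕ) : ℤ)) =
          ((2 * κ * 2 ^ (j + 1) : ℕ) : ℤ) := by
        push_cast
        ring
      rw [e2] at g2
      have g3 : (gw η ((2 * κ * 2 ^ j : ℕ) : ℤ) n : ℝ) *
          (g (2 * ((2 ^ j : ℕ) : ℤ)) 0 (2 * ((2 ^ j : ℕ) : ℤ)) m : ℝ) ^ κ ≤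
          (gw η ((2 * κ * 2 ^ (j + 1) : ℕ) : ℤ) (n + κ * m) : ℝ) := by
        have := (Nat.mul_le_mul_left (gw η ((2 * κ * 2 ^ j : ℕ) : ℤ) n) g1).trans g2
        exact_mod_cast this
      have e3 : exp (-(2 * κ * K2 K * log 2 ^ 2 * ((j + 1 : ℕ) : ℝ) ^ 3 + 2 * κ * log μ)) ≤
          exp (-(2 * κ * K2 K * log 2 ^ 2 * (j : ℝ) ^ 3 + 2 * κ * log μ)) *
          exp (-(2 * K2 K * log (((2 ^ j : ℕ) : ℝ) + 1) ^ 2)) ^ κ := by
        rw [← exp_nat_mul, ← exp_add]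
        apply exp_le_exp.2
        have l1 : log (((2 ^ j : ℕ) : ℝ) + 1) ≤ (j + 1) * log 2 := by
          have : log (((2 ^ j : ℕ) : ℝ) + 1) ≤ log ((2 : ℝ) ^ (j + 1)) := by
            apply log_le_log (by positivity)
            push_cast
            have : (1 : ℝ) ≤ 2 ^ j := one_le_pow₀ (by norm_num)
            rw [pow_succ]
            linarith
          rw [log_pow] at this
          exact_mod_cast this
        have l0 : 0 ≤ log (((2 ^ j : ℕ) : ℝ) + 1) := log_nonneg (by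
          have : (0 : ℝ) ≤ ((2 ^ j : ℕ) : ℝ) := Nat.cast_nonneg _
          linarith)
        have l2 : log (((2 ^ j : ℕ) : ℝ) + 1) ^ 2 ≤ ((j + 1) * log 2) ^ 2 :=
          pow_le_pow_left₀ l0 l1 2
        have l3 : ((j : ℝ) + 1) ^ 2 + (j : ℝ) ^ 3 ≤ ((j : ℝ) + 1) ^ 3 := by
          have hj : (0 : ℝ) ≤ j := Nat.cast_nonneg _
          have : (j : ℝ) ^ 2 ≤ ((j : ℝ) + 1) ^ 2 := pow_le_pow_left₀ hj (by linarith) 2
          calc ((j : ℝ) + 1) ^ 2 + (j : ℝ) ^ 3 = ((j : ℝ) + 1) ^ 2 + j * (j : ℝ) ^ 2 := by ring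
            _ ≤ ((j : ℝ) + 1) ^ 2 + j * ((j : ℝ) + 1) ^ 2 := by gcongr
            _ = _ := by ring
        have l4 : 2 * κ * K2 K * log (((2 ^ j : ℕ) : ℝ) + 1) ^ 2 ≤
            2 * κ * K2 K * ((j + 1) * log 2) ^ 2 := by gcongr
        have l5 : 2 * κ * K2 K * log 2 ^ 2 * (((j : ℝ) + 1) ^ 2 + (j : ℝ) ^ 3) ≤
            2 * κ * K2 K * log 2 ^ 2 * ((j : ℝ) + 1) ^ 3 := by gcongr
        push_cast at l4 ⊢
        nlinarith
      refine e3.trans ?_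
      calc exp (-(2 * κ * K2 K * log 2 ^ 2 * (j : ℝ) ^ 3 + 2 * κ * log μ)) *
          exp (-(2 * K2 K * log (((2 ^ j : ℕ) : ℝ) + 1) ^ 2)) ^ κ
          ≤ ((gw η ((2 * κ * 2 ^ j : ℕ) : ℤ) n : ℝ) / μ ^ n) *
            ((g (2 * ((2 ^ j : ℕ) : ℤ)) 0 (2 * ((2 ^ j : ℕ) : ℤ)) m : ℝ) / μ ^ m) ^ κ := by
            gcongr
        _ = ((gw η ((2 * κ * 2 ^ j : ℕ) : ℤ) n : ℝ) *
            (g (2 * ((2 ^ j : ℕ) : ℤ)) 0 (2 * ((2 ^ j : ℕ) : ℤ)) m : ℝ) ^ κ) /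
            μ ^ (n + κ * m) := by
            rw [div_pow, div_mul_div_comm, ← pow_mul, ← pow_add, mul_comm m κ]
        _ ≤ _ := by
            apply div_le_div_of_nonneg_right g3 (by positivity)

/-- **Walks in a wedge.** -/
theorem wedge {μ K : ℝ} (h : Bd μ K) {η : ℝ} (hη : 0 < η) : ∃ K6 : ℝ, 0 ≤ K6 ∧
    ∀ n : ℕ, 2 ≤ n → exp (-(K6 * log n ^ 3)) * c n ≤ wd η n := by
  have hμ0 : 0 < μ := by linarith [h.one]
  have hlμ : 0 ≤ log μ := log_nonneg h.one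
  have hlog2 : 0 < log 2 := log_pos (by norm_num)
  have hK2 := K2_nonneg h.Kn
  have hKn := h.Kn
  obtain ⟨κ, hκd⟩ : ∃ κ : ℕ, κ = ⌈1 / η⌉₊ + 1 := ⟨_, rfl⟩
  have hκ1 : 1 ≤ κ := by omega
  have hκ : 1 ≤ η * κ := by
    have h1 : 1 / η ≤ κ := by
      rw [hκd]
      push_cast
      have := Nat.le_ceil (1 / η)
      linarith
    rw [div_le_iff₀ hη] at h1
    linarith
  obtain ⟨q, hq⟩ : ∃ q, q = log (64 * κ) / log 2 + 2 := ⟨_, rfl⟩
  have hl64 : 0 ≤ log (64 * (κ : ℝ)) := log_nonneg (by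
    have : (1 : ℝ) ≤ κ := by exact_mod_cast hκ1
    linarith)
  have hq0 : 0 ≤ q := by rw [hq]; positivity
  obtain ⟨C1, hC1⟩ : ∃ C1, C1 = 16 * κ * K2 K / log 2 := ⟨_, rfl⟩
  refine ⟨C1 + 2 * κ * log μ / log 2 ^ 3 + log 4 / log 2 ^ 3 + K * q ^ 2 / log 2 + K / log 2,
    by rw [hC1]; positivity, ?_⟩
  intro n hn
  have hnr : (2 : ℝ) ≤ n := by exact_mod_cast hn
  obtain ⟨l, hl⟩ : ∃ l, l = log (n : ℝ) := ⟨_, rfl⟩
  have hl2 : log 2 ≤ l := by rw [hl]; exact log_le_log (by norm_num) hnr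
  have hl0 : 0 < l := by linarith
  rw [← hl]
  obtain ⟨j, hj⟩ : ∃ j, j = Nat.clog 2 n := ⟨_, rfl⟩
  have hj1 : n ≤ 2 ^ j := by rw [hj]; exact Nat.le_pow_clog (by norm_num) n
  have hj2 : 2 ^ (j - 1) < n := by
    rw [hj]
    exact Nat.pow_pred_clog_lt_self (by norm_num) (by omega)
  have hj0 : 1 ≤ j := by
    by_contra hc
    have : j = 0 := by omega
    rw [this] at hj1
    omega
  obtain ⟨N, hN1, hN2⟩ := exists_gw h hη hκ j
  -- lengths
  have hgpos : 0 < gw η ((2 * κ * 2 ^ j : ℕ) : ℤ) N := by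
    by_contra hc
    have : gw η ((2 * κ * 2 ^ j : ℕ) : ℤ) N = 0 := by omega
    rw [this, Nat.cast_zero, zero_div] at hN2
    exact absurd (exp_pos _) (not_lt.2 hN2)
  have hNn : n ≤ N := by
    obtain ⟨w, hw⟩ := card_pos.1 hgpos
    rw [mem_fs] at hw
    have h1 := pos_le_length w
    rw [hw.1.top, hw.2] at h1
    have h2 : 2 * κ * 2 ^ j ≤ N := by exact_mod_cast h1
    nlinarith [Nat.zero_le (2 ^ j)]
  have hgl := gw_le (η := η) (H := ((2 * κ * 2 ^ j : ℕ) : ℤ)) hNn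
  -- logs
  have hjl : (j : ℝ) ≤ 2 * l / log 2 := by
    rw [le_div_iff₀ hlog2]
    have h1 : ((j - 1 : ℕ) : ℝ) * log 2 ≤ l := by
      rw [← log_pow, hl]
      apply log_le_log (by positivity)
      exact_mod_cast hj2.le
    rw [Nat.cast_sub hj0] at h1
    push_cast at h1
    linarith
  have hNl : log N ≤ q * l := by
    have h1 : (N : ℝ) ≤ 64 * κ * (n : ℝ) ^ 2 := by
      have h2 : 2 ^ j ≤ 2 * n := by
        have : 2 ^ j = 2 * 2 ^ (j - 1) := by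
          rw [← pow_succ']
          congr 1
          omega
        omega
      have h3 : 4 ^ j ≤ 4 * n ^ 2 := by
        have : 4 ^ j = (2 ^ j) ^ 2 := by
          rw [← pow_mul, mul_comm j 2, pow_mul]
          norm_num
        rw [this]
        calc (2 ^ j) ^ 2 ≤ (2 * n) ^ 2 := Nat.pow_le_pow_left h2 2
          _ = _ := by ring
      have h4 : N ≤ 64 * κ * n ^ 2 := by
        calc N ≤ 16 * κ * 4 ^ j := hN1
          _ ≤ 16 * κ * (4 * n ^ 2) := by gcongr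
          _ = _ := by ring
      exact_mod_cast h4
    have hκr : (0 : ℝ) < κ := by exact_mod_cast hκ1
    have hN0 : (0 : ℝ) < N := by exact_mod_cast (by omega : 0 < N)
    calc log N ≤ log (64 * κ * (n : ℝ) ^ 2) := log_le_log hN0 h1
      _ = log (64 * κ) + 2 * l := by
          rw [log_mul (by positivity) (by positivity), log_pow, ← hl]
          push_cast
          ring
      _ ≤ log (64 * κ) / log 2 * l + 2 * l := by
          have : log (64 * κ) ≤ log (64 * κ) / log 2 * l := by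
            rw [div_mul_eq_mul_div, le_div_iff₀ hlog2]
            gcongr
          linarith
      _ = _ := by rw [hq]; ring
  have hcN := h.c_le4 (a := N - n) (n := N) (by omega)
  have hcn := h.up n hn
  rw [← hl] at hcn
  have hlN0 : 0 ≤ log (N : ℝ) := log_natCast_nonneg N
  have hlN5 : log (N : ℝ) ^ 2 ≤ q ^ 2 * l ^ 2 := by
    rw [← mul_pow]
    exact pow_le_pow_left₀ hlN0 hNl 2
  have hj6 : (j : ℝ) ^ 3 ≤ 8 * l ^ 3 / log 2 ^ 3 := by
    calc (j : ℝ) ^ 3 ≤ (2 * l / log 2) ^ 3 := pow_le_pow_left₀ (Nat.cast_nonneg _) hjl 3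
      _ = _ := by rw [div_pow]; ring
  have hl65 : l ^ 2 ≤ l ^ 3 / log 2 := by
    rw [le_div_iff₀ hlog2]
    calc l ^ 2 * log 2 ≤ l ^ 2 * l := by gcongr
      _ = _ := by ring
  have hl60 : 1 ≤ l ^ 3 / log 2 ^ 3 := by
    rw [le_div_iff₀ (by positivity), one_mul]
    exact pow_le_pow_left₀ hlog2.le hl2 3
  -- assembly
  obtain ⟨E1, hE1⟩ : ∃ E1, E1 = exp (-(2 * κ * K2 K * log 2 ^ 2 * (j : ℝ) ^ 3 + 2 * κ * log μ)) :=
    ⟨_, rfl⟩
  rw [← hE1] at hN2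
  have hE10 : 0 < E1 := by rw [hE1]; exact exp_pos _
  have s1 : E1 * μ ^ N ≤ (wd η n : ℝ) * (4 * μ ^ (N - n) * exp (K * log N ^ 2)) := by
    rw [le_div_iff₀ (pow_pos hμ0 N)] at hN2
    calc E1 * μ ^ N ≤ (gw η ((2 * κ * 2 ^ j : ℕ) : ℤ) N : ℝ) := hN2
      _ ≤ (wd η n : ℝ) * c (N - n) := by exact_mod_cast hgl
      _ ≤ _ := by gcongr
  have s2 : μ ^ N = μ ^ n * μ ^ (N - n) := by rw [← pow_add]; congr 1; omega
  have s3 : E1 * μ ^ n ≤ (wd η n : ℝ) * (4 * exp (K * log N ^ 2)) := by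
    have h1 : 0 < μ ^ (N - n) := pow_pos hμ0 _
    rw [s2] at s1
    have : E1 * μ ^ n * μ ^ (N - n) ≤ (wd η n : ℝ) * (4 * exp (K * log N ^ 2)) * μ ^ (N - n) := by
      calc E1 * μ ^ n * μ ^ (N - n) = E1 * (μ ^ n * μ ^ (N - n)) := by ring
        _ ≤ _ := s1
        _ = _ := by ring
    exact le_of_mul_le_mul_right this h1
  have s4 : exp (-((C1 + 2 * κ * log μ / log 2 ^ 3 + log 4 / log 2 ^ 3 + K * q ^ 2 / log 2 +
      K / log 2) * l ^ 3)) * exp (K * l ^ 2) * (4 * exp (K * log N ^ 2)) ≤ E1 := by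
    rw [show (4 : ℝ) = exp (log 4) by rw [exp_log (by norm_num)], ← exp_add, ← exp_add, ← exp_add,
      hE1]
    apply exp_le_exp.2
    rw [show log (exp (log 4)) = log 4 by rw [log_exp]]
    have t1 : 2 * κ * K2 K * log 2 ^ 2 * (j : ℝ) ^ 3 ≤ C1 * l ^ 3 := by
      calc 2 * κ * K2 K * log 2 ^ 2 * (j : ℝ) ^ 3
          ≤ 2 * κ * K2 K * log 2 ^ 2 * (8 * l ^ 3 / log 2 ^ 3) := by gcongr
        _ = C1 * l ^ 3 := by rw [hC1]; field_simp; ring
    have t2 : 2 * κ * log μ ≤ 2 * κ * log μ / log 2 ^ 3 * l ^ 3 := by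
      calc 2 * κ * log μ = 2 * κ * log μ * 1 := by ring
        _ ≤ 2 * κ * log μ * (l ^ 3 / log 2 ^ 3) := by gcongr
        _ = _ := by ring
    have t3 : log 4 ≤ log 4 / log 2 ^ 3 * l ^ 3 := by
      have : 0 ≤ log 4 := log_nonneg (by norm_num)
      calc log 4 = log 4 * 1 := by ring
        _ ≤ log 4 * (l ^ 3 / log 2 ^ 3) := by gcongr
        _ = _ := by ring
    have t4 : K * log N ^ 2 ≤ K * q ^ 2 / log 2 * l ^ 3 := by
      calc K * log N ^ 2 ≤ K * (q ^ 2 * l ^ 2) := by gcongr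
        _ ≤ K * (q ^ 2 * (l ^ 3 / log 2)) := by gcongr
        _ = _ := by ring
    have t5 : K * l ^ 2 ≤ K / log 2 * l ^ 3 := by
      calc K * l ^ 2 ≤ K * (l ^ 3 / log 2) := by gcongr
        _ = _ := by ring
    nlinarith
  have hE4 : 0 < 4 * exp (K * log N ^ 2) := by positivity
  have s5 : exp (-((C1 + 2 * κ * log μ / log 2 ^ 3 + log 4 / log 2 ^ 3 + K * q ^ 2 / log 2 +
      K / log 2) * l ^ 3)) * c n * (4 * exp (K * log N ^ 2)) ≤
      (wd η n : ℝ) * (4 * exp (K * log N ^ 2)) := by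
    calc exp (-((C1 + 2 * κ * log μ / log 2 ^ 3 + log 4 / log 2 ^ 3 + K * q ^ 2 / log 2 +
        K / log 2) * l ^ 3)) * c n * (4 * exp (K * log N ^ 2))
        ≤ exp (-((C1 + 2 * κ * log μ / log 2 ^ 3 + log 4 / log 2 ^ 3 + K * q ^ 2 / log 2 +
        K / log 2) * l ^ 3)) * (μ ^ n * exp (K * l ^ 2)) * (4 * exp (K * log N ^ 2)) := by gcongr
      _ = (exp (-((C1 + 2 * κ * log μ / log 2 ^ 3 + log 4 / log 2 ^ 3 + K * q ^ 2 / log 2 +
        K / log 2) * l ^ 3)) * exp (K * l ^ 2) * (4 * exp (K * log N ^ 2))) * μ ^ n := by ring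
      _ ≤ E1 * μ ^ n := by gcongr
      _ ≤ _ := s3
  exact le_of_mul_le_mul_right s5 hE4

/-- **Walks in a wedge.** -/
theorem wedge_final (η : ℝ) (hη : 0 < η) : ∃ K : ℝ, ∀ n : ℕ, 2 ≤ n →
    Real.exp (-(K * Real.log n ^ 3)) ≤
      ({f | f ∈ walks n ∧ ∀ i, |((f i).1 : ℝ)| ≤ η * (f i).2}.ncard : ℝ) /
        ((walks n).ncard : ℝ) := by
  obtain ⟨K, hB⟩ := exists_Bd
  obtain ⟨K6, -, h6⟩ := wedge hB hη
  refine ⟨K6, fun n hn => ?_⟩
  have hμ0 : 0 < mu := by linarith [hB.one]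
  have hc : (0 : ℝ) < c n := lt_of_lt_of_le (pow_pos hμ0 n) (hB.low n hn)
  rw [ncard_walks, le_div_iff₀ hc]
  refine (h6 n hn).trans ?_
  have : wd η n ≤ {f | f ∈ walks n ∧ ∀ i, |((f i).1 : ℝ)| ≤ η * (f i).2}.ncard := by
    unfold wd
    rw [← Set.ncard_coe_finset]
    refine Set.ncard_le_ncard_of_injOn (fw n) ?_ ?_ ((walks_finite n).subset fun f hf => hf.1)
    · intro w hw
      rw [Finset.mem_coe, mem_fs] at hw
      refine ⟨fw_mem hw.1.1 hw.2, fun i => ?_⟩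
      exact hw.1.2 _ (List.take_prefix _ _)
    · intro w hw w' hw' h
      rw [Finset.mem_coe, mem_fs] at hw hw'
      exact fw_inj hw.2 hw'.2 h
  exact_mod_cast this

end Pool.Agent.V11237.SXT
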