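import Pool.Agent.V11237.SXT.Prefix

/-!
The uniform self-avoiding walk on the square lattice in the discretisations of connected open sets
of the plane which contain a cone.
-/

set_option autoImplicit false

namespace Pool.Agent.V11237.SXT

open scoped ENNReal Topology
open Pool.Agent.H122R3.HX (ZL TL gw rect)
open Pool.Agent.H122R3.SX (Adj c walks walks_finite ncard_walks)
open Pool.Agent.H122R3.SY (nbr_symm ZL_map)

/-- the lattice point `v` after rescaling -/
noncomputable def pt (L : ℝ) (v : ℤ × ℤ) : ℝ × ℝ := ((v.1 : ℝ) / L, (v.2 : ℝ) / L)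

/-- a part of the cone -/
def VV (e : ℝ × ℝ) (θ : ℝ) : Set (ℝ × ℝ) := {x | ∃ t : ℝ, t ∈ Set.Ioo (1 : ℝ) 4 ∧ ‖x - t • e‖ < θ * t}

theorem VV_open (e : ℝ × ℝ) (θ : ℝ) : IsOpen (VV e θ) := by
  have : VV e θ = ⋃ t ∈ Set.Ioo (1 : ℝ) 4, Metric.ball (t • e) (θ * t) := by
    ext x
    simp only [VV, Set.mem_ofPred_eq, Set.mem_iUnion, Metric.mem_ball, dist_eq_norm, exists_prop]
  rw [this]
  exact isOpen_biUnion fun t _ => Metric.isOpen_ball

theorem VV_convex (e : ℝ × ℝ) (θ : ℝ) : Convex ℝ (VV e θ) := by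
  rintro x ⟨t, ht, hx⟩ y ⟨s, hs, hy⟩ a b ha hb hab
  refine ⟨a • t + b • s, convex_Ioo 1 4 ht hs ha hb hab, ?_⟩
  have e1 : a • x + b • y - (a • t + b • s) • e = a • (x - t • e) + b • (y - s • e) := by
    rw [smul_sub, smul_sub, add_smul, smul_assoc, smul_assoc]
    abel
  rw [e1]
  have h1 : ‖a • (x - t • e) + b • (y - s • e)‖ ≤ a * ‖x - t • e‖ + b * ‖y - s • e‖ := by
    refine (norm_add_le _ _).trans (le_of_eq ?_)
    rw [norm_smul, norm_smul, Real.norm_of_nonneg ha, Real.norm_of_nonneg hb]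
  have h2 : (0 : ℝ) < a • (θ * t - ‖x - t • e‖) + b • (θ * s - ‖y - s • e‖) :=
    convex_Ioi (0 : ℝ) (sub_pos.2 hx) (sub_pos.2 hy) ha hb hab
  simp only [smul_eq_mul] at h2 ⊢
  refine lt_of_le_of_lt h1 ?_
  linarith

theorem near_two (e : ℝ × ℝ) (L : ℝ) : near ((3 : ℝ) • e) L = near ((3 / 2 : ℝ) • e) (2 * L) := by
  unfold near
  simp only [Prod.smul_fst, Prod.smul_snd, smul_eq_mul]
  congr 2
  · ring
  · ring

/-- **chains through a cone** -/
theorem chain_cone {W : Set (ℝ × ℝ)} (hW : IsOpen W) (hc : IsPreconnected W)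
    (h0 : (0 : ℝ × ℝ) ∈ W) (e : ℝ × ℝ) {θ : ℝ} (hθ : 0 < θ)
    (hcone : ∀ t : ℝ, 1 ≤ t → Metric.closedBall (t • e) (θ * t) ⊆ W) :
    ∃ δ K M C : ℝ, 0 < δ ∧ 0 ≤ K ∧ 0 ≤ M ∧ 2 ≤ C ∧ ∀ L : ℝ, C ≤ L → ∀ J : ℕ, ∃ D : Set (ℤ × ℤ),
      (∀ v ∈ D, Metric.closedBall (pt L v) δ ⊆ W) ∧
      (∀ v ∈ D, |(v.1 : ℝ)| ≤ M * (2 ^ J * L) ∧ |(v.2 : ℝ)| ≤ M * (2 ^ J * L)) ∧
      ee (-(K * (J + 1) * Real.log (2 ^ J * L) ^ 2)) ≤
        ZL Adj xe D (0, 0) (near ((3 / 2 : ℝ) • e) (2 ^ J * L)) := by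
  have hb1 : (3 / 2 : ℝ) • e ∈ W := hcone (3 / 2) (by norm_num) (Metric.mem_closedBall_self (by positivity))
  have hb2 : (3 / 2 : ℝ) • e ∈ VV e θ := ⟨3 / 2, ⟨by norm_num, by norm_num⟩, by
    rw [sub_self, norm_zero]; positivity⟩
  have hb3 : (3 : ℝ) • e ∈ VV e θ := ⟨3, ⟨by norm_num, by norm_num⟩, by
    rw [sub_self, norm_zero]; positivity⟩
  obtain ⟨Q0, hQ0, hs0, r0, K0, C0, hr0, hK0, hC0, m0⟩ := conn hW hc h0 hb1
  obtain ⟨Q1, hQ1, hs1, r1, K1, C1, hr1, hK1, hC1, m1⟩ :=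
    conn (VV_open e θ) (VV_convex e θ).isPreconnected hb2 hb3
  obtain ⟨δ0, hδ0, ht0⟩ := hQ0.exists_cthickening_subset_open hW hs0
  obtain ⟨δ1, hδ1, ht1⟩ := hQ1.exists_cthickening_subset_open (VV_open e θ) hs1
  obtain ⟨M0, hM00, hM0⟩ := Lat_box hQ0
  obtain ⟨M1, hM10, hM1⟩ := Lat_box hQ1
  obtain ⟨K3, hK3, g3⟩ := gluingR (max M0 M1)
  refine ⟨min δ0 δ1, K0 + K1 + K3, max M0 M1, max (max C0 C1) (max (1 / r0) (1 / r1)),
    lt_min hδ0 hδ1, by positivity, hM00.trans (le_max_left _ _),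
    hC0.trans ((le_max_left _ _).trans (le_max_left _ _)), ?_⟩
  intro L hL J
  have hLC0 : C0 ≤ L := (le_max_left _ _).trans ((le_max_left _ _).trans hL)
  have hLC1 : C1 ≤ L := (le_max_right _ _).trans ((le_max_left _ _).trans hL)
  have hL2 : 2 ≤ L := hC0.trans hLC0
  have hr0L : 1 ≤ r0 * L := by
    have := (le_max_left (1 / r0) (1 / r1)).trans ((le_max_right _ _).trans hL)
    rw [div_le_iff₀ hr0] at this
    linarith
  have hr1L : 1 ≤ r1 * L := by
    have := (le_max_right (1 / r0) (1 / r1)).trans ((le_max_right _ _).trans hL)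
    rw [div_le_iff₀ hr1] at this
    linarith
  induction J with
  | zero =>
    refine ⟨Lat Q0 L, ?_, ?_, ?_⟩
    · intro v hv
      have hy : pt L v ∈ Q0 := hv
      refine subset_trans ?_ ht0
      exact (Metric.closedBall_subset_closedBall (min_le_left _ _)).trans
        (Metric.closedBall_subset_cthickening hy δ0)
    · intro v hv
      have h1 := hM0 L (by linarith) v hv
      have h2 : M0 * L ≤ max M0 M1 * (2 ^ 0 * L) := by
        rw [pow_zero, one_mul]
        exact mul_le_mul_of_nonneg_right (le_max_left _ _) (by linarith)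
      exact ⟨h1.1.trans h2, h1.2.trans h2⟩
    · have h1 := m0 L hLC0 (0, 0) (near ((3 / 2 : ℝ) • e) L) (by
        constructor <;> simp <;> positivity) (near_mem _ hr0L)
      rw [pow_zero, one_mul]
      refine le_trans (ee_mono ?_) h1
      have : 0 ≤ (K1 + K3) * Real.log L ^ 2 := by positivity
      push_cast
      linarith
  | succ J ih =>
    obtain ⟨D, hD1, hD2, hD3⟩ := ih
    obtain ⟨L', hL'⟩ : ∃ L', L' = 2 ^ J * L := ⟨_, rfl⟩
    have hJ1 : (1 : ℝ) ≤ 2 ^ J := one_le_pow₀ (by norm_num)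
    have hLL' : L ≤ L' := by rw [hL']; nlinarith
    have hL'0 : 0 < L' := by linarith
    have e2 : (2 : ℝ) ^ (J + 1) * L = 2 * L' := by rw [hL']; ring
    rw [e2]
    rw [← hL'] at hD2 hD3
    refine ⟨D ∪ Lat Q1 L', ?_, ?_, ?_⟩
    · rintro v (hv | hv)
      · exact hD1 v hv
      · intro x hx
        have hy : pt L' v ∈ Q1 := hv
        have e3 : pt L v = (2 : ℝ) ^ J • pt L' v := by
          unfold pt
          rw [hL']
          simp only [Prod.smul_mk, smul_eq_mul]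
          have : (2 : ℝ) ^ J ≠ 0 := by positivity
          have : L ≠ 0 := by linarith
          congr 1
          · field_simp
          · field_simp
        obtain ⟨x', hx'⟩ : ∃ x', x' = ((2 : ℝ) ^ J)⁻¹ • x := ⟨_, rfl⟩
        have hxx : x = (2 : ℝ) ^ J • x' := by
          rw [hx', smul_smul, mul_inv_cancel₀ (by positivity), one_smul]
        have h4 : dist x' (pt L' v) ≤ δ1 := by
          have h5 : dist x (pt L v) ≤ min δ0 δ1 := hx
          rw [hxx, e3, dist_smul₀, Real.norm_of_nonneg (by positivity)] at h5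
          have h6 : (0 : ℝ) ≤ dist x' (pt L' v) := dist_nonneg
          have h7 := min_le_right δ0 δ1
          nlinarith
        have h8 : x' ∈ VV e θ := ht1 (Metric.closedBall_subset_cthickening hy δ1 h4)
        obtain ⟨t, ht, hxt⟩ := h8
        apply hcone (2 ^ J * t) (by nlinarith [ht.1])
        rw [Metric.mem_closedBall, dist_eq_norm, hxx, mul_smul, ← smul_sub, norm_smul,
          Real.norm_of_nonneg (by positivity)]
        calc (2 : ℝ) ^ J * ‖x' - t • e‖ ≤ 2 ^ J * (θ * t) := by gcongr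
          _ = _ := by ring
    · rintro v (hv | hv)
      · have h1 := hD2 v hv
        have h2 : max M0 M1 * L' ≤ max M0 M1 * (2 * L') :=
          mul_le_mul_of_nonneg_left (by linarith) (hM00.trans (le_max_left _ _))
        exact ⟨h1.1.trans h2, h1.2.trans h2⟩
      · have h1 := hM1 L' hL'0 v hv
        have h2 : M1 * L' ≤ max M0 M1 * (2 * L') := by
          calc M1 * L' ≤ max M0 M1 * L' := mul_le_mul_of_nonneg_right (le_max_right _ _) hL'0.le
            _ ≤ _ := mul_le_mul_of_nonneg_left (by linarith) (hM00.trans (le_max_left _ _))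
        exact ⟨h1.1.trans h2, h1.2.trans h2⟩
    · have hv1 : near ((3 / 2 : ℝ) • e) L' ∈ Bx ((3 / 2 : ℝ) • e) r1 L' :=
        near_mem _ (by nlinarith)
      have hv2 : near ((3 : ℝ) • e) L' ∈ Bx ((3 : ℝ) • e) r1 L' :=
        near_mem _ (by nlinarith)
      have h1 := m1 L' (hLC1.trans hLL') _ _ hv1 hv2
      rw [near_two] at h1
      have p1 := hD3.trans (ZL_mono (Set.subset_union_left (s := D) (t := Lat Q1 L')) _ _)
      have p2 := h1.trans (ZL_mono (Set.subset_union_right (s := D) (t := Lat Q1 L')) _ _)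
      have hbox : ∀ v ∈ D ∪ Lat Q1 L', |(v.1 : ℝ)| ≤ max M0 M1 * L' ∧
          |(v.2 : ℝ)| ≤ max M0 M1 * L' := by
        rintro v (hv | hv)
        · exact hD2 v hv
        · have h1 := hM1 L' hL'0 v hv
          have h2 : M1 * L' ≤ max M0 M1 * L' := mul_le_mul_of_nonneg_right (le_max_right _ _) hL'0.le
          exact ⟨h1.1.trans h2, h1.2.trans h2⟩
      have p3 := glue_ge p1 p2 (g3 L' (by linarith) _ hbox _ _ _)
      refine le_trans (ee_mono ?_) p3
      have hlog : Real.log L' ^ 2 ≤ Real.log (2 * L') ^ 2 :=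
        pow_le_pow_left₀ (Real.log_nonneg (by linarith))
          (Real.log_le_log (by linarith) (by linarith)) 2
      have h5 : (K0 + K1 + K3) * (J + 1) * Real.log L' ^ 2 + K1 * Real.log L' ^ 2 +
          K3 * Real.log L' ^ 2 ≤ (K0 + K1 + K3) * ((J + 1 : ℕ) + 1) * Real.log L' ^ 2 := by
        have : 0 ≤ K0 * Real.log L' ^ 2 := by positivity
        push_cast
        nlinarith
      have h6 : (K0 + K1 + K3) * ((J + 1 : ℕ) + 1) * Real.log L' ^ 2 ≤
          (K0 + K1 + K3) * ((J + 1 : ℕ) + 1) * Real.log (2 * L') ^ 2 := by gcongr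
      linarith

/-- small walks stay in small balls -/
theorem walks_abs {n : ℕ} {f : Fin (n + 1) → ℤ × ℤ} (hf : f ∈ walks n) (i : Fin (n + 1)) :
    |(f i).1| + |(f i).2| ≤ n := by
  have h : ∀ (k : ℕ) (hk : k < n + 1), |(f ⟨k, hk⟩).1| + |(f ⟨k, hk⟩).2| ≤ k := by
    intro k
    induction k with
    | zero =>
      intro hk
      have : f ⟨0, hk⟩ = 0 := hf.1
      rw [this]
      simp
    | succ k ih =>
      intro hk
      have h1 := ih (by omega)
      have h2 := hf.2.2 ⟨k, by omega⟩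
      unfold Adj at h2
      simp only [Fin.castSucc_mk, Fin.succ_mk] at h2
      have h3 := abs_sub_abs_le_abs_sub (f ⟨k + 1, hk⟩).1 (f ⟨k, by omega⟩).1
      have h4 := abs_sub_abs_le_abs_sub (f ⟨k + 1, hk⟩).2 (f ⟨k, by omega⟩).2
      rw [abs_sub_comm (f ⟨k + 1, hk⟩).1] at h3
      rw [abs_sub_comm (f ⟨k + 1, hk⟩).2] at h4
      push_cast
      linarith
  have h1 := h i.1 i.2
  have h2 : (i.1 : ℤ) ≤ n := by have := i.2; omega
  exact h1.trans h2

theorem ee_le_ofReal {x y : ℝ} (hy : 0 ≤ y) (h : ee x ≤ ENNReal.ofReal y) : Real.exp x ≤ y :=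
  (ENNReal.ofReal_le_ofReal_iff hy).1 h

/-- **The uniform walk in a region which contains a cone.** -/
theorem cone {W : Set (ℝ × ℝ)} (hW : IsOpen W) (hc : IsPreconnected W)
    (h0 : (0 : ℝ × ℝ) ∈ W) {e : ℝ × ℝ} (he : e ≠ 0) {θ : ℝ} (hθ : 0 < θ)
    (hcone : ∀ t : ℝ, 1 ≤ t → Metric.closedBall (t • e) (θ * t) ⊆ W) :
    ∃ δ K : ℝ, 0 < δ ∧ 0 < K ∧ ∀ n : ℕ, 2 ≤ n → ∀ L : ℝ, K ≤ L →
      Real.exp (-(K * Real.log n ^ 3)) * c n ≤
        ({f | f ∈ walks n ∧ ∀ i, Metric.closedBall (pt L (f i)) δ ⊆ W}.ncard : ℝ) := by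
  obtain ⟨δ, K1, M, C1, hδ, hK1, hM, hC1, h1⟩ := chain_cone hW hc h0 e hθ hcone
  obtain ⟨K2, hB⟩ := exists_Bd
  obtain ⟨K4, hK4, h4⟩ := bounds_in_box |M|
  obtain ⟨ρ, hρ, hρW⟩ := Metric.isOpen_iff.1 hW 0 h0
  have hK2 := hB.Kn
  have hlog2 : 0 < Real.log 2 := Real.log_pos (by norm_num)
  have he0 : 0 < ‖e‖ := norm_pos_iff.2 he
  -- the constants
  obtain ⟨A, hA⟩ : ∃ A, A = (2 + |Real.log ‖e‖| / Real.log 2 + 1) / Real.log 2 := ⟨_, rfl⟩
  have hA0 : 0 ≤ A := by rw [hA]; positivity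
  obtain ⟨B, hBd⟩ : ∃ B, B = A * Real.log 2 + 2 := ⟨_, rfl⟩
  have hB0 : 0 ≤ B := by rw [hBd]; positivity
  obtain ⟨G, hG⟩ : ∃ G, G = (Real.log 2 / Real.log 2 + 1) ^ 2 := ⟨_, rfl⟩
  have hG0 : 0 ≤ G := by rw [hG]; positivity
  obtain ⟨K, hK⟩ : ∃ K, K = K1 * (A + 1 / Real.log 2) * B ^ 2 + K4 * G * B ^ 2 / Real.log 2 +
    K2 / Real.log 2 := ⟨_, rfl⟩
  have hK0 : 0 ≤ K := by rw [hK]; positivity
  refine ⟨min δ (ρ / 3), K + C1 + 9 / ρ ^ 2 + 1, lt_min hδ (by positivity), by positivity, ?_⟩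
  intro n hn L hL
  have h9 : 0 ≤ 9 / ρ ^ 2 := by positivity
  have hLC1 : C1 ≤ L := by linarith
  have hL2 : 2 ≤ L := hC1.trans hLC1
  have hL0 : 0 < L := by linarith
  have hnr : (2 : ℝ) ≤ n := by exact_mod_cast hn
  have hn0 : (0 : ℝ) < n := by linarith
  obtain ⟨l, hl⟩ : ∃ l, l = Real.log (n : ℝ) := ⟨_, rfl⟩
  have hl2 : Real.log 2 ≤ l := by rw [hl]; exact Real.log_le_log (by norm_num) hnr
  have hl0 : 0 < l := by linarith
  rw [← hl]
  have hcn : (0 : ℝ) < c n := lt_of_lt_of_le (pow_pos H981.mu_pos n) (hB.low n hn)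
  rcases le_or_gt L ((n : ℝ) ^ 2) with hLn | hLn
  · -- the main case
    obtain ⟨J, hJ⟩ : ∃ J : ℕ, J = ⌈Real.log ((n + 1) / ‖e‖) / Real.log 2⌉₊ := ⟨_, rfl⟩
    have hJ1 : ((n : ℝ) + 1) / ‖e‖ ≤ 2 ^ J := by
      have h5 : Real.log ((n + 1) / ‖e‖) / Real.log 2 ≤ J := by rw [hJ]; exact Nat.le_ceil _
      rw [div_le_iff₀ hlog2] at h5
      have h6 : Real.log ((n + 1) / ‖e‖) ≤ Real.log (2 ^ J) := by rw [Real.log_pow]; exact h5
      exact (Real.log_le_log_iff (by positivity) (by positivity)).1 h6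
    have hJ2 : (J : ℝ) ≤ A * l := by
      have h5 : (J : ℝ) ≤ |Real.log ((n + 1) / ‖e‖) / Real.log 2| + 1 := by
        rw [hJ]
        have := Nat.ceil_lt_add_one (abs_nonneg (Real.log (((n : ℝ) + 1) / ‖e‖) / Real.log 2))
        refine le_trans ?_ this.le
        exact_mod_cast Nat.ceil_le_ceil (le_abs_self _)
      have h6 : |Real.log (((n : ℝ) + 1) / ‖e‖)| ≤ 2 * l + |Real.log ‖e‖| := by
        rw [Real.log_div (by positivity) he0.ne']
        refine (abs_sub _ _).trans ?_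
        have h7 : |Real.log ((n : ℝ) + 1)| ≤ 2 * l := by
          rw [abs_of_nonneg (Real.log_nonneg (by linarith)), hl]
          have : Real.log ((n : ℝ) + 1) ≤ Real.log ((n : ℝ) ^ 2) :=
            Real.log_le_log (by positivity) (by nlinarith)
          rw [Real.log_pow] at this
          exact_mod_cast this
        linarith
      rw [abs_div, abs_of_pos hlog2] at h5
      have h8 : |Real.log ‖e‖| ≤ |Real.log ‖e‖| / Real.log 2 * l := by
        rw [div_mul_eq_mul_div, le_div_iff₀ hlog2]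
        gcongr
      have h10 : |Real.log (((n : ℝ) + 1) / ‖e‖)| / Real.log 2 + 1 ≤ A * l := by
        rw [hA, div_mul_eq_mul_div, le_div_iff₀ hlog2, add_mul, div_mul_cancel₀ _ hlog2.ne', one_mul]
        linarith
      exact h5.trans h10
    obtain ⟨L', hL'⟩ : ∃ L', L' = 2 ^ J * L := ⟨_, rfl⟩
    have hJ3 : (1 : ℝ) ≤ 2 ^ J := one_le_pow₀ (by norm_num)
    have hLL' : L ≤ L' := by rw [hL']; nlinarith
    have hL'0 : 0 < L' := by linarith
    have hlogL' : Real.log L' ≤ B * l := by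
      have h5 : Real.log L ≤ 2 * l := by
        have := Real.log_le_log hL0 hLn
        rw [Real.log_pow, ← hl] at this
        exact_mod_cast this
      rw [hL', Real.log_mul (by positivity) (by positivity), Real.log_pow, hBd]
      have h6 : (J : ℝ) * Real.log 2 ≤ A * l * Real.log 2 := by gcongr
      have h7 : (A * Real.log 2 + 2) * l = A * l * Real.log 2 + 2 * l := by ring
      rw [h7]
      linarith
    have hlogL'0 : 0 ≤ Real.log L' := Real.log_nonneg (by linarith)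
    have hlogL'2 : Real.log L' ^ 2 ≤ B ^ 2 * l ^ 2 := by
      rw [← mul_pow]
      exact pow_le_pow_left₀ hlogL'0 hlogL' 2
    obtain ⟨D, hD1, hD2, hD3⟩ := h1 L hLC1 J
    rw [← hL'] at hD2 hD3
    obtain ⟨N1, hN1, hN2⟩ := ceil_facts (show 2 ≤ L' by linarith)
    obtain ⟨N, hNl, -, hNQ⟩ := h4 ⌈L'⌉₊ N1 D (by
      intro v hv
      have h5 := hD2 v hv
      have h6 : M * L' ≤ |M| * (⌈L'⌉₊ : ℝ) := by
        calc M * L' ≤ |M| * L' := mul_le_mul_of_nonneg_right (le_abs_self M) hL'0.le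
          _ ≤ _ := mul_le_mul_of_nonneg_left hN1 (abs_nonneg M)
      exact ⟨h5.1.trans h6, h5.2.trans h6⟩)
    -- all the paths are long
    have hfar : (n : ℤ) ≤ |(near ((3 / 2 : ℝ) • e) L').1| + |(near ((3 / 2 : ℝ) • e) L').2| := by
      have key : ∀ x : ℝ, |x| - 1 ≤ |(⌊x⌋ : ℝ)| := by
        intro x
        have h1 := Int.floor_le x
        have h2 := Int.lt_floor_add_one x
        have h3 : |x - ⌊x⌋| ≤ 1 := by rw [abs_le]; constructor <;> linarith
        have h4 := abs_sub_abs_le_abs_sub x (⌊x⌋ : ℝ)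
        linarith
      have h5 : (n : ℝ) + 1 ≤ L' * ‖e‖ := by
        rw [div_le_iff₀ he0] at hJ1
        have : (2 : ℝ) ^ J * ‖e‖ ≤ L' * ‖e‖ := by
          rw [hL']
          apply mul_le_mul_of_nonneg_right _ he0.le
          nlinarith
        linarith
      have h6 : L' * ‖e‖ ≤ max |L' * (3 / 2 * e.1)| |L' * (3 / 2 * e.2)| := by
        rw [Prod.norm_def, Real.norm_eq_abs, Real.norm_eq_abs, abs_mul, abs_mul, abs_mul, abs_mul,
          abs_of_pos hL'0, abs_of_pos (show (0 : ℝ) < 3 / 2 by norm_num),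
          ← mul_max_of_nonneg _ _ hL'0.le, ← mul_max_of_nonneg _ _ (show (0 : ℝ) ≤ 3 / 2 by norm_num)]
        apply mul_le_mul_of_nonneg_left _ hL'0.le
        have : 0 ≤ max |e.1| |e.2| := le_max_of_le_left (abs_nonneg _)
        linarith
      have h7 : max |L' * (3 / 2 * e.1)| |L' * (3 / 2 * e.2)| - 1 ≤
          |((near ((3 / 2 : ℝ) • e) L').1 : ℝ)| + |((near ((3 / 2 : ℝ) • e) L').2 : ℝ)| := by
        have k1 := key (L' * (3 / 2 * e.1))
        have k2 := key (L' * (3 / 2 * e.2))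
        unfold near
        simp only [Prod.smul_fst, Prod.smul_snd, smul_eq_mul]
        have k3 := abs_nonneg ((⌊L' * (3 / 2 * e.1)⌋ : ℝ))
        have k4 := abs_nonneg ((⌊L' * (3 / 2 * e.2)⌋ : ℝ))
        rcases max_choice |L' * (3 / 2 * e.1)| |L' * (3 / 2 * e.2)| with h | h
        · rw [h]; linarith
        · rw [h]; linarith
      have h8 : (n : ℝ) ≤ |((near ((3 / 2 : ℝ) • e) L').1 : ℝ)| +
          |((near ((3 / 2 : ℝ) • e) L').2 : ℝ)| := by linarith
      exact_mod_cast h8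
    have hlong : ∀ p ∈ TL Adj D (0, 0) (near ((3 / 2 : ℝ) • e) L'), n + 1 ≤ p.length := by
      rintro p ⟨p1, p2, p3, p4, p5⟩
      have hp0 : 0 < p.length := by
        rw [List.length_pos_iff]
        rintro rfl
        simp at p1
      have h5 := chain_dist p p4 p1 (p.length - 1) (by omega)
      rw [List.getLast?_eq_getElem?, List.getElem?_eq_getElem (by omega)] at p2
      rw [Option.some.inj p2] at h5
      have h6 := hfar.trans h5
      omega
    have hZ := ZL_prefix hlong hNl hNQ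
    have hfin : {f | f ∈ walks n ∧ ∀ i, Metric.closedBall (pt L (f i)) (min δ (ρ / 3)) ⊆ W}.Finite :=
      (walks_finite n).subset fun f hf => hf.1
    have hcard : ((SD D n).ncard : ℝ) ≤
        ({f | f ∈ walks n ∧ ∀ i, Metric.closedBall (pt L (f i)) (min δ (ρ / 3)) ⊆ W}.ncard : ℝ) := by
      have h5 := (SD_card D n).2
      have h6 : {f | f ∈ walks n ∧ ∀ i, f i ∈ D}.ncard ≤
          {f | f ∈ walks n ∧ ∀ i, Metric.closedBall (pt L (f i)) (min δ (ρ / 3)) ⊆ W}.ncard := by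
        apply Set.ncard_le_ncard _ hfin
        rintro f ⟨hf1, hf2⟩
        exact ⟨hf1, fun i => (Metric.closedBall_subset_closedBall (min_le_left _ _)).trans
          (hD1 _ (hf2 i))⟩
      exact_mod_cast h5.trans h6
    refine le_trans ?_ hcard
    -- the estimate
    obtain ⟨s, hs⟩ : ∃ s : ℝ, s = ((SD D n).ncard : ℝ) := ⟨_, rfl⟩
    have hs0 : 0 ≤ s := by rw [hs]; positivity
    have hmu := H981.mu_pos
    have hmu' : (0 : ℝ) < mu := hmu
    obtain ⟨X, hX⟩ : ∃ X, X = K1 * (J + 1) * Real.log L' ^ 2 := ⟨_, rfl⟩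
    obtain ⟨Y, hY⟩ : ∃ Y, Y = K4 * Real.log (⌈L'⌉₊ : ℝ) ^ 2 := ⟨_, rfl⟩
    have hmain : Real.exp (-X) ≤ s * (1 / mu) ^ n * Real.exp Y := by
      apply ee_le_ofReal (by positivity)
      rw [hX]
      refine hD3.trans (hZ.trans (le_of_eq ?_))
      rw [ENNReal.ofReal_mul (by positivity), ENNReal.ofReal_mul hs0, hs, hY]
      unfold xe
      rw [ENNReal.ofReal_natCast, ENNReal.ofReal_pow (by positivity)]
    have hcup := hB.up n hn
    rw [← hl] at hcup
    have hX2 : X ≤ K1 * (A + 1 / Real.log 2) * B ^ 2 * l ^ 3 := by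
      have h5 : (J : ℝ) + 1 ≤ (A + 1 / Real.log 2) * l := by
        have : 1 ≤ 1 / Real.log 2 * l := by
          rw [div_mul_eq_mul_div, one_mul, le_div_iff₀ hlog2, one_mul]
          exact hl2
        linarith
      rw [hX]
      calc K1 * (J + 1) * Real.log L' ^ 2 ≤ K1 * ((A + 1 / Real.log 2) * l) * (B ^ 2 * l ^ 2) := by
            gcongr
        _ = _ := by ring
    have hl23 : l ^ 2 ≤ l ^ 3 / Real.log 2 := by
      rw [le_div_iff₀ hlog2]
      calc l ^ 2 * Real.log 2 ≤ l ^ 2 * l := by gcongr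
        _ = l ^ 3 := by ring
    have hY2 : Y ≤ K4 * G * B ^ 2 / Real.log 2 * l ^ 3 := by
      have h5 := log_scale (A := 2) (by norm_num) (show 2 ≤ L' by linarith)
        (by linarith : (1 : ℝ) ≤ (⌈L'⌉₊ : ℝ)) hN2
      rw [← hG] at h5
      rw [hY]
      calc K4 * Real.log (⌈L'⌉₊ : ℝ) ^ 2 ≤ K4 * (G * (B ^ 2 * (l ^ 3 / Real.log 2))) := by
            gcongr
            refine h5.trans ?_
            gcongr
            exact hlogL'2.trans (by gcongr)
        _ = _ := by ring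
    have hZ2 : K2 * l ^ 2 ≤ K2 / Real.log 2 * l ^ 3 := by
      calc K2 * l ^ 2 ≤ K2 * (l ^ 3 / Real.log 2) := by gcongr
        _ = _ := by ring
    have hsum : X + Y + K2 * l ^ 2 ≤ (K + C1 + 9 / ρ ^ 2 + 1) * l ^ 3 := by
      have h5 : X + Y + K2 * l ^ 2 ≤ K * l ^ 3 := by rw [hK]; linarith
      have h6 : K * l ^ 3 ≤ (K + C1 + 9 / ρ ^ 2 + 1) * l ^ 3 := by
        apply mul_le_mul_of_nonneg_right _ (by positivity)
        linarith
      linarith
    calc Real.exp (-((K + C1 + 9 / ρ ^ 2 + 1) * l ^ 3)) * c n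
        ≤ Real.exp (-((K + C1 + 9 / ρ ^ 2 + 1) * l ^ 3)) * (mu ^ n * Real.exp (K2 * l ^ 2)) := by
          gcongr
      _ = Real.exp (-((K + C1 + 9 / ρ ^ 2 + 1) * l ^ 3) + K2 * l ^ 2) * mu ^ n := by
          rw [Real.exp_add]; ring
      _ ≤ Real.exp (-X - Y) * mu ^ n := by
          gcongr
          linarith
      _ = Real.exp (-X) * Real.exp (-Y) * mu ^ n := by
          rw [← Real.exp_add]
          congr 2
      _ ≤ s * (1 / mu) ^ n * Real.exp Y * Real.exp (-Y) * mu ^ n := by gcongr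
      _ = s * ((1 / mu) ^ n * mu ^ n) * (Real.exp Y * Real.exp (-Y)) := by ring
      _ = s := by
          rw [← mul_pow, one_div, inv_mul_cancel₀ hmu'.ne', one_pow, ← Real.exp_add, add_neg_cancel,
            Real.exp_zero]
          ring
      _ = _ := hs
  · -- large scales: all the walks stay in a small ball
    have h5 : {f | f ∈ walks n ∧ ∀ i, Metric.closedBall (pt L (f i)) (min δ (ρ / 3)) ⊆ W} = walks n := by
      ext f
      constructor
      · exact fun hf => hf.1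
      · intro hf
        refine ⟨hf, fun i => ?_⟩
        refine subset_trans ?_ hρW
        intro x hx
        have h6 : (n : ℝ) / L ≤ ρ / 3 := by
          rw [div_le_iff₀ hL0]
          rcases le_or_gt ((n : ℝ)) (3 / ρ) with h7 | h7
          · have h8 : 9 / ρ ^ 2 ≤ L := by linarith
            have h10 : ρ / 3 * (9 / ρ ^ 2) ≤ ρ / 3 * L := by gcongr
            have h11 : ρ / 3 * (9 / ρ ^ 2) = 3 / ρ := by field_simp; norm_num
            linarith
          · rw [div_lt_iff₀ hρ] at h7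
            have h8 : ρ / 3 * (n : ℝ) ^ 2 ≤ ρ / 3 * L := by gcongr
            nlinarith
        have h7 : ‖pt L (f i)‖ ≤ ρ / 3 := by
          refine le_trans ?_ h6
          have h8 := walks_abs hf i
          have h8' : |((f i).1 : ℝ)| + |((f i).2 : ℝ)| ≤ n := by exact_mod_cast h8
          unfold pt
          rw [Prod.norm_def]
          simp only [Real.norm_eq_abs]
          rw [abs_div, abs_div, abs_of_pos hL0]
          have h9 := abs_nonneg ((f i).1 : ℝ)
          have h10 := abs_nonneg ((f i).2 : ℝ)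
          apply max_le
          · gcongr; linarith
          · gcongr; linarith
        have h8 : dist x (pt L (f i)) ≤ min δ (ρ / 3) := hx
        have h9 := h8.trans (min_le_right _ _)
        rw [Metric.mem_ball]
        calc dist x 0 ≤ dist x (pt L (f i)) + dist (pt L (f i)) 0 := dist_triangle _ _ _
          _ ≤ ρ / 3 + ρ / 3 := by
              rw [dist_zero_right]
              linarith
          _ < ρ := by linarith
    rw [h5, ncard_walks]
    have h6 : Real.exp (-((K + C1 + 9 / ρ ^ 2 + 1) * l ^ 3)) ≤ 1 := by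
      apply Real.exp_le_one_iff.2
      have : 0 ≤ (K + C1 + 9 / ρ ^ 2 + 1) * l ^ 3 := by positivity
      linarith
    nlinarith

end Pool.Agent.V11237.SXT
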