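import Pool.Agent.V11237.SXT.Cont

/-!
Critical self-avoiding walks on the square lattice in discretisations of connected open sets of the
plane: two arbitrary points.
-/

set_option autoImplicit false

namespace Pool.Agent.V11237.SXT

open scoped ENNReal Topology
open Pool.Agent.H122R3.HX (ZL TL gw rect)
open Pool.Agent.H122R3.SX (Adj c)
open Pool.Agent.H122R3.SY (nbr_symm ZL_map Seg)

/-- the lattice points `v` with `v / L ∈ Q` -/
def Lat (Q : Set (ℝ × ℝ)) (L : ℝ) : Set (ℤ × ℤ) := {v | ((v.1 : ℝ) / L, (v.2 : ℝ) / L) ∈ Q}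

theorem Lat_mono {Q Q' : Set (ℝ × ℝ)} (h : Q ⊆ Q') (L : ℝ) : Lat Q L ⊆ Lat Q' L :=
  fun _ hv => h hv

theorem Lat_box {Q : Set (ℝ × ℝ)} (hQ : IsCompact Q) : ∃ M : ℝ, 0 ≤ M ∧ ∀ L : ℝ, 0 < L →
    ∀ p ∈ Lat Q L, |(p.1 : ℝ)| ≤ M * L ∧ |(p.2 : ℝ)| ≤ M * L := by
  obtain ⟨M, hM⟩ := hQ.isBounded.exists_norm_le
  refine ⟨max M 0, le_max_right _ _, ?_⟩
  intro L hL p hp
  have h1 := hM _ hp
  rw [Prod.norm_def] at h1
  simp only [Real.norm_eq_abs] at h1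
  have h2 := (le_max_left _ _).trans h1
  have h3 := (le_max_right _ _).trans h1
  rw [abs_div, abs_of_pos hL, div_le_iff₀ hL] at h2 h3
  have h4 : M * L ≤ max M 0 * L := mul_le_mul_of_nonneg_right (le_max_left _ _) hL.le
  exact ⟨h2.trans h4, h3.trans h4⟩

theorem Bx_sub_Lat (z : ℝ × ℝ) (r : ℝ) {L : ℝ} (hL : 0 < L) :
    Bx z r L ⊆ Lat (Metric.closedBall z r) L := by
  rintro v ⟨h1, h2⟩
  have key : ∀ x y : ℝ, |x - L * y| ≤ r * L → |x / L - y| ≤ r := by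
    intro x y h
    have e : x / L - y = (x - L * y) / L := by field_simp
    rw [e, abs_div, abs_of_pos hL, div_le_iff₀ hL]
    exact h
  show ((v.1 : ℝ) / L, (v.2 : ℝ) / L) ∈ Metric.closedBall z r
  rw [Metric.mem_closedBall, Prod.dist_eq, Real.dist_eq, Real.dist_eq]
  exact max_le (key _ _ h1) (key _ _ h2)

/-- the relation -/
def Conn (W : Set (ℝ × ℝ)) (z w : ℝ × ℝ) : Prop :=
  ∃ Q : Set (ℝ × ℝ), IsCompact Q ∧ Q ⊆ W ∧ ∃ r K C : ℝ, 0 < r ∧ 0 ≤ K ∧ 2 ≤ C ∧ ∀ L : ℝ, C ≤ L →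
    ∀ p q : ℤ × ℤ, p ∈ Bx z r L → q ∈ Bx w r L →
      ee (-(K * Real.log L ^ 2)) ≤ ZL Adj xe (Lat Q L) p q

theorem conn_loc {W : Set (ℝ × ℝ)} (hW : IsOpen W) {z : ℝ × ℝ} (hz : z ∈ W) :
    ∀ᶠ w in 𝓝 z, Conn W z w ∧ Conn W w z := by
  obtain ⟨ρ, hρ, hρW⟩ := Metric.isOpen_iff.1 hW z hz
  obtain ⟨r, hr⟩ : ∃ r, r = ρ / 8 := ⟨_, rfl⟩
  have hr0 : 0 < r := by rw [hr]; positivity
  have hsub : Metric.closedBall z (4 * r) ⊆ W := by
    refine (Metric.closedBall_subset_ball ?_).trans hρW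
    rw [hr]; linarith
  obtain ⟨K, C, hK, hC, h⟩ := loc z hr0
  have hball : Metric.ball z (r / 2) ∈ 𝓝 z := Metric.ball_mem_nhds z (by positivity)
  filter_upwards [hball] with w hw
  have hw1 : |w.1 - z.1| ≤ r / 2 ∧ |w.2 - z.2| ≤ r / 2 := by
    rw [Metric.mem_ball, Prod.dist_eq, Real.dist_eq, Real.dist_eq, max_lt_iff] at hw
    exact ⟨hw.1.le, hw.2.le⟩
  have hz1 : ∀ L : ℝ, C ≤ L → ∀ p ∈ Bx z (r / 2) L, p ∈ Bx z r L := by
    intro L hL p hp
    exact Bx_mono z (by linarith) (by linarith) hp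
  have hwz : ∀ L : ℝ, C ≤ L → ∀ p ∈ Bx w (r / 2) L, p ∈ Bx z r L := by
    intro L hL p hp
    have hL0 : 0 ≤ L := by linarith
    have key : ∀ x a b : ℝ, |x - L * a| ≤ r / 2 * L → |a - b| ≤ r / 2 → |x - L * b| ≤ r * L := by
      intro x a b h1 h2
      have e : x - L * b = (x - L * a) + L * (a - b) := by ring
      have e2 : |L * (a - b)| ≤ L * (r / 2) := by
        rw [abs_mul, abs_of_nonneg hL0]
        exact mul_le_mul_of_nonneg_left h2 hL0
      rw [e]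
      exact (abs_add_le _ _).trans (by linarith)
    exact ⟨key _ _ _ hp.1 hw1.1, key _ _ _ hp.2 hw1.2⟩
  constructor
  · refine ⟨Metric.closedBall z (4 * r), isCompact_closedBall _ _, hsub, r / 2, K, C, by positivity,
      hK, hC, ?_⟩
    intro L hL p q hp hq
    exact (h L hL p q (hz1 L hL p hp) (hwz L hL q hq)).trans
      (ZL_mono (Bx_sub_Lat z (4 * r) (by linarith)) _ _)
  · refine ⟨Metric.closedBall z (4 * r), isCompact_closedBall _ _, hsub, r / 2, K, C, by positivity,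
      hK, hC, ?_⟩
    intro L hL p q hp hq
    exact (h L hL p q (hwz L hL p hp) (hz1 L hL q hq)).trans
      (ZL_mono (Bx_sub_Lat z (4 * r) (by linarith)) _ _)

/-- a lattice point close to `L z` -/
noncomputable def near (z : ℝ × ℝ) (L : ℝ) : ℤ × ℤ := (⌊L * z.1⌋, ⌊L * z.2⌋)

theorem near_mem (z : ℝ × ℝ) {r L : ℝ} (h : 1 ≤ r * L) : near z L ∈ Bx z r L := by
  have key : ∀ x : ℝ, |(⌊x⌋ : ℝ) - x| ≤ 1 := by
    intro x
    have h1 := Int.floor_le x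
    have h2 := Int.lt_floor_add_one x
    rw [abs_le]
    constructor <;> linarith
  exact ⟨(key _).trans h, (key _).trans h⟩

theorem conn_trans {W : Set (ℝ × ℝ)} {x y z : ℝ × ℝ} (h1 : Conn W x y) (h2 : Conn W y z) :
    Conn W x z := by
  obtain ⟨Q1, hQ1, hs1, r1, K1, C1, hr1, hK1, hC1, h1⟩ := h1
  obtain ⟨Q2, hQ2, hs2, r2, K2, C2, hr2, hK2, hC2, h2⟩ := h2
  obtain ⟨M, hM0, hM⟩ := Lat_box (hQ1.union hQ2)
  obtain ⟨K3, hK3, h3⟩ := gluingR M
  refine ⟨Q1 ∪ Q2, hQ1.union hQ2, Set.union_subset hs1 hs2, min r1 r2, K1 + K2 + K3,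
    max (max C1 C2) (1 / min r1 r2), lt_min hr1 hr2, by positivity,
    hC1.trans ((le_max_left _ _).trans (le_max_left _ _)), ?_⟩
  intro L hL p q hp hq
  have hLC1 : C1 ≤ L := (le_max_left _ _).trans ((le_max_left _ _).trans hL)
  have hLC2 : C2 ≤ L := (le_max_right _ _).trans ((le_max_left _ _).trans hL)
  have hL0 : 0 < L := by linarith
  have hr : 1 ≤ min r1 r2 * L := by
    have := (le_max_right (max C1 C2) (1 / min r1 r2)).trans hL
    rw [div_le_iff₀ (lt_min hr1 hr2)] at this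
    linarith
  have hv := near_mem y hr
  have m1 := (h1 L hLC1 p (near y L) (Bx_mono x (min_le_left _ _) hL0.le hp)
    (Bx_mono y (min_le_left _ _) hL0.le hv)).trans
    (ZL_mono (Lat_mono (Set.subset_union_left (s := Q1) (t := Q2)) L) _ _)
  have m2 := (h2 L hLC2 (near y L) q (Bx_mono y (min_le_right _ _) hL0.le hv)
    (Bx_mono z (min_le_right _ _) hL0.le hq)).trans
    (ZL_mono (Lat_mono (Set.subset_union_right (s := Q1) (t := Q2)) L) _ _)
  have m3 := glue_ge m1 m2 (h3 L (hC1.trans hLC1) _ (hM L hL0) _ _ _)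
  refine le_trans (ee_mono ?_) m3
  linarith

/-- **connectedness** -/
theorem conn {W : Set (ℝ × ℝ)} (hW : IsOpen W) (hc : IsPreconnected W) {a b : ℝ × ℝ} (ha : a ∈ W)
    (hb : b ∈ W) : Conn W a b :=
  hc.induction₂' (Conn W) (fun z hz => nhdsWithin_le_nhds (conn_loc hW hz))
    (fun _ _ _ _ _ _ h1 h2 => conn_trans h1 h2) ha hb

/-- **Critical walks between two points of a connected open set.** -/
theorem domain {W : Set (ℝ × ℝ)} (hW : IsOpen W) (hc : IsPreconnected W) {a b : ℝ × ℝ} (ha : a ∈ W)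
    (hb : b ∈ W) (M : ℝ) : ∃ Q : Set (ℝ × ℝ), IsCompact Q ∧ Q ⊆ W ∧ ∃ C : ℝ, 2 ≤ C ∧
      ∀ L : ℝ, C ≤ L → ∀ (T D : Set (ℤ × ℤ)) (p q : ℤ × ℤ), Lat Q L ⊆ T → T ⊆ D →
      (∀ v ∈ D, |(v.1 : ℝ)| ≤ M * L ∧ |(v.2 : ℝ)| ≤ M * L) →
      p ∈ Bx a (1 / C) L → q ∈ Bx b (1 / C) L →
      ee (-(C * Real.log L ^ 2)) ≤ ZL Adj xe D p q ∧
      ZL Adj xe D p q ≤ ee (C * Real.log L ^ 2) ∧
      ee (-(C * Real.log L ^ 2)) ≤ ZL Adj xe (D ∩ T) p q / ZL Adj xe D p q := by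
  obtain ⟨Q, hQ, hQW, r, K, C, hr, hK, hC, h⟩ := conn hW hc ha hb
  obtain ⟨K2, hK2, h2⟩ := upperR M
  refine ⟨Q, hQ, hQW, max (max C (1 / r)) (K + K2), hC.trans ((le_max_left _ _).trans
    (le_max_left _ _)), ?_⟩
  intro L hL T D p q hQT hTD hD hp hq
  obtain ⟨C', hC'⟩ : ∃ C', C' = max (max C (1 / r)) (K + K2) := ⟨_, rfl⟩
  rw [← hC'] at hL hp hq ⊢
  have h1C : C ≤ C' := by rw [hC']; exact (le_max_left _ _).trans (le_max_left _ _)
  have h2C : 1 / r ≤ C' := by rw [hC']; exact (le_max_right _ _).trans (le_max_left _ _)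
  have h3C : K + K2 ≤ C' := by rw [hC']; exact le_max_right _ _
  have hC'0 : 0 < C' := by linarith
  have hrC : 1 / C' ≤ r := by
    rw [div_le_iff₀ hC'0]
    rw [div_le_iff₀ hr] at h2C
    linarith
  have hL2 : 2 ≤ L := by linarith
  have hlog : 0 ≤ Real.log L ^ 2 := by positivity
  have e1 := h L (h1C.trans hL) p q (Bx_mono a hrC (by linarith) hp)
    (Bx_mono b hrC (by linarith) hq)
  have e2 : ee (-(K * Real.log L ^ 2)) ≤ ZL Adj xe (D ∩ T) p q := by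
    rw [Set.inter_eq_right.2 hTD]
    exact e1.trans (ZL_mono hQT _ _)
  have e3 : ee (-(K * Real.log L ^ 2)) ≤ ZL Adj xe D p q :=
    e2.trans (ZL_mono Set.inter_subset_left _ _)
  have e4 := h2 L hL2 D hD p q
  refine ⟨le_trans (ee_mono ?_) e3, e4.trans (ee_mono ?_), ?_⟩
  · nlinarith
  · nlinarith
  · rw [ENNReal.le_div_iff_mul_le]
    · calc ee (-(C' * Real.log L ^ 2)) * ZL Adj xe D p q
          ≤ ee (-(C' * Real.log L ^ 2)) * ee (K2 * Real.log L ^ 2) := mul_le_mul' le_rfl e4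
        _ = ee (-(C' * Real.log L ^ 2) + K2 * Real.log L ^ 2) := (ee_add _ _).symm
        _ ≤ ee (-(K * Real.log L ^ 2)) := ee_mono (by nlinarith)
        _ ≤ _ := e2
    · left
      intro h0
      rw [h0] at e3
      have : 0 < ee (-(K * Real.log L ^ 2)) := ENNReal.ofReal_pos.2 (Real.exp_pos _)
      exact absurd (lt_of_lt_of_le this e3) (lt_irrefl _)
    · left
      exact ne_top_of_le_ne_top ENNReal.ofReal_ne_top e4

end Pool.Agent.V11237.SXT
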