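import Pool.Agent.V11237.SXT.Tube

/-!
Critical self-avoiding walks on the square lattice in discretisations of connected open sets of the
plane.
-/

set_option autoImplicit false

namespace Pool.Agent.V11237.SXT

open scoped ENNReal Topology
open Pool.Agent.H122R3.HX (ZL TL gw rect)
open Pool.Agent.H122R3.SX (Adj c)
open Pool.Agent.H122R3.SY (nbr_symm ZL_map Seg)

/-- `exp x` in `[0, ∞]` -/
noncomputable def ee (x : ℝ) : ℝ≥0∞ := ENNReal.ofReal (Real.exp x)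

theorem ee_add (x y : ℝ) : ee (x + y) = ee x * ee y := by
  unfold ee
  rw [Real.exp_add, ENNReal.ofReal_mul (Real.exp_pos _).le]

theorem ee_mono {x y : ℝ} (h : x ≤ y) : ee x ≤ ee y :=
  ENNReal.ofReal_le_ofReal (Real.exp_le_exp.2 h)

theorem ee_zero : ee 0 = 1 := by unfold ee; simp

theorem ZL_mono {A D : Set (ℤ × ℤ)} (h : A ⊆ D) (a b : ℤ × ℤ) :
    ZL Adj xe A a b ≤ ZL Adj xe D a b :=
  ZL_map xe (φ := id) Function.injective_id (fun _ _ h => h) (fun _ hz => h hz) a b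

/-- the logarithm after a change of the scale -/
theorem log_scale {A L N : ℝ} (hA : 1 ≤ A) (hL : 2 ≤ L) (hN1 : 1 ≤ N) (hN : N ≤ A * L) :
    Real.log N ^ 2 ≤ (Real.log A / Real.log 2 + 1) ^ 2 * Real.log L ^ 2 := by
  have h2 : 0 < Real.log 2 := Real.log_pos (by norm_num)
  have hl : Real.log 2 ≤ Real.log L := Real.log_le_log (by norm_num) hL
  have hlA : 0 ≤ Real.log A := Real.log_nonneg hA
  have h3 : Real.log N ≤ (Real.log A / Real.log 2 + 1) * Real.log L := by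
    calc Real.log N ≤ Real.log (A * L) := Real.log_le_log (by linarith) hN
      _ = Real.log A + Real.log L := Real.log_mul (by linarith) (by linarith)
      _ ≤ Real.log A / Real.log 2 * Real.log L + Real.log L := by
          have : Real.log A ≤ Real.log A / Real.log 2 * Real.log L := by
            rw [div_mul_eq_mul_div, le_div_iff₀ h2]
            gcongr
          linarith
      _ = _ := by ring
  rw [← mul_pow]
  exact pow_le_pow_left₀ (Real.log_nonneg hN1) h3 2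

theorem ceil_facts {L : ℝ} (hL : 2 ≤ L) : 2 ≤ ⌈L⌉₊ ∧ L ≤ ⌈L⌉₊ ∧ (⌈L⌉₊ : ℝ) ≤ 2 * L := by
  have h1 := Nat.le_ceil L
  have h2 := Nat.ceil_lt_add_one (show 0 ≤ L by linarith)
  refine ⟨?_, h1, by linarith⟩
  have : (2 : ℝ) ≤ (⌈L⌉₊ : ℝ) := hL.trans h1
  exact_mod_cast this

theorem box_mono {M L N : ℝ} (hLN : L ≤ N) {D : Set (ℤ × ℤ)}
    (hD : ∀ p ∈ D, |(p.1 : ℝ)| ≤ M * L ∧ |(p.2 : ℝ)| ≤ M * L) (hL : 0 ≤ L) :
    ∀ p ∈ D, |(p.1 : ℝ)| ≤ |M| * N ∧ |(p.2 : ℝ)| ≤ |M| * N := by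
  intro p hp
  have h : M * L ≤ |M| * N := by
    calc M * L ≤ |M| * L := mul_le_mul_of_nonneg_right (le_abs_self M) hL
      _ ≤ |M| * N := mul_le_mul_of_nonneg_left hLN (abs_nonneg M)
  exact ⟨(hD p hp).1.trans h, (hD p hp).2.trans h⟩

/-- gluing at real scales -/
theorem gluingR (M : ℝ) : ∃ K : ℝ, 0 ≤ K ∧ ∀ L : ℝ, 2 ≤ L → ∀ D : Set (ℤ × ℤ),
    (∀ p ∈ D, |(p.1 : ℝ)| ≤ M * L ∧ |(p.2 : ℝ)| ≤ M * L) → ∀ a v b : ℤ × ℤ,
      ZL Adj xe D a v * ZL Adj xe D v b ≤ ee (K * Real.log L ^ 2) * ZL Adj xe D a b := by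
  obtain ⟨K, h⟩ := gluing |M|
  refine ⟨|K| * (Real.log 2 / Real.log 2 + 1) ^ 2, by positivity, ?_⟩
  intro L hL D hD a v b
  obtain ⟨h1, h2, h3⟩ := ceil_facts hL
  refine (h ⌈L⌉₊ h1 D (box_mono h2 hD (by linarith)) a v b).trans ?_
  refine mul_le_mul' (ee_mono ?_) le_rfl
  have h4 := log_scale (A := 2) (by norm_num) hL (by linarith) h3
  calc K * Real.log ⌈L⌉₊ ^ 2 ≤ |K| * Real.log ⌈L⌉₊ ^ 2 := by gcongr; exact le_abs_self K
    _ ≤ |K| * ((Real.log 2 / Real.log 2 + 1) ^ 2 * Real.log L ^ 2) := by gcongr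
    _ = _ := by ring

/-- upper bound at real scales -/
theorem upperR (M : ℝ) : ∃ K : ℝ, 0 ≤ K ∧ ∀ L : ℝ, 2 ≤ L → ∀ D : Set (ℤ × ℤ),
    (∀ p ∈ D, |(p.1 : ℝ)| ≤ M * L ∧ |(p.2 : ℝ)| ≤ M * L) → ∀ a b : ℤ × ℤ,
      ZL Adj xe D a b ≤ ee (K * Real.log L ^ 2) := by
  obtain ⟨K, hK, h⟩ := upper |M|
  refine ⟨K * (Real.log 2 / Real.log 2 + 1) ^ 2, by positivity, ?_⟩
  intro L hL D hD a b
  obtain ⟨h1, h2, h3⟩ := ceil_facts hL
  refine (h ⌈L⌉₊ h1 D (box_mono h2 hD (by linarith)) a b).trans (ee_mono ?_)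
  have h4 := log_scale (A := 2) (by norm_num) hL (by linarith) h3
  calc K * Real.log ⌈L⌉₊ ^ 2 ≤ K * ((Real.log 2 / Real.log 2 + 1) ^ 2 * Real.log L ^ 2) := by gcongr
    _ = _ := by ring

/-- lower bound for rectangles at real scales -/
theorem rectR {ε R : ℝ} (hε : 0 < ε) (hR : 0 ≤ R) : ∃ K C : ℝ, 0 ≤ K ∧ 2 ≤ C ∧
    ∀ L : ℝ, C ≤ L → ∀ ℓ : ℕ, (ℓ : ℝ) ≤ R * L →
      ee (-(K * Real.log L ^ 2)) ≤ ZL Adj xe (rect (ε * L) (2 * ℓ)) (0, 0) (0, 2 * ℓ) := by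
  have hR2 : 0 < R + 2 := by linarith
  obtain ⟨K, hK, h⟩ := rect_lower (ε := ε / (R + 2)) (by positivity)
  refine ⟨K * (Real.log (R + 2) / Real.log 2 + 1) ^ 2, max 2 (2 / ε), by positivity,
    le_max_left _ _, ?_⟩
  intro L hL ℓ hℓ
  have hL2 : 2 ≤ L := (le_max_left _ _).trans hL
  have hLε : 2 ≤ ε * L := by
    have := (le_max_right 2 (2 / ε)).trans hL
    rw [div_le_iff₀ hε] at this
    linarith
  obtain ⟨N, hN⟩ : ∃ N : ℕ, N = ⌈(R + 1) * L⌉₊ := ⟨_, rfl⟩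
  have hN1 : (R + 1) * L ≤ N := by rw [hN]; exact Nat.le_ceil _
  have hN2 : (N : ℝ) ≤ (R + 2) * L := by
    have := Nat.ceil_lt_add_one (show 0 ≤ (R + 1) * L by positivity)
    rw [hN]
    nlinarith
  have hN3 : 2 ≤ N := by
    have : (2 : ℝ) ≤ N := by nlinarith
    exact_mod_cast this
  have hN4 : (1 : ℝ) ≤ ε / (R + 2) * N := by
    have h5 : ε / (R + 2) * ((R + 1) * L) ≤ ε / (R + 2) * N := by gcongr
    refine le_trans ?_ h5
    rw [div_mul_eq_mul_div, le_div_iff₀ hR2]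
    nlinarith
  have hN5 : ε / (R + 2) * N ≤ ε * L := by
    rw [div_mul_eq_mul_div, div_le_iff₀ hR2]
    nlinarith
  have hℓN : ℓ ≤ N := by
    have : (ℓ : ℝ) ≤ N := by nlinarith
    exact_mod_cast this
  have h6 := h N hN3 hN4 ℓ hℓN
  have h7 : rect (ε / (R + 2) * N) (2 * ℓ) ⊆ rect (ε * L) (2 * ℓ) :=
    fun v hv => ⟨hv.1.trans hN5, hv.2⟩
  refine le_trans (ee_mono ?_) (h6.trans (ZL_mono h7 _ _))
  have h8 := log_scale (A := R + 2) (by linarith) hL2 (by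
    have : (2 : ℝ) ≤ N := by exact_mod_cast hN3
    linarith) hN2
  have h9 : K * Real.log N ^ 2 ≤ K * ((Real.log (R + 2) / Real.log 2 + 1) ^ 2 * Real.log L ^ 2) := by
    gcongr
  linarith

/-- gluing of two lower bounds -/
theorem glue_ge {D : Set (ℤ × ℤ)} {a v b : ℤ × ℤ} {A B G : ℝ} (h1 : ee (-A) ≤ ZL Adj xe D a v)
    (h2 : ee (-B) ≤ ZL Adj xe D v b)
    (h3 : ZL Adj xe D a v * ZL Adj xe D v b ≤ ee G * ZL Adj xe D a b) :
    ee (-(A + B + G)) ≤ ZL Adj xe D a b := by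
  have e : -(A + B + G) = -G + (-A + -B) := by ring
  rw [e, ee_add, ee_add]
  calc ee (-G) * (ee (-A) * ee (-B)) ≤ ee (-G) * (ee G * ZL Adj xe D a b) :=
        mul_le_mul' le_rfl ((mul_le_mul' h1 h2).trans h3)
    _ = ZL Adj xe D a b := by
        rw [← mul_assoc, ← ee_add, neg_add_cancel, ee_zero, one_mul]

/-- the lattice points at distance at most `r L` of `L z` -/
def Bx (z : ℝ × ℝ) (r L : ℝ) : Set (ℤ × ℤ) :=
  {v | |(v.1 : ℝ) - L * z.1| ≤ r * L ∧ |(v.2 : ℝ) - L * z.2| ≤ r * L}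

theorem Bx_mono (z : ℝ × ℝ) {r r' L : ℝ} (h : r ≤ r') (hL : 0 ≤ L) : Bx z r L ⊆ Bx z r' L :=
  fun _ hv => ⟨hv.1.trans (mul_le_mul_of_nonneg_right h hL),
    hv.2.trans (mul_le_mul_of_nonneg_right h hL)⟩

theorem Bx_box (z : ℝ × ℝ) (r L : ℝ) (hL : 0 ≤ L) : ∀ p ∈ Bx z r L,
    |(p.1 : ℝ)| ≤ (|z.1| + |z.2| + r) * L ∧ |(p.2 : ℝ)| ≤ (|z.1| + |z.2| + r) * L := by
  rintro p ⟨h1, h2⟩
  have e1 : |L * z.1| = L * |z.1| := by rw [abs_mul, abs_of_nonneg hL]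
  have e2 : |L * z.2| = L * |z.2| := by rw [abs_mul, abs_of_nonneg hL]
  have h3 := abs_sub_abs_le_abs_sub (p.1 : ℝ) (L * z.1)
  have h4 := abs_sub_abs_le_abs_sub (p.2 : ℝ) (L * z.2)
  have h5 : 0 ≤ L * |z.1| := by positivity
  have h6 : 0 ≤ L * |z.2| := by positivity
  constructor
  · nlinarith
  · nlinarith

/-- one step -/
theorem ZL_step {D : Set (ℤ × ℤ)} {a b : ℤ × ℤ} (ha : a ∈ D) (hb : b ∈ D) (h : Adj a b) :
    ee (-Real.log mu) ≤ ZL Adj xe D a b := by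
  have hmu : 0 < mu := H981.mu_pos
  have hne : a ≠ b := by
    rintro rfl
    unfold Adj at h
    simp at h
  have hmem : [a, b] ∈ TL Adj D a b := by
    refine ⟨rfl, rfl, ?_, ?_, ?_⟩
    · simp [hne]
    · simpa using h
    · intro p hp
      simp only [List.mem_cons, List.not_mem_nil, or_false] at hp
      rcases hp with rfl | rfl
      · exact ha
      · exact hb
  have h1 : xe ^ (([a, b] : List (ℤ × ℤ)).length - 1) ≤ ZL Adj xe D a b :=
    ENNReal.le_tsum (f := fun l : TL Adj D a b => xe ^ (l.1.length - 1)) ⟨[a, b], hmem⟩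
  refine le_trans (le_of_eq ?_) h1
  have e : (([a, b] : List (ℤ × ℤ)).length - 1) = 1 := rfl
  rw [e, pow_one]
  unfold ee xe
  rw [Real.exp_neg, Real.exp_log hmu, one_div]

/-- horizontal moves -/
theorem hmove {D : Set (ℤ × ℤ)} (p : ℤ × ℤ) {s : ℤ} (hs : s = 1 ∨ s = -1) (ℓ : ℕ) (t : ℝ)
    (h : ∀ a b : ℤ, |(a : ℝ)| ≤ t → 0 ≤ b → b ≤ 2 * ℓ → (p.1 + s * b, p.2 + a) ∈ D) :
    ZL Adj xe (rect t (2 * ℓ)) (0, 0) (0, 2 * ℓ) ≤ ZL Adj xe D p (p.1 + s * (2 * ℓ), p.2) := by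
  have h1 := ZL_map xe (φ := fun z : ℤ × ℤ => (p.1 + s * z.2, p.2 + z.1)) (A := rect t (2 * ℓ))
    (D := D) ?_ ?_ (fun z hz => h z.1 z.2 hz.1 hz.2.1 hz.2.2) (0, 0) (0, 2 * ℓ)
  · simpa using h1
  · intro z z' hz
    simp only [Prod.mk.injEq] at hz
    rcases hs with rfl | rfl
    · exact Prod.ext (by omega) (by omega)
    · exact Prod.ext (by omega) (by omega)
  · intro z z' hz
    unfold Adj at *
    have e1 : p.1 + s * z.2 - (p.1 + s * z'.2) = s * (z.2 - z'.2) := by ring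
    have e2 : p.2 + z.1 - (p.2 + z'.1) = z.1 - z'.1 := by ring
    simp only [e1, e2]
    rcases hs with rfl | rfl
    · rw [one_mul, add_comm]
      exact hz
    · rw [neg_one_mul, abs_neg, add_comm]
      exact hz

/-- horizontal lines -/
theorem hline (z : ℝ × ℝ) {r : ℝ} (hr : 0 < r) : ∃ K C : ℝ, 0 ≤ K ∧ 2 ≤ C ∧
    ∀ L : ℝ, C ≤ L → ∀ x1 x2 y : ℤ, (x1, y) ∈ Bx z r L → (x2, y) ∈ Bx z r L →
      ee (-(K * Real.log L ^ 2)) ≤ ZL Adj xe (Bx z (4 * r) L) (x1, y) (x2, y) := by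
  obtain ⟨K1, C1, hK1, hC1, h1⟩ := rectR (ε := r) (R := r) hr hr.le
  obtain ⟨K2, hK2, h2⟩ := gluingR (|z.1| + |z.2| + 4 * r)
  have hlog2 : 0 < Real.log 2 := Real.log_pos (by norm_num)
  have hlmu : 0 ≤ Real.log mu := Real.log_nonneg H981.one_le_mu
  refine ⟨K1 + Real.log mu / Real.log 2 ^ 2 + K2, max C1 (1 / r), by positivity,
    hC1.trans (le_max_left _ _), ?_⟩
  intro L hL x1 x2 y hx1 hx2
  have hLC : C1 ≤ L := (le_max_left _ _).trans hL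
  have hL2 : 2 ≤ L := hC1.trans hLC
  have hL0 : 0 ≤ L := by linarith
  have hLr : 1 ≤ r * L := by
    have := (le_max_right C1 (1 / r)).trans hL
    rw [div_le_iff₀ hr] at this
    linarith
  have hlL : Real.log 2 ≤ Real.log L := Real.log_le_log (by norm_num) hL2
  have hll : Real.log 2 ^ 2 ≤ Real.log L ^ 2 := pow_le_pow_left₀ hlog2.le hlL 2
  have hll0 : 0 ≤ Real.log L ^ 2 := by positivity
  -- the sign and the even part
  obtain ⟨s, ℓ, e, hs, he, hx⟩ : ∃ (s : ℤ) (ℓ e : ℕ), (s = 1 ∨ s = -1) ∧ (e = 0 ∨ e = 1) ∧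
      x2 = x1 + s * (2 * ℓ) + s * e := by
    rcases le_total x1 x2 with h | h
    · refine ⟨1, (x2 - x1).toNat / 2, (x2 - x1).toNat % 2, Or.inl rfl, by omega, by omega⟩
    · refine ⟨-1, (x1 - x2).toNat / 2, (x1 - x2).toNat % 2, Or.inr rfl, by omega, by omega⟩
  obtain ⟨a1, a2⟩ := hx1
  obtain ⟨b1, b2⟩ := hx2
  simp only at a1 a2 b1 b2
  have hd : |(x2 : ℝ) - x1| ≤ 2 * (r * L) := by
    have e1 : (x2 : ℝ) - x1 = ((x2 : ℝ) - L * z.1) - ((x1 : ℝ) - L * z.1) := by ring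
    rw [e1]
    exact (abs_sub _ _).trans (by linarith)
  have hℓ : 2 * (ℓ : ℝ) ≤ 2 * (r * L) := by
    refine le_trans ?_ hd
    have he0 : (0 : ℝ) ≤ e := Nat.cast_nonneg _
    have hℓ0 : (0 : ℝ) ≤ ℓ := Nat.cast_nonneg _
    rw [hx]
    push_cast
    rcases hs with rfl | rfl
    · refine le_trans ?_ (le_abs_self _)
      push_cast
      linarith
    · refine le_trans ?_ (neg_le_abs _)
      push_cast
      linarith
  have m1 : ee (-(K1 * Real.log L ^ 2)) ≤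
      ZL Adj xe (Bx z (4 * r) L) (x1, y) (x1 + s * (2 * ℓ), y) := by
    refine (h1 L hLC ℓ (by linarith)).trans (hmove (x1, y) hs ℓ (r * L) ?_)
    intro a b ha hb0 hb
    have hbr : (0 : ℝ) ≤ b := by exact_mod_cast hb0
    have hbr2 : (b : ℝ) ≤ 2 * ℓ := by exact_mod_cast hb
    have hsb : |(s : ℝ) * b| ≤ 2 * (r * L) := by
      rcases hs with rfl | rfl
      · rw [Int.cast_one, one_mul, abs_of_nonneg hbr]; linarith
      · rw [Int.cast_neg, Int.cast_one, neg_one_mul, abs_neg, abs_of_nonneg hbr]; linarith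
    constructor
    · simp only
      push_cast
      have e1 : (x1 : ℝ) + s * b - L * z.1 = ((x1 : ℝ) - L * z.1) + s * b := by ring
      rw [e1]
      exact (abs_add_le _ _).trans (by linarith)
    · simp only
      push_cast
      have e1 : (y : ℝ) + a - L * z.2 = ((y : ℝ) - L * z.2) + a := by ring
      rw [e1]
      exact (abs_add_le _ _).trans (by linarith)
  rcases he with he | he
  · subst he
    have e1 : x2 = x1 + s * (2 * ℓ) := by rw [hx]; push_cast; ring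
    rw [e1]
    refine le_trans (ee_mono ?_) m1
    have h0 : 0 ≤ (Real.log mu / Real.log 2 ^ 2 + K2) * Real.log L ^ 2 := by positivity
    linarith
  · subst he
    have m2 : ee (-Real.log mu) ≤
        ZL Adj xe (Bx z (4 * r) L) (x1 + s * (2 * ℓ), y) (x2, y) := by
      apply ZL_step
      · constructor
        · simp only
          push_cast
          have e1 : (x1 : ℝ) + s * (2 * ℓ) - L * z.1 = ((x2 : ℝ) - L * z.1) - s := by
            rw [hx]; push_cast; ring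
          rw [e1]
          have hs1 : |(s : ℝ)| = 1 := by rcases hs with rfl | rfl <;> simp
          exact (abs_sub _ _).trans (by linarith)
        · exact a2.trans (by nlinarith)
      · exact ⟨b1.trans (by nlinarith), b2.trans (by nlinarith)⟩
      · unfold Adj
        simp only [sub_self, abs_zero, add_zero]
        have e1 : x1 + s * (2 * ℓ) - x2 = -s := by rw [hx]; push_cast; ring
        rw [e1, abs_neg]
        rcases hs with rfl | rfl <;> simp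
    have m3 := glue_ge m1 m2 (h2 L hL2 (Bx z (4 * r) L) (Bx_box z (4 * r) L hL0) _ _ _)
    refine le_trans (ee_mono ?_) m3
    have h5 : Real.log mu ≤ Real.log mu / Real.log 2 ^ 2 * Real.log L ^ 2 := by
      rw [div_mul_eq_mul_div, le_div_iff₀ (by positivity)]
      gcongr
    linarith

/-- vertical lines -/
theorem vline (z : ℝ × ℝ) {r : ℝ} (hr : 0 < r) : ∃ K C : ℝ, 0 ≤ K ∧ 2 ≤ C ∧
    ∀ L : ℝ, C ≤ L → ∀ x y1 y2 : ℤ, (x, y1) ∈ Bx z r L → (x, y2) ∈ Bx z r L →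
      ee (-(K * Real.log L ^ 2)) ≤ ZL Adj xe (Bx z (4 * r) L) (x, y1) (x, y2) := by
  obtain ⟨K, C, hK, hC, h⟩ := hline (z.2, z.1) hr
  refine ⟨K, C, hK, hC, ?_⟩
  intro L hL x y1 y2 h1 h2
  refine (h L hL y1 y2 x ⟨h1.2, h1.1⟩ ⟨h2.2, h2.1⟩).trans ?_
  have h3 := ZL_map xe (φ := fun v : ℤ × ℤ => (v.2, v.1)) (A := Bx (z.2, z.1) (4 * r) L)
    (D := Bx z (4 * r) L) ?_ ?_ (fun v hv => ⟨hv.2, hv.1⟩) (y1, x) (y2, x)
  · exact h3
  · intro v v' hv
    simp only [Prod.mk.injEq] at hv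
    exact Prod.ext hv.2 hv.1
  · intro v v' hv
    unfold Adj at *
    rw [add_comm]
    exact hv

/-- **the local bound** -/
theorem loc (z : ℝ × ℝ) {r : ℝ} (hr : 0 < r) : ∃ K C : ℝ, 0 ≤ K ∧ 2 ≤ C ∧
    ∀ L : ℝ, C ≤ L → ∀ p q : ℤ × ℤ, p ∈ Bx z r L → q ∈ Bx z r L →
      ee (-(K * Real.log L ^ 2)) ≤ ZL Adj xe (Bx z (4 * r) L) p q := by
  obtain ⟨K1, C1, hK1, hC1, h1⟩ := hline z hr
  obtain ⟨K2, C2, hK2, hC2, h2⟩ := vline z hr
  obtain ⟨K3, hK3, h3⟩ := gluingR (|z.1| + |z.2| + 4 * r)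
  refine ⟨K1 + K2 + K3, max C1 C2, by positivity, hC1.trans (le_max_left _ _), ?_⟩
  rintro L hL ⟨x1, y1⟩ ⟨x2, y2⟩ hp hq
  have hL1 : C1 ≤ L := (le_max_left _ _).trans hL
  have hL2 : C2 ≤ L := (le_max_right _ _).trans hL
  have hm : (x2, y1) ∈ Bx z r L := ⟨hq.1, hp.2⟩
  have m1 := h1 L hL1 x1 x2 y1 hp hm
  have m2 := h2 L hL2 x2 y1 y2 hm hq
  have m3 := glue_ge m1 m2 (h3 L (hC1.trans hL1) (Bx z (4 * r) L)
    (Bx_box z (4 * r) L (by linarith)) _ _ _)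
  refine le_trans (ee_mono ?_) m3
  linarith

end Pool.Agent.V11237.SXT
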