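import Pool.Agent.H122R3.SX.Tube

/-!
Weights of pieces on the square lattice, with `exp (K (log n)^2)` (after `Pool.Agent.H122R3.SX.Est`).
-/

set_option autoImplicit false

namespace Pool.Agent.V11237.SXT

open Finset Real
open Pool.Agent.H122R3.SX (W walks c fs mem_fs g G fw c_zero_le c_one_le ub ubx ub_le c_le ubx_sq_le Saw)

/-- bounds for the number of self-avoiding words -/
structure Bd (μ K : ℝ) : Prop where
  one : 1 ≤ μ
  Kn : 0 ≤ K
  low : ∀ n : ℕ, 2 ≤ n → μ ^ n ≤ c n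
  up : ∀ n : ℕ, 2 ≤ n → (c n : ℝ) ≤ μ ^ n * exp (K * log n ^ 2)

theorem Bd.c_le4 {μ K : ℝ} (h : Bd μ K) {a n : ℕ} (ha : a ≤ n) :
    (c a : ℝ) ≤ 4 * μ ^ a * exp (K * log n ^ 2) := by
  have hE : 1 ≤ exp (K * log n ^ 2) := by
    apply one_le_exp
    have : 0 ≤ log n := log_natCast_nonneg n
    have := h.Kn
    positivity
  have hμ := h.one
  rcases Nat.lt_or_ge a 2 with h2 | h2
  · have h3 : (c a : ℝ) ≤ 4 := by
      have : c a ≤ 4 := by
        interval_cases a
        · exact c_zero_le.trans (by norm_num)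
        · exact c_one_le
      exact_mod_cast this
    have h4 : (1 : ℝ) ≤ μ ^ a := one_le_pow₀ hμ
    nlinarith [mul_nonneg (sub_nonneg.2 h4) (sub_nonneg.2 hE)]
  · have h3 := h.up a h2
    have h4 : exp (K * log a ^ 2) ≤ exp (K * log n ^ 2) := by
      apply exp_le_exp.2
      apply mul_le_mul_of_nonneg_left _ h.Kn
      apply pow_le_pow_left₀ (log_natCast_nonneg a)
      exact log_le_log (by exact_mod_cast (by omega : 0 < a)) (by exact_mod_cast ha)
    have h5 : 0 < μ ^ a := pow_pos (by linarith) _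
    calc (c a : ℝ) ≤ μ ^ a * exp (K * log a ^ 2) := h3
      _ ≤ μ ^ a * exp (K * log n ^ 2) := by gcongr
      _ ≤ _ := by nlinarith [mul_pos h5 (exp_pos (K * log n ^ 2))]

/-- constant -/
noncomputable def K2 (K : ℝ) : ℝ := 50 * K + 20 / log 2

theorem K2_nonneg {K : ℝ} (hK : 0 ≤ K) : 0 ≤ K2 K := by
  unfold K2
  have : 0 < log 2 := log_pos (by norm_num)
  positivity

theorem exists_ubx {μ K : ℝ} (h : Bd μ K) {S : ℕ} (hS : 1 ≤ S) :
    ∃ (m : ℕ) (x : ℤ), m ≤ 8 * S ^ 2 ∧ |x| ≤ S ∧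
      exp (-(K2 K * log (S + 1) ^ 2)) ≤ (ubx m x S : ℝ) / μ ^ m := by
  by_contra hcon
  push Not at hcon
  have hμ0 : 0 < μ := by linarith [h.one]
  obtain ⟨n, hn⟩ : ∃ n, n = 8 * S ^ 2 := ⟨_, rfl⟩
  rw [← hn] at hcon
  have hn2 : 2 ≤ n := by nlinarith
  obtain ⟨E, hE⟩ : ∃ E, E = exp (K * log n ^ 2) := ⟨_, rfl⟩
  have hE0 : 0 < E := by rw [hE]; exact exp_pos _
  obtain ⟨θ, hθ⟩ : ∃ θ, θ = exp (-(K2 K * log (S + 1) ^ 2)) := ⟨_, rfl⟩
  have hθ0 : 0 < θ := by rw [hθ]; exact exp_pos _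
  rw [← hθ] at hcon
  have hSr : (1 : ℝ) ≤ S := by exact_mod_cast hS
  have hlog2 : 0 < log 2 := log_pos (by norm_num)
  obtain ⟨l, hl⟩ : ∃ l, l = log ((S : ℝ) + 1) := ⟨_, rfl⟩
  have hl2 : log 2 ≤ l := by
    rw [hl]
    exact log_le_log (by norm_num) (by linarith)
  have hl0 : 0 < l := by linarith
  have hB : 160 * ((n : ℝ) + 1) ^ 2 * (2 * S + 1) * E ^ 2 * θ ≤ 1 := by
    have a1 : (160 : ℝ) ≤ ((S : ℝ) + 1) ^ 8 := by
      calc (160 : ℝ) ≤ 2 ^ 8 := by norm_num
        _ ≤ _ := pow_le_pow_left₀ (by norm_num) (by linarith) 8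
    have a3 : (8 : ℝ) ≤ ((S : ℝ) + 1) ^ 3 := by
      calc (8 : ℝ) = 2 ^ 3 := by norm_num
        _ ≤ _ := pow_le_pow_left₀ (by norm_num) (by linarith) 3
    have a2 : ((n : ℝ) + 1) ≤ ((S : ℝ) + 1) ^ 5 := by
      have : (n : ℝ) = 8 * (S : ℝ) ^ 2 := by rw [hn]; push_cast; ring
      rw [this]
      calc 8 * (S : ℝ) ^ 2 + 1 ≤ 8 * ((S : ℝ) + 1) ^ 2 := by nlinarith
        _ ≤ ((S : ℝ) + 1) ^ 3 * ((S : ℝ) + 1) ^ 2 := by gcongr
        _ = _ := by ring
    have a4 : (2 * (S : ℝ) + 1) ≤ ((S : ℝ) + 1) ^ 2 := by nlinarith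
    have b1 : 160 * ((n : ℝ) + 1) ^ 2 * (2 * S + 1) ≤ ((S : ℝ) + 1) ^ 20 := by
      calc 160 * ((n : ℝ) + 1) ^ 2 * (2 * S + 1) ≤
          ((S : ℝ) + 1) ^ 8 * (((S : ℝ) + 1) ^ 5) ^ 2 * ((S : ℝ) + 1) ^ 2 := by gcongr
        _ = _ := by ring
    have b2 : ((S : ℝ) + 1) ^ 20 = exp (20 * l) := by
      rw [hl, show (20 : ℝ) * log ((S : ℝ) + 1) = ((20 : ℕ) : ℝ) * log ((S : ℝ) + 1) by norm_num,
        exp_nat_mul, exp_log (by linarith)]
    have b3 : log n ≤ 5 * l := by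
      have : log ((n : ℝ)) ≤ log (((S : ℝ) + 1) ^ 5) := by
        apply log_le_log
        · exact_mod_cast (by omega : 0 < n)
        · linarith
      rw [log_pow] at this
      rw [hl]
      exact_mod_cast this
    have b4 : E ^ 2 ≤ exp (50 * K * l ^ 2) := by
      rw [hE, ← exp_nat_mul]
      apply exp_le_exp.2
      have : log (n : ℝ) ^ 2 ≤ (5 * l) ^ 2 :=
        pow_le_pow_left₀ (log_natCast_nonneg n) b3 2
      have hK := h.Kn
      push_cast
      nlinarith [mul_le_mul_of_nonneg_left this hK]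
    have b5 : 20 * l ≤ 20 / log 2 * l ^ 2 := by
      rw [div_mul_eq_mul_div, le_div_iff₀ (by positivity)]
      have h6 : 20 * l * log 2 ≤ 20 * l * l := by gcongr
      calc 20 * l * log 2 ≤ 20 * l * l := h6
        _ = _ := by ring
    calc 160 * ((n : ℝ) + 1) ^ 2 * (2 * S + 1) * E ^ 2 * θ
        ≤ exp (20 * l) * exp (50 * K * l ^ 2) * θ := by
          rw [b2] at b1
          gcongr
      _ = exp (20 * l + 50 * K * l ^ 2 + -(K2 K * l ^ 2)) := by
          rw [hθ, ← hl, ← exp_add, ← exp_add]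
      _ ≤ exp 0 := by
          apply exp_le_exp.2
          unfold K2
          linarith
      _ = 1 := exp_zero
  have h1 := c_le hS (le_of_eq hn.symm)
  have h2 : (c n : ℝ) ≤ ∑ m ∈ range (n + 1), ∑ a ∈ range (n - m + 1),
      80 * E ^ 2 * ((2 * S + 1) * θ) * μ ^ n := by
    calc (c n : ℝ) ≤ ((∑ m ∈ range (n + 1), ∑ a ∈ range (n - m + 1),
          5 * (c a * ub m S * c (n - m - a)) : ℕ) : ℝ) := by exact_mod_cast h1
      _ = ∑ m ∈ range (n + 1), ∑ a ∈ range (n - m + 1),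
          5 * ((c a : ℝ) * ub m S * c (n - m - a)) := by push_cast; rfl
      _ ≤ _ := by
          refine sum_le_sum fun m hm => sum_le_sum fun a ha => ?_
          rw [mem_range] at hm ha
          have e1 := h.c_le4 (a := a) (n := n) (by omega)
          have e2 := h.c_le4 (a := n - m - a) (n := n) (by omega)
          rw [← hE] at e1 e2
          have e3 : (ub m S : ℝ) ≤ (2 * S + 1) * θ * μ ^ m := by
            calc (ub m S : ℝ) ≤ ((∑ x ∈ Icc (-(S : ℤ)) S, ubx m x S : ℕ) : ℝ) := by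
                  exact_mod_cast ub_le m S
              _ = ∑ x ∈ Icc (-(S : ℤ)) S, (ubx m x S : ℝ) := by push_cast; rfl
              _ ≤ ∑ x ∈ Icc (-(S : ℤ)) S, θ * μ ^ m := by
                  refine sum_le_sum fun x hx => ?_
                  rw [mem_Icc] at hx
                  have := hcon m x (by omega) (by rw [abs_le]; exact hx)
                  rw [div_lt_iff₀ (pow_pos hμ0 _)] at this
                  exact this.le
              _ = _ := by
                  rw [sum_const, Int.card_Icc, nsmul_eq_mul]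
                  have : (((S : ℤ) + 1 - -(S : ℤ)).toNat) = 2 * S + 1 := by omega
                  rw [this]
                  push_cast
                  ring
          have e4 : μ ^ a * μ ^ m * μ ^ (n - m - a) = μ ^ n := by
            rw [← pow_add, ← pow_add]
            congr 1
            omega
          calc 5 * ((c a : ℝ) * ub m S * c (n - m - a))
              ≤ 5 * ((4 * μ ^ a * E) * ((2 * S + 1) * θ * μ ^ m) *
                (4 * μ ^ (n - m - a) * E)) := by gcongr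
            _ = 80 * E ^ 2 * ((2 * S + 1) * θ) * (μ ^ a * μ ^ m * μ ^ (n - m - a)) := by ring
            _ = _ := by rw [e4]
  have h3 : (c n : ℝ) ≤ ((n : ℝ) + 1) ^ 2 * (80 * E ^ 2 * ((2 * S + 1) * θ) * μ ^ n) := by
    refine h2.trans ?_
    have hnn : 0 ≤ 80 * E ^ 2 * ((2 * S + 1) * θ) * μ ^ n := by positivity
    calc ∑ m ∈ range (n + 1), ∑ a ∈ range (n - m + 1), 80 * E ^ 2 * ((2 * S + 1) * θ) * μ ^ n
        ≤ ∑ m ∈ range (n + 1), ((n : ℝ) + 1) * (80 * E ^ 2 * ((2 * S + 1) * θ) * μ ^ n) := by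
          refine sum_le_sum fun m _ => ?_
          rw [sum_const, card_range, nsmul_eq_mul]
          apply mul_le_mul_of_nonneg_right _ hnn
          exact_mod_cast (by omega : n - m + 1 ≤ n + 1)
      _ = _ := by
          rw [sum_const, card_range, nsmul_eq_mul]
          push_cast
          ring
  have h4 := h.low n hn2
  have h5 : 0 < μ ^ n := pow_pos hμ0 _
  have h6 : μ ^ n ≤ (1 / 2) * μ ^ n := by
    calc μ ^ n ≤ c n := h4
      _ ≤ _ := h3
      _ = (160 * ((n : ℝ) + 1) ^ 2 * (2 * S + 1) * E ^ 2 * θ) * ((1 / 2) * μ ^ n) := by ring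
      _ ≤ 1 * ((1 / 2) * μ ^ n) := by gcongr
      _ = _ := one_mul _
  linarith

/-- weight of double pieces -/
theorem exists_piece {μ K : ℝ} (h : Bd μ K) {S : ℕ} (hS : 1 ≤ S) :
    ∃ m : ℕ, m ≤ 16 * S ^ 2 ∧
      exp (-(2 * K2 K * log (S + 1) ^ 2)) ≤ (g (2 * S) 0 (2 * S) m : ℝ) / μ ^ m := by
  obtain ⟨m, x, hm, hx, hmx⟩ := exists_ubx h hS
  refine ⟨2 * m, by omega, ?_⟩
  have hμ0 : 0 < μ := by linarith [h.one]
  have h1 := ubx_sq_le hS m hx
  calc exp (-(2 * K2 K * log (S + 1) ^ 2)) = exp (-(K2 K * log (S + 1) ^ 2)) ^ 2 := by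
        rw [← exp_nat_mul]
        congr 1
        push_cast
        ring
    _ ≤ ((ubx m x S : ℝ) / μ ^ m) ^ 2 := pow_le_pow_left₀ (exp_pos _).le hmx 2
    _ = (ubx m x S : ℝ) ^ 2 / μ ^ (2 * m) := by rw [div_pow, ← pow_mul, mul_comm m 2]
    _ ≤ _ := by
        apply div_le_div_of_nonneg_right _ (by positivity)
        exact_mod_cast h1

end Pool.Agent.V11237.SXT
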