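import Pool.Agent.V11237.SXT.Cone

/-!
The uniform half-plane self-avoiding walk on the square lattice in the discretisations of connected
open subsets of the half-plane which contain a cone.
-/

set_option autoImplicit false

namespace Pool.Agent.V11237.SXT

open scoped ENNReal Topology
open Pool.Agent.H122R3.HX (ZL TL gw rect)
open Pool.Agent.H122R3.SX (Adj c walks walks_finite ncard_walks)
open Pool.Agent.H122R3.SY (nbr_symm ZL_map)

/-- **chains through a cone** -/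
theorem chain_cone2 {W : Set (ℝ × ℝ)} (hW : IsOpen W) (hc : IsPreconnected W)
    {z0 : ℝ × ℝ} (h0 : z0 ∈ W) (e : ℝ × ℝ) {θ : ℝ} (hθ : 0 < θ)
    (hcone : ∀ t : ℝ, 1 ≤ t → Metric.closedBall (t • e) (θ * t) ⊆ W) :
    ∃ δ K M C r : ℝ, 0 < δ ∧ 0 ≤ K ∧ 0 ≤ M ∧ 2 ≤ C ∧ 0 < r ∧ ∀ L : ℝ, C ≤ L →
      ∀ p ∈ Bx z0 r L, ∀ J : ℕ, ∃ D : Set (ℤ × ℤ),
      (∀ v ∈ D, Metric.closedBall (pt L v) δ ⊆ W) ∧
      (∀ v ∈ D, |(v.1 : ℝ)| ≤ M * (2 ^ J * L) ∧ |(v.2 : ℝ)| ≤ M * (2 ^ J * L)) ∧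
      ee (-(K * (J + 1) * Real.log (2 ^ J * L) ^ 2)) ≤
        ZL Adj xe D p (near ((3 / 2 : ℝ) • e) (2 ^ J * L)) := by
  have hb1 : (3 / 2 : ℝ) • e ∈ W := hcone (3 / 2) (by norm_num) (Metric.mem_closedBall_self (by positivity))
  have hb2 : (3 / 2 : ℝ) • e ∈ VV e θ := ⟨3 / 2, ⟨by norm_num, by norm_num⟩, by
    rw [sub_self, norm_zero]; positivity⟩
  have hb3 : (3 : ℝ) • e ∈ VV e θ := ⟨3, ⟨by norm_num, by norm_num⟩, by
    rw [sub_self, norm_zero]; positivity⟩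
  obtain ⟨Q0, hQ0, hs0, r0, K0, C0, hr0, hK0, hC0, m0⟩ := conn hW hc h0 hb1
  obtain ⟨Q1, hQ1, hs1, r1, K1, C1, hr1, hK1, hC1, m1⟩ :=
    conn (VV_open e θ) (VV_convex e θ).isPreconnected hb2 hb3
  obtain ⟨δ0, hδ0, ht0⟩ := hQ0.exists_cthickening_subset_open hW hs0
  obtain ⟨δ1, hδ1, ht1⟩ := hQ1.exists_cthickening_subset_open (VV_open e θ) hs1
  obtain ⟨M0, hM00, hM0⟩ := Lat_box hQ0
  obtain ⟨M1, hM10, hM1⟩ := Lat_box hQ1
  obtain ⟨K3, hK3, g3⟩ := gluingR (max M0 M1)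
  refine ⟨min δ0 δ1, K0 + K1 + K3, max M0 M1, max (max C0 C1) (max (1 / r0) (1 / r1)), r0,
    lt_min hδ0 hδ1, by positivity, hM00.trans (le_max_left _ _),
    hC0.trans ((le_max_left _ _).trans (le_max_left _ _)), hr0, ?_⟩
  intro L hL p hp J
  have hLC0 : C0 ≤ L := (le_max_left _ _).trans ((le_max_left _ _).trans hL)
  have hLC1 : C1 ≤ L := (le_max_right _ _).trans ((le_max_left _ _).trans hL)
  have hL2 : 2 ≤ L := hC0.trans hLC0
  have hr0L : 1 ≤ r0 * L := by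
    have := (le_max_left (1 / r0) (1 / r1)).trans ((le_max_right _ _).trans hL)
    rw [div_le_iff₀ hr0] at this
    linarith
  have hr1L : 1 ≤ r1 * L := by
    have := (le_max_right (1 / r0) (1 / r1)).trans ((le_max_right _ _).trans hL)
    rw [div_le_iff₀ hr1] at this
    linarith
  induction J with
  | zero =>
    refine ⟨Lat Q0 L, ?_, ?_, ?_⟩
    · intro v hv
      have hy : pt L v ∈ Q0 := hv
      refine subset_trans ?_ ht0
      exact (Metric.closedBall_subset_closedBall (min_le_left _ _)).trans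
        (Metric.closedBall_subset_cthickening hy δ0)
    · intro v hv
      have h1 := hM0 L (by linarith) v hv
      have h2 : M0 * L ≤ max M0 M1 * (2 ^ 0 * L) := by
        rw [pow_zero, one_mul]
        exact mul_le_mul_of_nonneg_right (le_max_left _ _) (by linarith)
      exact ⟨h1.1.trans h2, h1.2.trans h2⟩
    · have h1 := m0 L hLC0 p (near ((3 / 2 : ℝ) • e) L) hp (near_mem _ hr0L)
      rw [pow_zero, one_mul]
      refine le_trans (ee_mono ?_) h1
      have : 0 ≤ (K1 + K3) * Real.log L ^ 2 := by positivity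
      push_cast
      linarith
  | succ J ih =>
    obtain ⟨D, hD1, hD2, hD3⟩ := ih
    obtain ⟨L', hL'⟩ : ∃ L', L' = 2 ^ J * L := ⟨_, rfl⟩
    have hJ1 : (1 : ℝ) ≤ 2 ^ J := one_le_pow₀ (by norm_num)
    have hLL' : L ≤ L' := by rw [hL']; nlinarith
    have hL'0 : 0 < L' := by linarith
    have e2 : (2 : ℝ) ^ (J + 1) * L = 2 * L' := by rw [hL']; ring
    rw [e2]
    rw [← hL'] at hD2 hD3
    refine ⟨D ∪ Lat Q1 L', ?_, ?_, ?_⟩
    · rintro v (hv | hv)
      · exact hD1 v hv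
      · intro x hx
        have hy : pt L' v ∈ Q1 := hv
        have e3 : pt L v = (2 : ℝ) ^ J • pt L' v := by
          unfold pt
          rw [hL']
          simp only [Prod.smul_mk, smul_eq_mul]
          have : (2 : ℝ) ^ J ≠ 0 := by positivity
          have : L ≠ 0 := by linarith
          congr 1
          · field_simp
          · field_simp
        obtain ⟨x', hx'⟩ : ∃ x', x' = ((2 : ℝ) ^ J)⁻¹ • x := ⟨_, rfl⟩
        have hxx : x = (2 : ℝ) ^ J • x' := by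
          rw [hx', smul_smul, mul_inv_cancel₀ (by positivity), one_smul]
        have h4 : dist x' (pt L' v) ≤ δ1 := by
          have h5 : dist x (pt L v) ≤ min δ0 δ1 := hx
          rw [hxx, e3, dist_smul₀, Real.norm_of_nonneg (by positivity)] at h5
          have h6 : (0 : ℝ) ≤ dist x' (pt L' v) := dist_nonneg
          have h7 := min_le_right δ0 δ1
          nlinarith
        have h8 : x' ∈ VV e θ := ht1 (Metric.closedBall_subset_cthickening hy δ1 h4)
        obtain ⟨t, ht, hxt⟩ := h8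
        apply hcone (2 ^ J * t) (by nlinarith [ht.1])
        rw [Metric.mem_closedBall, dist_eq_norm, hxx, mul_smul, ← smul_sub, norm_smul,
          Real.norm_of_nonneg (by positivity)]
        calc (2 : ℝ) ^ J * ‖x' - t • e‖ ≤ 2 ^ J * (θ * t) := by gcongr
          _ = _ := by ring
    · rintro v (hv | hv)
      · have h1 := hD2 v hv
        have h2 : max M0 M1 * L' ≤ max M0 M1 * (2 * L') :=
          mul_le_mul_of_nonneg_left (by linarith) (hM00.trans (le_max_left _ _))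
        exact ⟨h1.1.trans h2, h1.2.trans h2⟩
      · have h1 := hM1 L' hL'0 v hv
        have h2 : M1 * L' ≤ max M0 M1 * (2 * L') := by
          calc M1 * L' ≤ max M0 M1 * L' := mul_le_mul_of_nonneg_right (le_max_right _ _) hL'0.le
            _ ≤ _ := mul_le_mul_of_nonneg_left (by linarith) (hM00.trans (le_max_left _ _))
        exact ⟨h1.1.trans h2, h1.2.trans h2⟩
    · have hv1 : near ((3 / 2 : ℝ) • e) L' ∈ Bx ((3 / 2 : ℝ) • e) r1 L' :=
        near_mem _ (by nlinarith)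
      have hv2 : near ((3 : ℝ) • e) L' ∈ Bx ((3 : ℝ) • e) r1 L' :=
        near_mem _ (by nlinarith)
      have h1 := m1 L' (hLC1.trans hLL') _ _ hv1 hv2
      rw [near_two] at h1
      have p1 := hD3.trans (ZL_mono (Set.subset_union_left (s := D) (t := Lat Q1 L')) _ _)
      have p2 := h1.trans (ZL_mono (Set.subset_union_right (s := D) (t := Lat Q1 L')) _ _)
      have hbox : ∀ v ∈ D ∪ Lat Q1 L', |(v.1 : ℝ)| ≤ max M0 M1 * L' ∧
          |(v.2 : ℝ)| ≤ max M0 M1 * L' := by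
        rintro v (hv | hv)
        · exact hD2 v hv
        · have h1 := hM1 L' hL'0 v hv
          have h2 : M1 * L' ≤ max M0 M1 * L' := mul_le_mul_of_nonneg_right (le_max_right _ _) hL'0.le
          exact ⟨h1.1.trans h2, h1.2.trans h2⟩
      have p3 := glue_ge p1 p2 (g3 L' (by linarith) _ hbox _ _ _)
      refine le_trans (ee_mono ?_) p3
      have hlog : Real.log L' ^ 2 ≤ Real.log (2 * L') ^ 2 :=
        pow_le_pow_left₀ (Real.log_nonneg (by linarith))
          (Real.log_le_log (by linarith) (by linarith)) 2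
      have h5 : (K0 + K1 + K3) * (J + 1) * Real.log L' ^ 2 + K1 * Real.log L' ^ 2 +
          K3 * Real.log L' ^ 2 ≤ (K0 + K1 + K3) * ((J + 1 : ℕ) + 1) * Real.log L' ^ 2 := by
        have : 0 ≤ K0 * Real.log L' ^ 2 := by positivity
        push_cast
        nlinarith
      have h6 : (K0 + K1 + K3) * ((J + 1 : ℕ) + 1) * Real.log L' ^ 2 ≤
          (K0 + K1 + K3) * ((J + 1 : ℕ) + 1) * Real.log (2 * L') ^ 2 := by gcongr
      linarith


/-- the last step -/
theorem finish (P : ℝ → Set (ℤ × ℤ) → Prop) {e : ℝ × ℝ} (he : e ≠ 0) {K1 M C1 : ℝ} (hK1 : 0 ≤ K1)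
    (hC1 : 2 ≤ C1)
    (h1 : ∀ L : ℝ, C1 ≤ L → ∀ J : ℕ, ∃ D : Set (ℤ × ℤ), P L D ∧
      (∀ v ∈ D, |(v.1 : ℝ)| ≤ M * (2 ^ J * L) ∧ |(v.2 : ℝ)| ≤ M * (2 ^ J * L)) ∧
      ee (-(K1 * (J + 1) * Real.log (2 ^ J * L) ^ 2)) ≤
        ZL Adj xe D (0, 0) (near ((3 / 2 : ℝ) • e) (2 ^ J * L))) :
    ∃ K : ℝ, 0 ≤ K ∧ ∀ n : ℕ, 2 ≤ n → ∀ L : ℝ, C1 ≤ L → L ≤ (n : ℝ) ^ 2 → ∃ D, P L D ∧
      Real.exp (-(K * Real.log n ^ 3)) * c n ≤ ({f | f ∈ walks n ∧ ∀ i, f i ∈ D}.ncard : ℝ) := by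
  obtain ⟨K2, hB⟩ := exists_Bd
  obtain ⟨K4, hK4, h4⟩ := bounds_in_box |M|
  have hK2 := hB.Kn
  have hlog2 : 0 < Real.log 2 := Real.log_pos (by norm_num)
  have he0 : 0 < ‖e‖ := norm_pos_iff.2 he
  -- the constants
  obtain ⟨A, hA⟩ : ∃ A, A = (2 + |Real.log ‖e‖| / Real.log 2 + 1) / Real.log 2 := ⟨_, rfl⟩
  have hA0 : 0 ≤ A := by rw [hA]; positivity
  obtain ⟨B, hBd⟩ : ∃ B, B = A * Real.log 2 + 2 := ⟨_, rfl⟩
  have hB0 : 0 ≤ B := by rw [hBd]; positivity
  obtain ⟨G, hG⟩ : ∃ G, G = (Real.log 2 / Real.log 2 + 1) ^ 2 := ⟨_, rfl⟩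
  have hG0 : 0 ≤ G := by rw [hG]; positivity
  obtain ⟨K, hK⟩ : ∃ K, K = K1 * (A + 1 / Real.log 2) * B ^ 2 + K4 * G * B ^ 2 / Real.log 2 +
    K2 / Real.log 2 := ⟨_, rfl⟩
  have hK0 : 0 ≤ K := by rw [hK]; positivity
  refine ⟨K, hK0, ?_⟩
  intro n hn L hLC1 hLn
  have hL2 : 2 ≤ L := hC1.trans hLC1
  have hL0 : 0 < L := by linarith
  have hnr : (2 : ℝ) ≤ n := by exact_mod_cast hn
  have hn0 : (0 : ℝ) < n := by linarith
  obtain ⟨l, hl⟩ : ∃ l, l = Real.log (n : ℝ) := ⟨_, rfl⟩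
  have hl2 : Real.log 2 ≤ l := by rw [hl]; exact Real.log_le_log (by norm_num) hnr
  have hl0 : 0 < l := by linarith
  rw [← hl]
  have hcn : (0 : ℝ) < c n := lt_of_lt_of_le (pow_pos H981.mu_pos n) (hB.low n hn)
  obtain ⟨J, hJ⟩ : ∃ J : ℕ, J = ⌈Real.log ((n + 1) / ‖e‖) / Real.log 2⌉₊ := ⟨_, rfl⟩
  have hJ1 : ((n : ℝ) + 1) / ‖e‖ ≤ 2 ^ J := by
    have h5 : Real.log ((n + 1) / ‖e‖) / Real.log 2 ≤ J := by rw [hJ]; exact Nat.le_ceil _
    rw [div_le_iff₀ hlog2] at h5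
    have h6 : Real.log ((n + 1) / ‖e‖) ≤ Real.log (2 ^ J) := by rw [Real.log_pow]; exact h5
    exact (Real.log_le_log_iff (by positivity) (by positivity)).1 h6
  have hJ2 : (J : ℝ) ≤ A * l := by
    have h5 : (J : ℝ) ≤ |Real.log ((n + 1) / ‖e‖) / Real.log 2| + 1 := by
      rw [hJ]
      have := Nat.ceil_lt_add_one (abs_nonneg (Real.log (((n : ℝ) + 1) / ‖e‖) / Real.log 2))
      refine le_trans ?_ this.le
      exact_mod_cast Nat.ceil_le_ceil (le_abs_self _)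
    have h6 : |Real.log (((n : ℝ) + 1) / ‖e‖)| ≤ 2 * l + |Real.log ‖e‖| := by
      rw [Real.log_div (by positivity) he0.ne']
      refine (abs_sub _ _).trans ?_
      have h7 : |Real.log ((n : ℝ) + 1)| ≤ 2 * l := by
        rw [abs_of_nonneg (Real.log_nonneg (by linarith)), hl]
        have : Real.log ((n : ℝ) + 1) ≤ Real.log ((n : ℝ) ^ 2) :=
          Real.log_le_log (by positivity) (by nlinarith)
        rw [Real.log_pow] at this
        exact_mod_cast this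
      linarith
    rw [abs_div, abs_of_pos hlog2] at h5
    have h8 : |Real.log ‖e‖| ≤ |Real.log ‖e‖| / Real.log 2 * l := by
      rw [div_mul_eq_mul_div, le_div_iff₀ hlog2]
      gcongr
    have h10 : |Real.log (((n : ℝ) + 1) / ‖e‖)| / Real.log 2 + 1 ≤ A * l := by
      rw [hA, div_mul_eq_mul_div, le_div_iff₀ hlog2, add_mul, div_mul_cancel₀ _ hlog2.ne', one_mul]
      linarith
    exact h5.trans h10
  obtain ⟨L', hL'⟩ : ∃ L', L' = 2 ^ J * L := ⟨_, rfl⟩
  have hJ3 : (1 : ℝ) ≤ 2 ^ J := one_le_pow₀ (by norm_num)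
  have hLL' : L ≤ L' := by rw [hL']; nlinarith
  have hL'0 : 0 < L' := by linarith
  have hlogL' : Real.log L' ≤ B * l := by
    have h5 : Real.log L ≤ 2 * l := by
      have := Real.log_le_log hL0 hLn
      rw [Real.log_pow, ← hl] at this
      exact_mod_cast this
    rw [hL', Real.log_mul (by positivity) (by positivity), Real.log_pow, hBd]
    have h6 : (J : ℝ) * Real.log 2 ≤ A * l * Real.log 2 := by gcongr
    have h7 : (A * Real.log 2 + 2) * l = A * l * Real.log 2 + 2 * l := by ring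
    rw [h7]
    linarith
  have hlogL'0 : 0 ≤ Real.log L' := Real.log_nonneg (by linarith)
  have hlogL'2 : Real.log L' ^ 2 ≤ B ^ 2 * l ^ 2 := by
    rw [← mul_pow]
    exact pow_le_pow_left₀ hlogL'0 hlogL' 2
  obtain ⟨D, hD1, hD2, hD3⟩ := h1 L hLC1 J
  rw [← hL'] at hD2 hD3
  obtain ⟨N1, hN1, hN2⟩ := ceil_facts (show 2 ≤ L' by linarith)
  obtain ⟨N, hNl, -, hNQ⟩ := h4 ⌈L'⌉₊ N1 D (by
    intro v hv
    have h5 := hD2 v hv
    have h6 : M * L' ≤ |M| * (⌈L'⌉₊ : ℝ) := by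
      calc M * L' ≤ |M| * L' := mul_le_mul_of_nonneg_right (le_abs_self M) hL'0.le
        _ ≤ _ := mul_le_mul_of_nonneg_left hN1 (abs_nonneg M)
    exact ⟨h5.1.trans h6, h5.2.trans h6⟩)
  -- all the paths are long
  have hfar : (n : ℤ) ≤ |(near ((3 / 2 : ℝ) • e) L').1| + |(near ((3 / 2 : ℝ) • e) L').2| := by
    have key : ∀ x : ℝ, |x| - 1 ≤ |(⌊x⌋ : ℝ)| := by
      intro x
      have h1 := Int.floor_le x
      have h2 := Int.lt_floor_add_one x
      have h3 : |x - ⌊x⌋| ≤ 1 := by rw [abs_le]; constructor <;> linarith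
      have h4 := abs_sub_abs_le_abs_sub x (⌊x⌋ : ℝ)
      linarith
    have h5 : (n : ℝ) + 1 ≤ L' * ‖e‖ := by
      rw [div_le_iff₀ he0] at hJ1
      have : (2 : ℝ) ^ J * ‖e‖ ≤ L' * ‖e‖ := by
        rw [hL']
        apply mul_le_mul_of_nonneg_right _ he0.le
        nlinarith
      linarith
    have h6 : L' * ‖e‖ ≤ max |L' * (3 / 2 * e.1)| |L' * (3 / 2 * e.2)| := by
      rw [Prod.norm_def, Real.norm_eq_abs, Real.norm_eq_abs, abs_mul, abs_mul, abs_mul, abs_mul,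
        abs_of_pos hL'0, abs_of_pos (show (0 : ℝ) < 3 / 2 by norm_num),
        ← mul_max_of_nonneg _ _ hL'0.le, ← mul_max_of_nonneg _ _ (show (0 : ℝ) ≤ 3 / 2 by norm_num)]
      apply mul_le_mul_of_nonneg_left _ hL'0.le
      have : 0 ≤ max |e.1| |e.2| := le_max_of_le_left (abs_nonneg _)
      linarith
    have h7 : max |L' * (3 / 2 * e.1)| |L' * (3 / 2 * e.2)| - 1 ≤
        |((near ((3 / 2 : ℝ) • e) L').1 : ℝ)| + |((near ((3 / 2 : ℝ) • e) L').2 : ℝ)| := by
      have k1 := key (L' * (3 / 2 * e.1))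
      have k2 := key (L' * (3 / 2 * e.2))
      unfold near
      simp only [Prod.smul_fst, Prod.smul_snd, smul_eq_mul]
      have k3 := abs_nonneg ((⌊L' * (3 / 2 * e.1)⌋ : ℝ))
      have k4 := abs_nonneg ((⌊L' * (3 / 2 * e.2)⌋ : ℝ))
      rcases max_choice |L' * (3 / 2 * e.1)| |L' * (3 / 2 * e.2)| with h | h
      · rw [h]; linarith
      · rw [h]; linarith
    have h8 : (n : ℝ) ≤ |((near ((3 / 2 : ℝ) • e) L').1 : ℝ)| +
        |((near ((3 / 2 : ℝ) • e) L').2 : ℝ)| := by linarith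
    exact_mod_cast h8
  have hlong : ∀ p ∈ TL Adj D (0, 0) (near ((3 / 2 : ℝ) • e) L'), n + 1 ≤ p.length := by
    rintro p ⟨p1, p2, p3, p4, p5⟩
    have hp0 : 0 < p.length := by
      rw [List.length_pos_iff]
      rintro rfl
      simp at p1
    have h5 := chain_dist p p4 p1 (p.length - 1) (by omega)
    rw [List.getLast?_eq_getElem?, List.getElem?_eq_getElem (by omega)] at p2
    rw [Option.some.inj p2] at h5
    have h6 := hfar.trans h5
    omega
  have hZ := ZL_prefix hlong hNl hNQ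
  refine ⟨D, hD1, ?_⟩
  have hcard : ((SD D n).ncard : ℝ) ≤ ({f | f ∈ walks n ∧ ∀ i, f i ∈ D}.ncard : ℝ) := by
    exact_mod_cast (SD_card D n).2
  refine le_trans ?_ hcard
  -- the estimate
  obtain ⟨s, hs⟩ : ∃ s : ℝ, s = ((SD D n).ncard : ℝ) := ⟨_, rfl⟩
  have hs0 : 0 ≤ s := by rw [hs]; positivity
  have hmu := H981.mu_pos
  have hmu' : (0 : ℝ) < mu := hmu
  obtain ⟨X, hX⟩ : ∃ X, X = K1 * (J + 1) * Real.log L' ^ 2 := ⟨_, rfl⟩
  obtain ⟨Y, hY⟩ : ∃ Y, Y = K4 * Real.log (⌈L'⌉₊ : ℝ) ^ 2 := ⟨_, rfl⟩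
  have hmain : Real.exp (-X) ≤ s * (1 / mu) ^ n * Real.exp Y := by
    apply ee_le_ofReal (by positivity)
    rw [hX]
    refine hD3.trans (hZ.trans (le_of_eq ?_))
    rw [ENNReal.ofReal_mul (by positivity), ENNReal.ofReal_mul hs0, hs, hY]
    unfold xe
    rw [ENNReal.ofReal_natCast, ENNReal.ofReal_pow (by positivity)]
  have hcup := hB.up n hn
  rw [← hl] at hcup
  have hX2 : X ≤ K1 * (A + 1 / Real.log 2) * B ^ 2 * l ^ 3 := by
    have h5 : (J : ℝ) + 1 ≤ (A + 1 / Real.log 2) * l := by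
      have : 1 ≤ 1 / Real.log 2 * l := by
        rw [div_mul_eq_mul_div, one_mul, le_div_iff₀ hlog2, one_mul]
        exact hl2
      linarith
    rw [hX]
    calc K1 * (J + 1) * Real.log L' ^ 2 ≤ K1 * ((A + 1 / Real.log 2) * l) * (B ^ 2 * l ^ 2) := by
          gcongr
      _ = _ := by ring
  have hl23 : l ^ 2 ≤ l ^ 3 / Real.log 2 := by
    rw [le_div_iff₀ hlog2]
    calc l ^ 2 * Real.log 2 ≤ l ^ 2 * l := by gcongr
      _ = l ^ 3 := by ring
  have hY2 : Y ≤ K4 * G * B ^ 2 / Real.log 2 * l ^ 3 := by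
    have h5 := log_scale (A := 2) (by norm_num) (show 2 ≤ L' by linarith)
      (by linarith : (1 : ℝ) ≤ (⌈L'⌉₊ : ℝ)) hN2
    rw [← hG] at h5
    rw [hY]
    calc K4 * Real.log (⌈L'⌉₊ : ℝ) ^ 2 ≤ K4 * (G * (B ^ 2 * (l ^ 3 / Real.log 2))) := by
          gcongr
          refine h5.trans ?_
          gcongr
          exact hlogL'2.trans (by gcongr)
      _ = _ := by ring
  have hZ2 : K2 * l ^ 2 ≤ K2 / Real.log 2 * l ^ 3 := by
    calc K2 * l ^ 2 ≤ K2 * (l ^ 3 / Real.log 2) := by gcongr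
      _ = _ := by ring
  have hsum : X + Y + K2 * l ^ 2 ≤ K * l ^ 3 := by
    have h5 : X + Y + K2 * l ^ 2 ≤ K * l ^ 3 := by rw [hK]; linarith
    linarith
  calc Real.exp (-(K * l ^ 3)) * c n
      ≤ Real.exp (-(K * l ^ 3)) * (mu ^ n * Real.exp (K2 * l ^ 2)) := by
        gcongr
    _ = Real.exp (-(K * l ^ 3) + K2 * l ^ 2) * mu ^ n := by
        rw [Real.exp_add]; ring
    _ ≤ Real.exp (-X - Y) * mu ^ n := by
        gcongr
        linarith
    _ = Real.exp (-X) * Real.exp (-Y) * mu ^ n := by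
        rw [← Real.exp_add]
        congr 2
    _ ≤ s * (1 / mu) ^ n * Real.exp Y * Real.exp (-Y) * mu ^ n := by gcongr
    _ = s * ((1 / mu) ^ n * mu ^ n) * (Real.exp Y * Real.exp (-Y)) := by ring
    _ = s := by
        rw [← mul_pow, one_div, inv_mul_cancel₀ hmu'.ne', one_pow, ← Real.exp_add, add_neg_cancel,
          Real.exp_zero]
        ring
    _ = _ := hs

/-- the region with a part of the boundary -/
def Reg (U : Set (ℝ × ℝ)) (ρ : ℝ) : Set (ℝ × ℝ) := U ∪ {x | |x.1| < ρ ∧ x.2 = 0}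

/-- **The uniform walk in a region of the half-plane which contains a cone.** -/
theorem half {U : Set (ℝ × ℝ)} (hU : IsOpen U) (hc : IsPreconnected U) {ρ : ℝ} (hρ : 0 < ρ)
    (hρU : ∀ x : ℝ × ℝ, |x.1| < ρ → 0 < x.2 → x.2 < ρ → x ∈ U) (hup : ∀ x ∈ U, 0 < x.2)
    {e : ℝ × ℝ} (he : e ≠ 0) {θ : ℝ} (hθ : 0 < θ)
    (hcone : ∀ t : ℝ, 1 ≤ t → Metric.closedBall (t • e) (θ * t) ⊆ U) :
    ∃ K : ℝ, 0 < K ∧ ∀ n : ℕ, 2 ≤ n → ∀ L : ℝ, K ≤ L → L ≤ (n : ℝ) ^ 2 →
      Real.exp (-(K * Real.log n ^ 3)) * c n ≤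
        ({f | f ∈ walks n ∧ (∀ i, 0 ≤ (f i).2) ∧ ∀ i : Fin n,
          segment ℝ (pt L (f i.castSucc)) (pt L (f i.succ)) ⊆ Reg U ρ}.ncard : ℝ) := by
  have h0 : ((0 : ℝ), ρ / 2) ∈ U := hρU _ (by simpa using hρ) (by simp; positivity) (by simp; linarith)
  obtain ⟨δ, K1, M, C1, r, hδ, hK1, hM, hC1, hr, h1⟩ := chain_cone2 hU hc h0 e hθ hcone
  obtain ⟨K2, C2, hK2, hC2, h2⟩ := rectR (ε := ρ / 2) (R := ρ / 4) (by positivity) (by positivity)
  obtain ⟨K3, hK3, h3⟩ := gluingR (max M ρ)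
  -- the property of the sets
  let P : ℝ → Set (ℤ × ℤ) → Prop := fun L D => ∃ D1 D2 : Set (ℤ × ℤ), D = D1 ∪ D2 ∧
    (∀ v ∈ D1, |(v.1 : ℝ)| ≤ ρ / 2 * L ∧ 0 ≤ v.2 ∧ (v.2 : ℝ) ≤ ρ / 2 * L) ∧
    ∀ v ∈ D2, Metric.closedBall (pt L v) δ ⊆ U
  obtain ⟨K, hK, h⟩ := finish P he (K1 := K1 + K2 + K3) (M := max M ρ)
    (C1 := max (max C1 C2) (2 / r)) (by positivity)
    (hC1.trans ((le_max_left _ _).trans (le_max_left _ _))) (by
    intro L hL J
    have hLC1 : C1 ≤ L := (le_max_left _ _).trans ((le_max_left _ _).trans hL)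
    have hLC2 : C2 ≤ L := (le_max_right _ _).trans ((le_max_left _ _).trans hL)
    have hL2 : 2 ≤ L := hC1.trans hLC1
    have hL0 : 0 < L := by linarith
    have hrL : 2 ≤ r * L := by
      have := (le_max_right (max C1 C2) (2 / r)).trans hL
      rw [div_le_iff₀ hr] at this
      linarith
    obtain ⟨ℓ, hℓ⟩ : ∃ ℓ : ℕ, ℓ = ⌊ρ / 4 * L⌋₊ := ⟨_, rfl⟩
    have hℓ1 : (ℓ : ℝ) ≤ ρ / 4 * L := by rw [hℓ]; exact Nat.floor_le (by positivity)
    have hℓ2 : ρ / 4 * L < ℓ + 1 := by rw [hℓ]; exact Nat.lt_floor_add_one _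
    have hp : ((0 : ℤ), 2 * (ℓ : ℤ)) ∈ Bx ((0 : ℝ), ρ / 2) r L := by
      constructor
      · simp only [Int.cast_zero, mul_zero, sub_zero, abs_zero]
        positivity
      · simp only
        push_cast
        rw [abs_le]
        constructor <;> linarith
    obtain ⟨D, hD1, hD2, hD3⟩ := h1 L hLC1 _ hp J
    have m1 := h2 L hLC2 ℓ hℓ1
    have hJ1 : (1 : ℝ) ≤ 2 ^ J := one_le_pow₀ (by norm_num)
    obtain ⟨L', hL'⟩ : ∃ L', L' = 2 ^ J * L := ⟨_, rfl⟩
    have hLL' : L ≤ L' := by rw [hL']; nlinarith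
    rw [← hL'] at hD2 hD3 ⊢
    obtain ⟨R, hR⟩ : ∃ R : Set (ℤ × ℤ), R = rect (ρ / 2 * L) (2 * ℓ) := ⟨_, rfl⟩
    rw [← hR] at m1
    have hRm : ∀ v ∈ R, |(v.1 : ℝ)| ≤ ρ / 2 * L ∧ 0 ≤ v.2 ∧ (v.2 : ℝ) ≤ ρ / 2 * L := by
      intro v hv
      rw [hR] at hv
      refine ⟨hv.1, hv.2.1, ?_⟩
      have : (v.2 : ℝ) ≤ 2 * ℓ := by exact_mod_cast hv.2.2
      linarith
    have hbox : ∀ v ∈ R ∪ D, |(v.1 : ℝ)| ≤ max M ρ * L' ∧ |(v.2 : ℝ)| ≤ max M ρ * L' := by
      rintro v (hv | hv)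
      · obtain ⟨a1, a2, a3⟩ := hRm v hv
        have a4 : (0 : ℝ) ≤ v.2 := by exact_mod_cast a2
        have a5 : ρ / 2 * L ≤ max M ρ * L' := by
          calc ρ / 2 * L ≤ ρ * L' := by nlinarith
            _ ≤ _ := mul_le_mul_of_nonneg_right (le_max_right _ _) (by linarith)
        rw [abs_of_nonneg a4]
        exact ⟨a1.trans a5, a3.trans a5⟩
      · have a5 : M * L' ≤ max M ρ * L' :=
          mul_le_mul_of_nonneg_right (le_max_left _ _) (by linarith)
        exact ⟨(hD2 v hv).1.trans a5, (hD2 v hv).2.trans a5⟩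
    refine ⟨R ∪ D, ⟨R, D, rfl, hRm, hD1⟩, hbox, ?_⟩
    have p1 := m1.trans (ZL_mono (Set.subset_union_left (s := R) (t := D)) _ _)
    have p2 := hD3.trans (ZL_mono (Set.subset_union_right (s := R) (t := D)) _ _)
    have p3 := glue_ge p1 p2 (h3 L' (by linarith) _ hbox _ _ _)
    refine le_trans (ee_mono ?_) p3
    have hlog : Real.log L ^ 2 ≤ Real.log L' ^ 2 :=
      pow_le_pow_left₀ (Real.log_nonneg (by linarith)) (Real.log_le_log hL0 hLL') 2
    have hl0 : 0 ≤ Real.log L' ^ 2 := by positivity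
    have hJ0 : (0 : ℝ) ≤ J := Nat.cast_nonneg _
    have q1 : K2 * Real.log L ^ 2 ≤ K2 * (J + 1) * Real.log L' ^ 2 := by
      calc K2 * Real.log L ^ 2 ≤ K2 * Real.log L' ^ 2 := by gcongr
        _ = K2 * 1 * Real.log L' ^ 2 := by ring
        _ ≤ K2 * (J + 1) * Real.log L' ^ 2 := by gcongr; linarith
    have q2 : K3 * Real.log L' ^ 2 ≤ K3 * (J + 1) * Real.log L' ^ 2 := by
      calc K3 * Real.log L' ^ 2 = K3 * 1 * Real.log L' ^ 2 := by ring
        _ ≤ K3 * (J + 1) * Real.log L' ^ 2 := by gcongr; linarith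
    linarith)
  refine ⟨K + max (max C1 C2) (2 / r) + 1 / δ, by
    have : 0 < max (max C1 C2) (2 / r) := lt_of_lt_of_le (by linarith)
      (hC1.trans ((le_max_left _ _).trans (le_max_left _ _)))
    positivity, ?_⟩
  intro n hn L hL hLn
  have hC0 : 0 < max (max C1 C2) (2 / r) := lt_of_lt_of_le (by linarith)
    (hC1.trans ((le_max_left _ _).trans (le_max_left _ _)))
  have hδ1 : 0 < 1 / δ := by positivity
  have hLC : max (max C1 C2) (2 / r) ≤ L := by linarith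
  have hL0 : 0 < L := by linarith
  have hLδ : 1 / L ≤ δ := by
    rw [div_le_iff₀ hL0]
    have : 1 / δ ≤ L := by linarith
    rw [div_le_iff₀ hδ] at this
    linarith
  obtain ⟨D, ⟨D1, D2, rfl, hD1, hD2⟩, hD⟩ := h n hn L hLC hLn
  have hln : 0 ≤ Real.log (n : ℝ) ^ 3 := pow_nonneg (Real.log_natCast_nonneg n) 3
  have hexp : Real.exp (-((K + max (max C1 C2) (2 / r) + 1 / δ) * Real.log n ^ 3)) * c n ≤
      Real.exp (-(K * Real.log n ^ 3)) * c n := by
    apply mul_le_mul_of_nonneg_right _ (Nat.cast_nonneg _)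
    apply Real.exp_le_exp.2
    nlinarith [mul_nonneg hδ1.le hln, mul_nonneg hC0.le hln]
  refine hexp.trans (hD.trans ?_)
  have hfin : {f | f ∈ walks n ∧ (∀ i, 0 ≤ (f i).2) ∧ ∀ i : Fin n,
      segment ℝ (pt L (f i.castSucc)) (pt L (f i.succ)) ⊆ Reg U ρ}.Finite :=
    (walks_finite n).subset fun f hf => hf.1
  have hsub : {f | f ∈ walks n ∧ ∀ i, f i ∈ D1 ∪ D2} ⊆ {f | f ∈ walks n ∧ (∀ i, 0 ≤ (f i).2) ∧
      ∀ i : Fin n, segment ℝ (pt L (f i.castSucc)) (pt L (f i.succ)) ⊆ Reg U ρ} := by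
    rintro f ⟨hf1, hf2⟩
    refine ⟨hf1, fun i => ?_, fun i => ?_⟩
    · rcases hf2 i with h5 | h5
      · exact (hD1 _ h5).2.1
      · have h6 := hup _ (hD2 _ h5 (Metric.mem_closedBall_self hδ.le))
        unfold pt at h6
        simp only at h6
        have h7 : (0 : ℝ) < (f i).2 := by
          by_contra hcon
          push Not at hcon
          have := div_nonpos_of_nonpos_of_nonneg hcon hL0.le
          linarith
        have h8 : (0 : ℤ) < (f i).2 := by exact_mod_cast h7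
        exact h8.le
    · have hstep : |((f i.castSucc).1 : ℝ) - (f i.succ).1| +
          |((f i.castSucc).2 : ℝ) - (f i.succ).2| = 1 := by
        have : |(f i.castSucc).1 - (f i.succ).1| + |(f i.castSucc).2 - (f i.succ).2| = 1 :=
          hf1.2.2 i
        exact_mod_cast this
      have hd : dist (pt L (f i.succ)) (pt L (f i.castSucc)) ≤ δ := by
        refine le_trans ?_ hLδ
        unfold pt
        rw [Prod.dist_eq, Real.dist_eq, Real.dist_eq]
        simp only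
        rw [← sub_div, ← sub_div, abs_div, abs_div, abs_of_pos hL0, abs_sub_comm ((f i.succ).1 : ℝ),
          abs_sub_comm ((f i.succ).2 : ℝ)]
        have k1 := abs_nonneg (((f i.castSucc).1 : ℝ) - (f i.succ).1)
        have k2 := abs_nonneg (((f i.castSucc).2 : ℝ) - (f i.succ).2)
        apply max_le
        · gcongr; linarith
        · gcongr; linarith
      have hball : ∀ x y : ℝ × ℝ, dist y x ≤ δ → Metric.closedBall x δ ⊆ U → segment ℝ x y ⊆ U :=
        fun x y hxy hx => ((convex_closedBall _ _).segment_subset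
          (Metric.mem_closedBall_self hδ.le) hxy).trans hx
      rcases hf2 i.castSucc with h5 | h5
      · rcases hf2 i.succ with h6 | h6
        · -- both in the rectangle
          obtain ⟨S, hS⟩ : ∃ S : Set (ℝ × ℝ), S = Set.Icc (-(ρ / 2)) (ρ / 2) ×ˢ Set.Icc 0 (ρ / 2) :=
            ⟨_, rfl⟩
          have hSc : Convex ℝ S := by
            rw [hS]
            exact (convex_Icc _ _).prod (convex_Icc _ _)
          have hmem : ∀ v ∈ D1, pt L v ∈ S := by
            intro v hv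
            obtain ⟨a1, a2, a3⟩ := hD1 v hv
            rw [abs_le] at a1
            have a4 : (0 : ℝ) ≤ v.2 := by exact_mod_cast a2
            rw [hS]
            unfold pt
            refine ⟨⟨?_, ?_⟩, ?_, ?_⟩
            · simp only
              rw [le_div_iff₀ hL0]; linarith
            · simp only
              rw [div_le_iff₀ hL0]; linarith
            · simp only
              positivity
            · simp only
              rw [div_le_iff₀ hL0]; linarith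
          refine (hSc.segment_subset (hmem _ h5) (hmem _ h6)).trans ?_
          intro x hx
          rw [hS] at hx
          obtain ⟨⟨b1, b2⟩, b3, b4⟩ := hx
          have b5 : |x.1| < ρ := by rw [abs_lt]; constructor <;> linarith
          rcases b3.lt_or_eq with b6 | b6
          · exact Or.inl (hρU x b5 b6 (by linarith))
          · exact Or.inr ⟨b5, b6.symm⟩
        · rw [segment_symm]
          exact (hball _ _ (by rw [dist_comm]; exact hd) (hD2 _ h6)).trans Set.subset_union_left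
      · exact (hball _ _ hd (hD2 _ h5)).trans Set.subset_union_left
  exact_mod_cast Set.ncard_le_ncard hsub hfin

end Pool.Agent.V11237.SXT
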