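import Pool.Agent.V11237.SXT.Half

/-!
The sets of the theorem `half`, and two mutually avoiding walks in disjoint corridors.
-/

set_option autoImplicit false

namespace Pool.Agent.V11237.SXT

open scoped ENNReal Topology
open Pool.Agent.H122R3.HX (ZL TL gw rect)
open Pool.Agent.H122R3.SX (Adj c walks walks_finite ncard_walks)
open Pool.Agent.H122R3.SY (nbr_symm ZL_map)

/-- the sets of `half` -/
theorem half_sets {U : Set (ℝ × ℝ)} (hU : IsOpen U) (hc : IsPreconnected U) {ρ : ℝ} (hρ : 0 < ρ)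
    (hρU : ∀ x : ℝ × ℝ, |x.1| < ρ → 0 < x.2 → x.2 < ρ → x ∈ U)
    {e : ℝ × ℝ} (he : e ≠ 0) {θ : ℝ} (hθ : 0 < θ)
    (hcone : ∀ t : ℝ, 1 ≤ t → Metric.closedBall (t • e) (θ * t) ⊆ U) :
    ∃ δ K C : ℝ, 0 < δ ∧ 0 ≤ K ∧ 2 ≤ C ∧ ∀ n : ℕ, 2 ≤ n → ∀ L : ℝ, C ≤ L → L ≤ (n : ℝ) ^ 2 →
      ∃ D1 D2 : Set (ℤ × ℤ),
        (∀ v ∈ D1, |(v.1 : ℝ)| ≤ ρ / 2 * L ∧ 0 ≤ v.2 ∧ (v.2 : ℝ) ≤ ρ / 2 * L) ∧
        (∀ v ∈ D2, Metric.closedBall (pt L v) δ ⊆ U) ∧
        Real.exp (-(K * Real.log n ^ 3)) * c n ≤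
          ({f | f ∈ walks n ∧ ∀ i, f i ∈ D1 ∪ D2}.ncard : ℝ) := by
  have h0 : ((0 : ℝ), ρ / 2) ∈ U := hρU _ (by simpa using hρ) (by simp; positivity) (by simp; linarith)
  obtain ⟨δ, K1, M, C1, r, hδ, hK1, hM, hC1, hr, h1⟩ := chain_cone2 hU hc h0 e hθ hcone
  obtain ⟨K2, C2, hK2, hC2, h2⟩ := rectR (ε := ρ / 2) (R := ρ / 4) (by positivity) (by positivity)
  obtain ⟨K3, hK3, h3⟩ := gluingR (max M ρ)
  -- the property of the sets
  let P : ℝ → Set (ℤ × ℤ) → Prop := fun L D => ∃ D1 D2 : Set (ℤ × ℤ), D = D1 ∪ D2 ∧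
    (∀ v ∈ D1, |(v.1 : ℝ)| ≤ ρ / 2 * L ∧ 0 ≤ v.2 ∧ (v.2 : ℝ) ≤ ρ / 2 * L) ∧
    ∀ v ∈ D2, Metric.closedBall (pt L v) δ ⊆ U
  obtain ⟨K, hK, h⟩ := finish P he (K1 := K1 + K2 + K3) (M := max M ρ)
    (C1 := max (max C1 C2) (2 / r)) (by positivity)
    (hC1.trans ((le_max_left _ _).trans (le_max_left _ _))) (by
    intro L hL J
    have hLC1 : C1 ≤ L := (le_max_left _ _).trans ((le_max_left _ _).trans hL)
    have hLC2 : C2 ≤ L := (le_max_right _ _).trans ((le_max_left _ _).trans hL)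
    have hL2 : 2 ≤ L := hC1.trans hLC1
    have hL0 : 0 < L := by linarith
    have hrL : 2 ≤ r * L := by
      have := (le_max_right (max C1 C2) (2 / r)).trans hL
      rw [div_le_iff₀ hr] at this
      linarith
    obtain ⟨ℓ, hℓ⟩ : ∃ ℓ : ℕ, ℓ = ⌊ρ / 4 * L⌋₊ := ⟨_, rfl⟩
    have hℓ1 : (ℓ : ℝ) ≤ ρ / 4 * L := by rw [hℓ]; exact Nat.floor_le (by positivity)
    have hℓ2 : ρ / 4 * L < ℓ + 1 := by rw [hℓ]; exact Nat.lt_floor_add_one _
    have hp : ((0 : ℤ), 2 * (ℓ : ℤ)) ∈ Bx ((0 : ℝ), ρ / 2) r L := by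
      constructor
      · simp only [Int.cast_zero, mul_zero, sub_zero, abs_zero]
        positivity
      · simp only
        push_cast
        rw [abs_le]
        constructor <;> linarith
    obtain ⟨D, hD1, hD2, hD3⟩ := h1 L hLC1 _ hp J
    have m1 := h2 L hLC2 ℓ hℓ1
    have hJ1 : (1 : ℝ) ≤ 2 ^ J := one_le_pow₀ (by norm_num)
    obtain ⟨L', hL'⟩ : ∃ L', L' = 2 ^ J * L := ⟨_, rfl⟩
    have hLL' : L ≤ L' := by rw [hL']; nlinarith
    rw [← hL'] at hD2 hD3 ⊢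
    obtain ⟨R, hR⟩ : ∃ R : Set (ℤ × ℤ), R = rect (ρ / 2 * L) (2 * ℓ) := ⟨_, rfl⟩
    rw [← hR] at m1
    have hRm : ∀ v ∈ R, |(v.1 : ℝ)| ≤ ρ / 2 * L ∧ 0 ≤ v.2 ∧ (v.2 : ℝ) ≤ ρ / 2 * L := by
      intro v hv
      rw [hR] at hv
      refine ⟨hv.1, hv.2.1, ?_⟩
      have : (v.2 : ℝ) ≤ 2 * ℓ := by exact_mod_cast hv.2.2
      linarith
    have hbox : ∀ v ∈ R ∪ D, |(v.1 : ℝ)| ≤ max M ρ * L' ∧ |(v.2 : ℝ)| ≤ max M ρ * L' := by
      rintro v (hv | hv)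
      · obtain ⟨a1, a2, a3⟩ := hRm v hv
        have a4 : (0 : ℝ) ≤ v.2 := by exact_mod_cast a2
        have a5 : ρ / 2 * L ≤ max M ρ * L' := by
          calc ρ / 2 * L ≤ ρ * L' := by nlinarith
            _ ≤ _ := mul_le_mul_of_nonneg_right (le_max_right _ _) (by linarith)
        rw [abs_of_nonneg a4]
        exact ⟨a1.trans a5, a3.trans a5⟩
      · have a5 : M * L' ≤ max M ρ * L' :=
          mul_le_mul_of_nonneg_right (le_max_left _ _) (by linarith)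
        exact ⟨(hD2 v hv).1.trans a5, (hD2 v hv).2.trans a5⟩
    refine ⟨R ∪ D, ⟨R, D, rfl, hRm, hD1⟩, hbox, ?_⟩
    have p1 := m1.trans (ZL_mono (Set.subset_union_left (s := R) (t := D)) _ _)
    have p2 := hD3.trans (ZL_mono (Set.subset_union_right (s := R) (t := D)) _ _)
    have p3 := glue_ge p1 p2 (h3 L' (by linarith) _ hbox _ _ _)
    refine le_trans (ee_mono ?_) p3
    have hlog : Real.log L ^ 2 ≤ Real.log L' ^ 2 :=
      pow_le_pow_left₀ (Real.log_nonneg (by linarith)) (Real.log_le_log hL0 hLL') 2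
    have hl0 : 0 ≤ Real.log L' ^ 2 := by positivity
    have hJ0 : (0 : ℝ) ≤ J := Nat.cast_nonneg _
    have q1 : K2 * Real.log L ^ 2 ≤ K2 * (J + 1) * Real.log L' ^ 2 := by
      calc K2 * Real.log L ^ 2 ≤ K2 * Real.log L' ^ 2 := by gcongr
        _ = K2 * 1 * Real.log L' ^ 2 := by ring
        _ ≤ K2 * (J + 1) * Real.log L' ^ 2 := by gcongr; linarith
    have q2 : K3 * Real.log L' ^ 2 ≤ K3 * (J + 1) * Real.log L' ^ 2 := by
      calc K3 * Real.log L' ^ 2 = K3 * 1 * Real.log L' ^ 2 := by ring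
        _ ≤ K3 * (J + 1) * Real.log L' ^ 2 := by gcongr; linarith
    linarith)
  refine ⟨δ, K, max (max C1 C2) (2 / r), hδ, hK,
    hC1.trans ((le_max_left _ _).trans (le_max_left _ _)), ?_⟩
  intro n hn L hL hLn
  obtain ⟨D, ⟨D1, D2, rfl, hD1, hD2⟩, hD⟩ := h n hn L hL hLn
  exact ⟨D1, D2, hD1, hD2, hD⟩

variable {U : Set (ℝ × ℝ)} {ρ δ L : ℝ} {D1 D2 : Set (ℤ × ℤ)}

/-- the segments of a walk in `D1 ∪ D2` -/
theorem seg_reg (hρ : 0 < ρ) (hρU : ∀ x : ℝ × ℝ, |x.1| < ρ → 0 < x.2 → x.2 < ρ → x ∈ U) (hL0 : 0 < L)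
    (hδ : 0 < δ) (hLδ : 1 / L ≤ δ)
    (hD1 : ∀ v ∈ D1, |(v.1 : ℝ)| ≤ ρ / 2 * L ∧ 0 ≤ v.2 ∧ (v.2 : ℝ) ≤ ρ / 2 * L)
    (hD2 : ∀ v ∈ D2, Metric.closedBall (pt L v) δ ⊆ U) {v w : ℤ × ℤ} (hv : v ∈ D1 ∪ D2)
    (hw : w ∈ D1 ∪ D2) (hvw : |v.1 - w.1| + |v.2 - w.2| = 1) :
    segment ℝ (pt L v) (pt L w) ⊆ Reg U ρ := by
  have hstep : |(v.1 : ℝ) - w.1| + |(v.2 : ℝ) - w.2| = 1 := by exact_mod_cast hvw
  have hd : dist (pt L w) (pt L v) ≤ δ := by
    refine le_trans ?_ hLδ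
    unfold pt
    rw [Prod.dist_eq, Real.dist_eq, Real.dist_eq]
    simp only
    rw [← sub_div, ← sub_div, abs_div, abs_div, abs_of_pos hL0, abs_sub_comm (w.1 : ℝ),
      abs_sub_comm (w.2 : ℝ)]
    have k1 := abs_nonneg ((v.1 : ℝ) - w.1)
    have k2 := abs_nonneg ((v.2 : ℝ) - w.2)
    apply max_le
    · gcongr; linarith
    · gcongr; linarith
  have hball : ∀ x y : ℝ × ℝ, dist y x ≤ δ → Metric.closedBall x δ ⊆ U → segment ℝ x y ⊆ U :=
    fun x y hxy hx => ((convex_closedBall _ _).segment_subset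
      (Metric.mem_closedBall_self hδ.le) hxy).trans hx
  rcases hv with h5 | h5
  · rcases hw with h6 | h6
    · obtain ⟨S, hS⟩ : ∃ S : Set (ℝ × ℝ), S = Set.Icc (-(ρ / 2)) (ρ / 2) ×ˢ Set.Icc 0 (ρ / 2) :=
        ⟨_, rfl⟩
      have hSc : Convex ℝ S := by
        rw [hS]
        exact (convex_Icc _ _).prod (convex_Icc _ _)
      have hmem : ∀ v ∈ D1, pt L v ∈ S := by
        intro v hv
        obtain ⟨a1, a2, a3⟩ := hD1 v hv
        rw [abs_le] at a1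
        have a4 : (0 : ℝ) ≤ v.2 := by exact_mod_cast a2
        rw [hS]
        unfold pt
        refine ⟨⟨?_, ?_⟩, ?_, ?_⟩
        · simp only
          rw [le_div_iff₀ hL0]; linarith
        · simp only
          rw [div_le_iff₀ hL0]; linarith
        · simp only
          positivity
        · simp only
          rw [div_le_iff₀ hL0]; linarith
      refine (hSc.segment_subset (hmem _ h5) (hmem _ h6)).trans ?_
      intro x hx
      rw [hS] at hx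
      obtain ⟨⟨b1, b2⟩, b3, b4⟩ := hx
      have b5 : |x.1| < ρ := by rw [abs_lt]; constructor <;> linarith
      rcases b3.lt_or_eq with b6 | b6
      · exact Or.inl (hρU x b5 b6 (by linarith))
      · exact Or.inr ⟨b5, b6.symm⟩
    · rw [segment_symm]
      exact (hball _ _ (by rw [dist_comm]; exact hd) (hD2 _ h6)).trans Set.subset_union_left
  · exact (hball _ _ hd (hD2 _ h5)).trans Set.subset_union_left

/-- the segments of a walk in `D1 ∪ D2`, shifted up by one step -/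
theorem seg_up (hρ : 0 < ρ) (hρU : ∀ x : ℝ × ℝ, |x.1| < ρ → 0 < x.2 → x.2 < ρ → x ∈ U) (hL0 : 0 < L)
    (hδ : 0 < δ) (hLδ : 2 / L ≤ δ) (hLρ : 1 / L < ρ / 2)
    (hD1 : ∀ v ∈ D1, |(v.1 : ℝ)| ≤ ρ / 2 * L ∧ 0 ≤ v.2 ∧ (v.2 : ℝ) ≤ ρ / 2 * L)
    (hD2 : ∀ v ∈ D2, Metric.closedBall (pt L v) δ ⊆ U) {v w : ℤ × ℤ} (hv : v ∈ D1 ∪ D2)
    (hw : w ∈ D1 ∪ D2) (hvw : |v.1 - w.1| + |v.2 - w.2| = 1) :
    segment ℝ (pt L (v.1, v.2 + 1)) (pt L (w.1, w.2 + 1)) ⊆ U := by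
  have hstep : |(v.1 : ℝ) - w.1| + |(v.2 : ℝ) - w.2| = 1 := by exact_mod_cast hvw
  -- the distances
  have hdist : ∀ a b : ℤ × ℤ, |(a.1 : ℝ) - b.1| + |(a.2 : ℝ) - b.2| ≤ 1 →
      dist (pt L (b.1, b.2 + 1)) (pt L a) ≤ δ := by
    intro a b hab
    refine le_trans ?_ hLδ
    unfold pt
    rw [Prod.dist_eq, Real.dist_eq, Real.dist_eq]
    simp only
    push_cast
    rw [← sub_div, ← sub_div, abs_div, abs_div, abs_of_pos hL0]
    have k1 := abs_nonneg ((a.1 : ℝ) - b.1)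
    have k2 := abs_nonneg ((a.2 : ℝ) - b.2)
    have k3 : |(b.1 : ℝ) - a.1| ≤ 2 := by rw [abs_sub_comm]; linarith
    have k4 : |(b.2 : ℝ) + 1 - a.2| ≤ 2 := by
      have k5 : |(a.2 : ℝ) - b.2| ≤ 1 := by linarith
      rw [abs_le] at k5 ⊢
      constructor <;> linarith
    apply max_le <;> gcongr
  have hball : ∀ x y z : ℝ × ℝ, dist x z ≤ δ → dist y z ≤ δ → Metric.closedBall z δ ⊆ U →
      segment ℝ x y ⊆ U :=
    fun x y z hxz hyz hz => ((convex_closedBall _ _).segment_subset hxz hyz).trans hz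
  rcases hv with h5 | h5
  · rcases hw with h6 | h6
    · obtain ⟨S, hS⟩ : ∃ S : Set (ℝ × ℝ), S = Set.Icc (-(ρ / 2)) (ρ / 2) ×ˢ
        Set.Icc (1 / L) (ρ / 2 + 1 / L) := ⟨_, rfl⟩
      have hSc : Convex ℝ S := by
        rw [hS]
        exact (convex_Icc _ _).prod (convex_Icc _ _)
      have hmem : ∀ v ∈ D1, pt L (v.1, v.2 + 1) ∈ S := by
        intro v hv
        obtain ⟨a1, a2, a3⟩ := hD1 v hv
        rw [abs_le] at a1
        have a4 : (0 : ℝ) ≤ v.2 := by exact_mod_cast a2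
        rw [hS]
        unfold pt
        refine ⟨⟨?_, ?_⟩, ?_, ?_⟩
        · simp only
          rw [le_div_iff₀ hL0]; linarith
        · simp only
          rw [div_le_iff₀ hL0]; linarith
        · simp only
          push_cast
          gcongr
          linarith
        · simp only
          push_cast
          rw [add_div]
          have : (v.2 : ℝ) / L ≤ ρ / 2 := by rw [div_le_iff₀ hL0]; linarith
          linarith
      refine (hSc.segment_subset (hmem _ h5) (hmem _ h6)).trans ?_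
      intro x hx
      rw [hS] at hx
      obtain ⟨⟨b1, b2⟩, b3, b4⟩ := hx
      have b5 : |x.1| < ρ := by rw [abs_lt]; constructor <;> linarith
      have b6 : 0 < 1 / L := by positivity
      exact hρU x b5 (by linarith) (by linarith)
    · exact hball _ _ (pt L w) (hdist w v (by
        rw [abs_sub_comm, abs_sub_comm (w.2 : ℝ)]; exact hstep.le)) (hdist w w (by simp)) (hD2 _ h6)
  · exact hball _ _ (pt L v) (hdist v v (by simp)) (hdist v w hstep.le) (hD2 _ h5)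

end Pool.Agent.V11237.SXT
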