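import Pool.Agent.V11237.SXT.Half2

/-!
Critical walks in a corridor between two points at which the corridor is a half-plane.
-/

set_option autoImplicit false

namespace Pool.Agent.V11237.SXT

open scoped ENNReal Topology
open Pool.Agent.H122R3.HX (ZL TL gw rect)
open Pool.Agent.H122R3.SX (Adj c walks walks_finite ncard_walks)
open Pool.Agent.H122R3.SY (nbr_symm ZL_map)

/-- reversing -/
theorem ZL_rev' (x : ℝ≥0∞) (D : Set (ℤ × ℤ)) (a b : ℤ × ℤ) : ZL Adj x D a b ≤ ZL Adj x D b a := by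
  have hmem : ∀ l ∈ TL Adj D a b, l.reverse ∈ TL Adj D b a := by
    rintro l ⟨h1, h2, h3, h4, h5⟩
    refine ⟨by rw [List.head?_reverse, h2], by rw [List.getLast?_reverse, h1],
      List.nodup_reverse.2 h3, ?_, ?_⟩
    · rw [List.isChain_reverse]
      exact h4.imp (fun a b h => nbr_symm a b h)
    · intro p hp
      exact h5 p (List.mem_reverse.1 hp)
  have hinj : Function.Injective
      (fun l : TL Adj D a b => (⟨l.1.reverse, hmem l.1 l.2⟩ : TL Adj D b a)) := by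
    intro l l' h
    simp only [Subtype.mk.injEq] at h
    exact Subtype.ext (List.reverse_injective h)
  have h1 := ENNReal.tsum_comp_le_tsum_of_injective hinj
    (fun l : TL Adj D b a => x ^ (l.1.length - 1))
  refine le_trans (le_of_eq ?_) h1
  unfold ZL
  congr 1
  funext l
  simp

/-- the half square above `q` -/
def HS (q : ℤ × ℤ) (t : ℝ) : Set (ℤ × ℤ) :=
  {v | |((v.1 : ℝ) - q.1)| ≤ t ∧ q.2 ≤ v.2 ∧ (v.2 : ℝ) - q.2 ≤ t}

/-- **Critical walks in a corridor between two boundary points.** -/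
theorem two_half {U : Set (ℝ × ℝ)} (hU : IsOpen U) (hc : IsPreconnected U) {ρ : ℝ} (hρ : 0 < ρ)
    (b : ℝ × ℝ) (hρU : ∀ x : ℝ × ℝ, |x.1| < ρ → 0 < x.2 → x.2 < ρ → x ∈ U)
    (hbU : ∀ x : ℝ × ℝ, |x.1 - b.1| < ρ → b.2 < x.2 → x.2 < b.2 + ρ → x ∈ U) :
    ∃ Q : Set (ℝ × ℝ), IsCompact Q ∧ Q ⊆ U ∧ ∃ K C : ℝ, 0 ≤ K ∧ 2 ≤ C ∧ ∀ L : ℝ, C ≤ L →
      ∀ q : ℤ × ℤ, |(q.1 : ℝ) - L * b.1| ≤ 2 → |(q.2 : ℝ) - L * b.2| ≤ 2 →
        ee (-(K * Real.log L ^ 2)) ≤
          ZL Adj xe (HS (0, 0) (ρ / 2 * L) ∪ Lat Q L ∪ HS q (ρ / 2 * L)) (0, 0) q := by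
  have h0 : ((0 : ℝ), ρ / 2) ∈ U := hρU _ (by simpa using hρ) (by simp; positivity) (by simp; linarith)
  have hb : (b.1, b.2 + ρ / 2) ∈ U := hbU _ (by simpa using hρ) (by simp; positivity)
    (by simp; linarith)
  obtain ⟨Q, hQ, hQU, r, K1, C1, hr, hK1, hC1, h1⟩ := conn hU hc h0 hb
  obtain ⟨K2, C2, hK2, hC2, h2⟩ := rectR (ε := ρ / 2) (R := ρ / 4) (by positivity) (by positivity)
  obtain ⟨M, hM0, hM⟩ := Lat_box hQ
  obtain ⟨K3, hK3, h3⟩ := gluingR (M + |b.1| + |b.2| + 1 + ρ)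
  refine ⟨Q, hQ, hQU, (K2 + K1 + K3) + K2 + K3, max (max C1 C2) (4 / r), by positivity,
    hC1.trans ((le_max_left _ _).trans (le_max_left _ _)), ?_⟩
  intro L hL q hq1 hq2
  have hLC1 : C1 ≤ L := (le_max_left _ _).trans ((le_max_left _ _).trans hL)
  have hLC2 : C2 ≤ L := (le_max_right _ _).trans ((le_max_left _ _).trans hL)
  have hL2 : 2 ≤ L := hC1.trans hLC1
  have hL0 : 0 < L := by linarith
  have hrL : 4 ≤ r * L := by
    have := (le_max_right (max C1 C2) (4 / r)).trans hL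
    rw [div_le_iff₀ hr] at this
    linarith
  obtain ⟨ℓ, hℓ⟩ : ∃ ℓ : ℕ, ℓ = ⌊ρ / 4 * L⌋₊ := ⟨_, rfl⟩
  have hℓ1 : (ℓ : ℝ) ≤ ρ / 4 * L := by rw [hℓ]; exact Nat.floor_le (by positivity)
  have hℓ2 : ρ / 4 * L < ℓ + 1 := by rw [hℓ]; exact Nat.lt_floor_add_one _
  rw [abs_le] at hq1 hq2
  have hp : ((0 : ℤ), 2 * (ℓ : ℤ)) ∈ Bx ((0 : ℝ), ρ / 2) r L := by
    constructor
    · simp only [Int.cast_zero, mul_zero, sub_zero, abs_zero]
      positivity
    · simp only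
      push_cast
      rw [abs_le]
      constructor <;> linarith
  have hp' : (q.1, q.2 + 2 * (ℓ : ℤ)) ∈ Bx (b.1, b.2 + ρ / 2) r L := by
    constructor
    · simp only
      rw [abs_le]
      constructor <;> linarith
    · simp only
      push_cast
      rw [abs_le]
      constructor <;> nlinarith
  obtain ⟨D, hD⟩ : ∃ D : Set (ℤ × ℤ), D = HS (0, 0) (ρ / 2 * L) ∪ Lat Q L ∪ HS q (ρ / 2 * L) :=
    ⟨_, rfl⟩
  have m0 := h2 L hLC2 ℓ hℓ1
  have s1 : rect (ρ / 2 * L) (2 * ℓ) ⊆ D := by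
    intro v hv
    rw [hD]
    refine Or.inl (Or.inl ⟨?_, hv.2.1, ?_⟩)
    · simpa using hv.1
    · have : (v.2 : ℝ) ≤ 2 * ℓ := by exact_mod_cast hv.2.2
      simp only [Int.cast_zero, sub_zero]
      linarith
  have s2 : Lat Q L ⊆ D := by
    rw [hD]
    exact fun v hv => Or.inl (Or.inr hv)
  have m1 := m0.trans (ZL_mono s1 _ _)
  have m2 := (h1 L hLC1 _ _ hp hp').trans (ZL_mono s2 _ _)
  have m3 : ee (-(K2 * Real.log L ^ 2)) ≤ ZL Adj xe D (q.1, q.2 + 2 * (ℓ : ℤ)) q := by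
    refine m0.trans ?_
    have e1 := ZL_map xe (φ := fun v : ℤ × ℤ => (q.1 + v.1, q.2 + v.2))
      (A := rect (ρ / 2 * L) (2 * ℓ)) (D := D) ?_ ?_ ?_ (0, 0) (0, 2 * ℓ)
    · simp only [add_zero] at e1
      exact e1.trans (ZL_rev' _ _ _ _)
    · intro v v' hv
      simp only [Prod.mk.injEq] at hv
      exact Prod.ext (by omega) (by omega)
    · intro v v' hv
      unfold Adj at *
      simp only [add_sub_add_left_eq_sub]
      exact hv
    · intro v hv
      rw [hD]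
      refine Or.inr ⟨?_, ?_, ?_⟩
      · simp only
        push_cast
        rw [add_sub_cancel_left]
        exact hv.1
      · simp only
        have := hv.2.1
        omega
      · have : (v.2 : ℝ) ≤ 2 * ℓ := by exact_mod_cast hv.2.2
        simp only
        push_cast
        linarith
  have hbox : ∀ v ∈ D, |(v.1 : ℝ)| ≤ (M + |b.1| + |b.2| + 1 + ρ) * L ∧
      |(v.2 : ℝ)| ≤ (M + |b.1| + |b.2| + 1 + ρ) * L := by
    have b1 : L * b.1 ≤ L * |b.1| := mul_le_mul_of_nonneg_left (le_abs_self _) hL0.le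
    have b1' : -(L * |b.1|) ≤ L * b.1 := by
      have := mul_le_mul_of_nonneg_left (neg_abs_le b.1) hL0.le
      linarith
    have b2 : L * b.2 ≤ L * |b.2| := mul_le_mul_of_nonneg_left (le_abs_self _) hL0.le
    have b2' : -(L * |b.2|) ≤ L * b.2 := by
      have := mul_le_mul_of_nonneg_left (neg_abs_le b.2) hL0.le
      linarith
    have b3 : 0 ≤ L * |b.1| := by positivity
    have b4 : 0 ≤ L * |b.2| := by positivity
    have b5 : 0 ≤ M * L := by positivity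
    have b6 : 0 ≤ ρ * L := by positivity
    intro v hv
    rw [hD] at hv
    rcases hv with (⟨k1, k2, k3⟩ | hv) | ⟨k1, k2, k3⟩
    · have k4 : (0 : ℝ) ≤ v.2 := by exact_mod_cast k2
      simp only [Int.cast_zero, sub_zero] at k1 k3
      rw [abs_of_nonneg k4]
      constructor <;> nlinarith
    · have k1 := (hM L hL0 v hv).1
      have k2 := (hM L hL0 v hv).2
      constructor <;> nlinarith
    · have k4 : (q.2 : ℝ) ≤ v.2 := by exact_mod_cast k2
      rw [abs_le] at k1 ⊢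
      rw [abs_le]
      constructor <;> constructor <;> nlinarith
  have m4 := glue_ge m1 m2 (h3 L hL2 D hbox _ _ _)
  have e4 : K2 * Real.log L ^ 2 + K1 * Real.log L ^ 2 + K3 * Real.log L ^ 2 =
      (K2 + K1 + K3) * Real.log L ^ 2 := by ring
  rw [e4] at m4
  have m5 := glue_ge m4 m3 (h3 L hL2 D hbox _ _ _)
  rw [← hD]
  refine le_trans (ee_mono (le_of_eq ?_)) m5
  ring

end Pool.Agent.V11237.SXT
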