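import Pool.Agent.V11237.SXT.Poly

/-!
Two mutually avoiding critical walks along the two halves of a closed corridor.
-/

set_option autoImplicit false

namespace Pool.Agent.V11237.SXT

open scoped ENNReal Topology
open Pool.Agent.H122R3.HX (ZL TL gw rect)
open Pool.Agent.H122R3.SX (Adj c walks walks_finite ncard_walks)
open Pool.Agent.H122R3.SY (nbr_symm ZL_map)

/-- A closed corridor. -/
structure Closed (U₁ U₂ : Set (ℝ × ℝ)) (b : ℝ × ℝ) (ρ : ℝ) : Prop where
  o1 : IsOpen U₁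
  c1 : IsPreconnected U₁
  o2 : IsOpen U₂
  c2 : IsPreconnected U₂
  dis : Disjoint U₁ U₂
  pos : 0 < ρ
  a1 : ∀ x : ℝ × ℝ, |x.1| < ρ → 0 < x.2 → x.2 < ρ → x ∈ U₁
  a2 : ∀ x : ℝ × ℝ, |x.1| < ρ → -ρ < x.2 → x.2 < 0 → x ∈ U₂
  b1 : ∀ x : ℝ × ℝ, |x.1 - b.1| < ρ → b.2 < x.2 → x.2 < b.2 + ρ → x ∈ U₁
  b2 : ∀ x : ℝ × ℝ, |x.1 - b.1| < ρ → b.2 - ρ < x.2 → x.2 < b.2 → x ∈ U₂

theorem thick {Q U : Set (ℝ × ℝ)} (hQ : IsCompact Q) (hU : IsOpen U) (hQU : Q ⊆ U) :
    ∃ δ : ℝ, 0 < δ ∧ ∀ x ∈ Q, Metric.closedBall x δ ⊆ U := by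
  obtain ⟨δ, hδ, h⟩ := hQ.exists_cthickening_subset_open hU hQU
  refine ⟨δ, hδ, fun x hx => ?_⟩
  exact (Metric.closedBall_subset_cthickening hx δ).trans h

theorem dist_pt {L : ℝ} (hL : 0 < L) (v : ℤ × ℤ) (z : ℝ × ℝ) (r : ℝ)
    (h1 : |(v.1 : ℝ) - L * z.1| ≤ r * L) (h2 : |(v.2 : ℝ) - L * z.2| ≤ r * L) :
    dist (pt L v) z ≤ r := by
  have key : ∀ x y : ℝ, |x - L * y| ≤ r * L → |x / L - y| ≤ r := by
    intro x y h
    have e : x / L - y = (x - L * y) / L := by field_simp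
    rw [e, abs_div, abs_of_pos hL, div_le_iff₀ hL]
    exact h
  unfold pt
  rw [Prod.dist_eq, Real.dist_eq, Real.dist_eq]
  exact max_le (key _ _ h1) (key _ _ h2)

theorem ball_aux {z : ℝ × ℝ} {L ρ r : ℝ} {v : ℤ × ℤ} (h : dist (pt L v) z ≤ r) (h2 : r + 1 / L < ρ) :
    Metric.closedBall (pt L v) (1 / L) ⊆ Metric.ball z ρ := by
  intro x hx
  rw [Metric.mem_closedBall] at hx
  rw [Metric.mem_ball]
  calc dist x z ≤ dist x (pt L v) + dist (pt L v) z := dist_triangle _ _ _
    _ < ρ := by linarith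

/-- the sets -/
theorem closed_sets {U₁ U₂ : Set (ℝ × ℝ)} {b : ℝ × ℝ} {ρ : ℝ} (h : Closed U₁ U₂ b ρ) :
    ∃ K C M : ℝ, 0 ≤ K ∧ 2 ≤ C ∧ 0 ≤ M ∧ ∀ L : ℝ, C ≤ L → ∃ (D E : Set (ℤ × ℤ)) (q : ℤ × ℤ),
      (q.1 = ⌊L * b.1⌋ ∧ q.2 = ⌊L * b.2⌋) ∧ Disjoint D E ∧
      (∀ v ∈ D ∪ E, |(v.1 : ℝ)| ≤ M * L ∧ |(v.2 : ℝ)| ≤ M * L) ∧
      (∀ v ∈ D, Metric.closedBall (pt L v) (1 / L) ⊆ U₁ ∪ Metric.ball 0 ρ ∪ Metric.ball b ρ) ∧
      (∀ v ∈ E, Metric.closedBall (pt L v) (1 / L) ⊆ U₂ ∪ Metric.ball 0 ρ ∪ Metric.ball b ρ) ∧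
      dist (pt L q) b ≤ 1 / L ∧ 2 / L < ρ ∧
      ee (-(K * Real.log L ^ 2)) ≤ ZL Adj xe D (0, 0) q ∧
      ee (-(K * Real.log L ^ 2)) ≤ ZL Adj xe E (q.1, q.2 - 1) (0, -1) := by
  have hρ := h.pos
  obtain ⟨Q1, hQ1, hQU1, K1, C1, hK1, hC1, h1⟩ := two_half h.o1 h.c1 hρ b h.a1 h.b1
  -- the reflected lower part
  obtain ⟨U', hU'⟩ : ∃ U' : Set (ℝ × ℝ), U' = (fun x : ℝ × ℝ => (x.1, -x.2)) ⁻¹' U₂ := ⟨_, rfl⟩
  have hrc : Continuous (fun x : ℝ × ℝ => (x.1, -x.2)) := by fun_prop
  have o' : IsOpen U' := by rw [hU']; exact h.o2.preimage hrc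
  have c' : IsPreconnected U' := by
    have e : U' = (fun x : ℝ × ℝ => (x.1, -x.2)) '' U₂ := by
      rw [hU']
      ext x
      constructor
      · intro hx
        exact ⟨(x.1, -x.2), hx, by simp⟩
      · rintro ⟨y, hy, rfl⟩
        simpa using hy
    rw [e]
    exact h.c2.image _ hrc.continuousOn
  have a' : ∀ x : ℝ × ℝ, |x.1| < ρ → 0 < x.2 → x.2 < ρ → x ∈ U' := by
    intro x k1 k2 k3
    rw [hU']
    exact h.a2 _ k1 (by simp only; linarith) (by simp only; linarith)
  have b' : ∀ x : ℝ × ℝ, |x.1 - b.1| < ρ → -b.2 < x.2 → x.2 < -b.2 + ρ → x ∈ U' := by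
    intro x k1 k2 k3
    rw [hU']
    exact h.b2 _ k1 (by simp only; linarith) (by simp only; linarith)
  obtain ⟨Q2, hQ2, hQU2, K2, C2, hK2, hC2, h2⟩ := two_half o' c' hρ (b.1, -b.2) a' b'
  obtain ⟨δ1, hδ1, hd1⟩ := thick hQ1 h.o1 hQU1
  obtain ⟨δ2, hδ2, hd2⟩ := thick hQ2 o' hQU2
  obtain ⟨M1, hM10, hM1⟩ := Lat_box hQ1
  obtain ⟨M2, hM20, hM2⟩ := Lat_box hQ2
  refine ⟨max K1 K2, max (max C1 C2) (max (1 / δ1) (max (2 / δ2) (8 / ρ))),
    M1 + M2 + |b.1| + |b.2| + 2 + ρ, le_max_of_le_left hK1,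
    hC1.trans ((le_max_left _ _).trans (le_max_left _ _)), by positivity, ?_⟩
  intro L hL
  have hLC1 : C1 ≤ L := (le_max_left _ _).trans ((le_max_left _ _).trans hL)
  have hLC2 : C2 ≤ L := (le_max_right _ _).trans ((le_max_left _ _).trans hL)
  have hL2 : 2 ≤ L := hC1.trans hLC1
  have hL0 : 0 < L := by linarith
  have hLd1 : 1 / L ≤ δ1 := by
    have := ((le_max_left (1 / δ1) _).trans (le_max_right (max C1 C2) _)).trans hL
    rw [div_le_iff₀ hδ1] at this
    rw [div_le_iff₀ hL0]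
    linarith
  have hLd2' : 2 / L ≤ δ2 := by
    have := ((le_max_left (2 / δ2) (8 / ρ)).trans ((le_max_right (1 / δ1) _).trans
      (le_max_right (max C1 C2) _))).trans hL
    rw [div_le_iff₀ hδ2] at this
    rw [div_le_iff₀ hL0]
    linarith
  have hLd2 : 1 / L ≤ δ2 := by
    refine le_trans ?_ hLd2'
    gcongr
    norm_num
  have hLρ : 8 ≤ ρ * L := by
    have := ((le_max_right (2 / δ2) (8 / ρ)).trans ((le_max_right (1 / δ1) _).trans
      (le_max_right (max C1 C2) _))).trans hL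
    rw [div_le_iff₀ hρ] at this
    linarith
  have h1L : 1 / L ≤ ρ / 8 := by
    rw [div_le_iff₀ hL0]
    linarith
  obtain ⟨q, hq⟩ : ∃ q : ℤ × ℤ, q = (⌊L * b.1⌋, ⌊L * b.2⌋) := ⟨_, rfl⟩
  have f1 : (q.1 : ℝ) ≤ L * b.1 := by rw [hq]; exact Int.floor_le _
  have f2 : L * b.1 < q.1 + 1 := by rw [hq]; exact Int.lt_floor_add_one _
  have f3 : (q.2 : ℝ) ≤ L * b.2 := by rw [hq]; exact Int.floor_le _
  have f4 : L * b.2 < q.2 + 1 := by rw [hq]; exact Int.lt_floor_add_one _
  obtain ⟨t, ht⟩ : ∃ t : ℝ, t = ρ / 2 * L := ⟨_, rfl⟩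
  obtain ⟨D, hD⟩ : ∃ D : Set (ℤ × ℤ), D = HS (0, 0) t ∪ Lat Q1 L ∪ HS q t := ⟨_, rfl⟩
  obtain ⟨D', hD'⟩ : ∃ D' : Set (ℤ × ℤ), D' = HS (0, 0) t ∪ Lat Q2 L ∪ HS (q.1, -q.2) t := ⟨_, rfl⟩
  have g1 := h1 L hLC1 q (by rw [abs_le]; constructor <;> linarith)
    (by rw [abs_le]; constructor <;> linarith)
  have g2 := h2 L hLC2 (q.1, -q.2) (by simp only; rw [abs_le]; constructor <;> linarith)
    (by simp only; push_cast; rw [abs_le]; constructor <;> nlinarith)
  rw [← ht, ← hD] at g1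
  rw [← ht, ← hD'] at g2
  obtain ⟨s, hs⟩ : ∃ s : ℝ, s = (L * b.2 - q.2 + 1) / 2 := ⟨_, rfl⟩
  have s1 : 1 / 2 ≤ s := by rw [hs]; linarith
  have s2 : s < 1 := by rw [hs]; linarith
  have s3 : L * b.2 < q.2 + s := by rw [hs]; linarith
  have s4 : (q.2 : ℝ) - 1 + s < L * b.2 := by linarith
  -- the shift
  let Φ : ℤ × ℤ → ℝ × ℝ := fun v => ((v.1 : ℝ) / L, ((v.2 : ℝ) + s) / L)
  have hΦ1 : ∀ v ∈ D, Φ v ∈ U₁ := by
    intro v hv
    rw [hD] at hv
    rcases hv with (⟨k1, k2, k3⟩ | hv) | ⟨k1, k2, k3⟩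
    · have k4 : (0 : ℝ) ≤ v.2 := by exact_mod_cast k2
      simp only [Int.cast_zero, sub_zero] at k1 k3
      apply h.a1
      · simp only [Φ]
        rw [abs_div, abs_of_pos hL0, div_lt_iff₀ hL0]
        nlinarith
      · simp only [Φ]
        apply div_pos _ hL0
        linarith
      · simp only [Φ]
        rw [div_lt_iff₀ hL0]
        nlinarith
    · apply hd1 _ hv
      rw [Metric.mem_closedBall]
      refine le_trans ?_ hLd1
      rw [Prod.dist_eq, Real.dist_eq, Real.dist_eq]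
      simp only [Φ]
      apply max_le
      · rw [sub_self, abs_zero]
        positivity
      · rw [← sub_div, add_sub_cancel_left, abs_div, abs_of_pos hL0,
          abs_of_nonneg (by linarith : 0 ≤ s)]
        gcongr
    · have k4 : (q.2 : ℝ) ≤ v.2 := by exact_mod_cast k2
      rw [abs_le] at k1
      apply h.b1
      · simp only [Φ]
        have e : (v.1 : ℝ) / L - b.1 = (v.1 - L * b.1) / L := by field_simp
        rw [e, abs_div, abs_of_pos hL0, div_lt_iff₀ hL0, abs_lt]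
        constructor <;> nlinarith
      · simp only [Φ]
        rw [lt_div_iff₀ hL0]
        nlinarith
      · simp only [Φ]
        rw [div_lt_iff₀ hL0]
        nlinarith
  have hΦ2 : ∀ v : ℤ × ℤ, (v.1, -v.2 - 1) ∈ D' → Φ v ∈ U₂ := by
    intro v hv
    rw [hD'] at hv
    rcases hv with (⟨k1, k2, k3⟩ | hv) | ⟨k1, k2, k3⟩
    · simp only at k1 k2 k3
      push_cast at k1 k3
      rw [sub_zero] at k1 k3
      have k4 : (v.2 : ℝ) ≤ -1 := by
        have : v.2 ≤ -1 := by omega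
        exact_mod_cast this
      apply h.a2
      · simp only [Φ]
        rw [abs_div, abs_of_pos hL0, div_lt_iff₀ hL0]
        nlinarith
      · simp only [Φ]
        rw [lt_div_iff₀ hL0]
        nlinarith
      · simp only [Φ]
        apply div_neg_of_neg_of_pos _ hL0
        linarith
    · have k1 : ((v.1 : ℝ) / L, -(((v.2 : ℝ) + s) / L)) ∈ U' := by
        apply hd2 _ hv
        rw [Metric.mem_closedBall]
        refine le_trans ?_ hLd2
        rw [Prod.dist_eq, Real.dist_eq, Real.dist_eq]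
        simp only
        push_cast
        apply max_le
        · rw [sub_self, abs_zero]
          positivity
        · rw [← neg_div, ← sub_div, abs_div, abs_of_pos hL0]
          have e : -((v.2 : ℝ) + s) - (-v.2 - 1) = 1 - s := by ring
          rw [e, abs_of_nonneg (by linarith : 0 ≤ 1 - s)]
          gcongr
          linarith
      rw [hU'] at k1
      simp only [Set.mem_preimage, neg_neg] at k1
      exact k1
    · simp only at k1 k2 k3
      push_cast at k3
      have k4 : (v.2 : ℝ) ≤ q.2 - 1 := by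
        have : v.2 ≤ q.2 - 1 := by omega
        exact_mod_cast this
      rw [abs_le] at k1
      apply h.b2
      · simp only [Φ]
        have e : (v.1 : ℝ) / L - b.1 = (v.1 - L * b.1) / L := by field_simp
        rw [e, abs_div, abs_of_pos hL0, div_lt_iff₀ hL0, abs_lt]
        constructor <;> nlinarith
      · simp only [Φ]
        rw [lt_div_iff₀ hL0]
        nlinarith
      · simp only [Φ]
        rw [div_lt_iff₀ hL0]
        nlinarith
  obtain ⟨E, hE⟩ : ∃ E : Set (ℤ × ℤ), E = {v | (v.1, -v.2 - 1) ∈ D'} := ⟨_, rfl⟩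
  have hqb : dist (pt L q) b ≤ 1 / L := by
    apply dist_pt hL0
    · rw [one_div, inv_mul_cancel₀ hL0.ne', abs_le]
      constructor <;> linarith
    · rw [one_div, inv_mul_cancel₀ hL0.ne', abs_le]
      constructor <;> linarith
  have b1 : L * b.1 ≤ L * |b.1| := mul_le_mul_of_nonneg_left (le_abs_self _) hL0.le
  have b1' : -(L * |b.1|) ≤ L * b.1 := by
    have := mul_le_mul_of_nonneg_left (neg_abs_le b.1) hL0.le
    linarith
  have b2 : L * b.2 ≤ L * |b.2| := mul_le_mul_of_nonneg_left (le_abs_self _) hL0.le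
  have b2' : -(L * |b.2|) ≤ L * b.2 := by
    have := mul_le_mul_of_nonneg_left (neg_abs_le b.2) hL0.le
    linarith
  have b3 : 0 ≤ L * |b.1| := by positivity
  have b4 : 0 ≤ L * |b.2| := by positivity
  have b5 : 0 ≤ M1 * L := by positivity
  have b6 : 0 ≤ M2 * L := by positivity
  have b7 : 0 ≤ ρ * L := by positivity
  have hE' : ∀ v ∈ E, (v.1, -v.2 - 1) ∈ D' := by
    intro v hv
    rw [hE] at hv
    exact hv
  refine ⟨D, E, q, by rw [hq]; exact ⟨rfl, rfl⟩, ?_, ?_, ?_, ?_, hqb, ?_, ?_, ?_⟩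
  · rw [Set.disjoint_left]
    intro v hv hv'
    exact (Set.disjoint_left.1 h.dis) (hΦ1 v hv) (hΦ2 v (hE' v hv'))
  · rintro v (hv | hv)
    · rw [hD] at hv
      rcases hv with (⟨k1, k2, k3⟩ | hv) | ⟨k1, k2, k3⟩
      · have k4 : (0 : ℝ) ≤ v.2 := by exact_mod_cast k2
        simp only [Int.cast_zero, sub_zero] at k1 k3
        rw [abs_of_nonneg k4]
        constructor <;> nlinarith
      · have k1 := (hM1 L hL0 v hv).1
        have k2 := (hM1 L hL0 v hv).2
        constructor <;> nlinarith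
      · have k4 : (q.2 : ℝ) ≤ v.2 := by exact_mod_cast k2
        rw [abs_le] at k1 ⊢
        rw [abs_le]
        constructor <;> constructor <;> nlinarith
    · have hv := hE' v hv
      rw [hD'] at hv
      rcases hv with (⟨k1, k2, k3⟩ | hv) | ⟨k1, k2, k3⟩
      · simp only at k1 k2 k3
        push_cast at k1 k3
        rw [sub_zero] at k1 k3
        have k4 : (v.2 : ℝ) ≤ -1 := by
          have : v.2 ≤ -1 := by omega
          exact_mod_cast this
        refine ⟨by nlinarith, ?_⟩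
        rw [abs_le]
        constructor <;> nlinarith
      · have k1 := (hM2 L hL0 _ hv).1
        have k2 := (hM2 L hL0 _ hv).2
        simp only at k1 k2
        push_cast at k2
        rw [abs_le] at k2
        refine ⟨by nlinarith, ?_⟩
        rw [abs_le]
        constructor <;> nlinarith
      · simp only at k1 k2 k3
        push_cast at k3
        have k4 : (v.2 : ℝ) ≤ q.2 - 1 := by
          have : v.2 ≤ q.2 - 1 := by omega
          exact_mod_cast this
        rw [abs_le] at k1 ⊢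
        rw [abs_le]
        constructor <;> constructor <;> nlinarith
  · intro v hv
    rw [hD] at hv
    rcases hv with (⟨k1, k2, k3⟩ | hv) | ⟨k1, k2, k3⟩
    · have k4 : (0 : ℝ) ≤ v.2 := by exact_mod_cast k2
      simp only [Int.cast_zero, sub_zero] at k1 k3
      have e := dist_pt hL0 v 0 (ρ / 2) (by simp only [Prod.fst_zero, mul_zero, sub_zero]; linarith)
        (by simp only [Prod.snd_zero, mul_zero, sub_zero]; rw [abs_of_nonneg k4]; linarith)
      exact fun x hx => Or.inl (Or.inr (ball_aux e (by linarith) hx))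
    · exact fun x hx => Or.inl (Or.inl (hd1 _ hv (Metric.closedBall_subset_closedBall hLd1 hx)))
    · have k4 : (q.2 : ℝ) ≤ v.2 := by exact_mod_cast k2
      rw [abs_le] at k1
      have e := dist_pt hL0 v b (ρ * (3 / 4)) (by rw [abs_le]; constructor <;> nlinarith)
        (by rw [abs_le]; constructor <;> nlinarith)
      exact fun x hx => Or.inr (ball_aux e (by linarith) hx)
  · intro v hv
    have hv := hE' v hv
    rw [hD'] at hv
    rcases hv with (⟨k1, k2, k3⟩ | hv) | ⟨k1, k2, k3⟩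
    · simp only at k1 k2 k3
      push_cast at k1 k3
      rw [sub_zero] at k1 k3
      have k4 : (v.2 : ℝ) ≤ -1 := by
        have : v.2 ≤ -1 := by omega
        exact_mod_cast this
      have e := dist_pt hL0 v 0 (ρ * (3 / 4))
        (by simp only [Prod.fst_zero, mul_zero, sub_zero]; nlinarith)
        (by simp only [Prod.snd_zero, mul_zero, sub_zero]; rw [abs_le]; constructor <;> nlinarith)
      exact fun x hx => Or.inl (Or.inr (ball_aux e (by linarith) hx))
    · refine fun x hx => Or.inl (Or.inl ?_)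
      have k1 : (x.1, -x.2) ∈ U' := by
        have hx' := hx
        rw [Metric.mem_closedBall, Prod.dist_eq, Real.dist_eq, Real.dist_eq, max_le_iff] at hx'
        obtain ⟨x1, x2⟩ := hx'
        unfold pt at x1 x2
        simp only at x1 x2
        apply hd2 _ hv
        rw [Metric.mem_closedBall]
        refine le_trans ?_ hLd2'
        have h1L0 : 0 ≤ 1 / L := by positivity
        have h2L : 2 / L = 1 / L + 1 / L := by ring
        rw [Prod.dist_eq, Real.dist_eq, Real.dist_eq, h2L]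
        simp only
        push_cast
        apply max_le
        · linarith
        · have e : -x.2 - (-(v.2 : ℝ) - 1) / L = -(x.2 - v.2 / L) + 1 / L := by ring
          rw [e]
          refine (abs_add_le _ _).trans ?_
          rw [abs_neg, abs_of_nonneg h1L0]
          linarith
      rw [hU'] at k1
      simpa using k1
    · simp only at k1 k2 k3
      push_cast at k3
      have k4 : (v.2 : ℝ) ≤ q.2 - 1 := by
        have : v.2 ≤ q.2 - 1 := by omega
        exact_mod_cast this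
      rw [abs_le] at k1
      have e := dist_pt hL0 v b (ρ * (3 / 4)) (by rw [abs_le]; constructor <;> nlinarith)
        (by rw [abs_le]; constructor <;> nlinarith)
      exact fun x hx => Or.inr (ball_aux e (by linarith) hx)
  · rw [div_lt_iff₀ hL0]
    linarith
  · refine le_trans (ee_mono ?_) g1
    have : 0 ≤ Real.log L ^ 2 := by positivity
    nlinarith [le_max_left K1 K2]
  · have e1 := ZL_map xe (φ := fun v : ℤ × ℤ => (v.1, -v.2 - 1)) (A := D') (D := E) ?_ ?_ ?_ (0, 0)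
      (q.1, -q.2)
    · simp only [neg_zero, zero_sub, neg_neg] at e1
      refine le_trans (le_trans (ee_mono ?_) g2) (e1.trans (ZL_rev' _ _ _ _))
      have : 0 ≤ Real.log L ^ 2 := by positivity
      nlinarith [le_max_right K1 K2]
    · intro v v' hv
      simp only [Prod.mk.injEq] at hv
      exact Prod.ext (by omega) (by omega)
    · intro v v' hv
      unfold Adj at *
      simp only
      rw [show -v.2 - 1 - (-v'.2 - 1) = -(v.2 - v'.2) by ring, abs_neg]
      exact hv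
    · intro v hv
      rw [hE]
      show (v.1, -(-v.2 - 1) - 1) ∈ D'
      rw [show -(-v.2 - 1) - 1 = v.2 by ring]
      exact hv

end Pool.Agent.V11237.SXT
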