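import Pool.Agent.V11237.SXT.Poly2

/-!
Loops from two mutually avoiding walks.
-/

set_option autoImplicit false

namespace Pool.Agent.V11237.SXT

open scoped ENNReal Topology
open Pool.Agent.H122R3.HX (ZL TL gw rect)
open Pool.Agent.H122R3.SX (Adj c walks walks_finite ncard_walks)
open Pool.Agent.H122R3.SY (nbr_symm ZL_map)

/-- a closed nearest-neighbour loop on `ℤ²` with `m` steps, rooted at the origin and oriented,
that visits no vertex twice -/
def IsLoop (m : ℕ) (f : ZMod m → ℤ × ℤ) : Prop :=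
  f 0 = 0 ∧ Function.Injective f ∧
    ∀ i : ZMod m, |(f (i + 1)).1 - (f i).1| + |(f (i + 1)).2 - (f i).2| = 1

/-- the loop of a list -/
def toLoop (m : ℕ) (l : List (ℤ × ℤ)) : ZMod m → ℤ × ℤ := fun k => l.getD k.val (0, 0)

theorem toLoop_cast {m : ℕ} {l : List (ℤ × ℤ)} (hl : l.length = m) {k : ℕ} (hk : k < m) :
    toLoop m l (k : ZMod m) = l[k]'(by omega) := by
  unfold toLoop
  rw [ZMod.val_natCast_of_lt hk, List.getD_eq_getElem _ _ (by omega)]

theorem toLoop_isLoop {m : ℕ} (hm : 2 ≤ m) {l : List (ℤ × ℤ)} (hl : l.length = m)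
    (h0 : l.head? = some (0, 0)) (hn : l.Nodup) (hc : l.IsChain Adj)
    (hlast : l.getLast? = some (0, -1)) : IsLoop m (toLoop m l) := by
  haveI : NeZero m := ⟨by omega⟩
  have e0 : toLoop m l 0 = (0, 0) := by
    have := toLoop_cast hl (k := 0) (by omega)
    rw [Nat.cast_zero] at this
    rw [this]
    rw [List.head?_eq_getElem?, List.getElem?_eq_getElem (by omega)] at h0
    exact Option.some.inj h0
  refine ⟨e0, ?_, ?_⟩
  · intro i j hij
    unfold toLoop at hij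
    have hi := ZMod.val_lt i
    have hj := ZMod.val_lt j
    rw [List.getD_eq_getElem _ _ (by omega), List.getD_eq_getElem _ _ (by omega)] at hij
    exact ZMod.val_injective m ((hn.getElem_inj_iff).1 hij)
  · intro i
    have hi := ZMod.val_lt i
    obtain ⟨k, hk⟩ : ∃ k : ℕ, k = i.val := ⟨_, rfl⟩
    have hik : i = (k : ZMod m) := by rw [hk, ZMod.natCast_zmod_val]
    have hkm : k < m := by omega
    rw [hik, ← Nat.cast_succ, toLoop_cast hl hkm]
    rcases Nat.lt_or_ge (k + 1) m with h | h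
    · rw [Nat.succ_eq_add_one, toLoop_cast hl h]
      rw [List.isChain_iff_getElem] at hc
      have h2 := hc k (by omega)
      unfold Adj at h2
      rw [abs_sub_comm, abs_sub_comm (l[k + 1]).2]
      exact h2
    · have e1 : k + 1 = m := by omega
      rw [Nat.succ_eq_add_one, e1, ZMod.natCast_self, e0]
      have e2 : l[k]'(by omega) = (0, -1) := by
        rw [List.getLast?_eq_getElem?, List.getElem?_eq_getElem (by omega)] at hlast
        have := Option.some.inj hlast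
        rw [← this]
        congr 1
        omega
      rw [e2]
      simp

theorem loops_card {m : ℕ} (hm : 1 ≤ m) : {f : ZMod m → ℤ × ℤ | IsLoop m f}.Finite ∧
    {f : ZMod m → ℤ × ℤ | IsLoop m f}.ncard ≤ c (m - 1) := by
  haveI : NeZero m := ⟨by omega⟩
  have hmap : Set.MapsTo (fun (f : ZMod m → ℤ × ℤ) (k : Fin (m - 1 + 1)) => f ((k : ℕ) : ZMod m))
      {f : ZMod m → ℤ × ℤ | IsLoop m f} (walks (m - 1)) := by
    rintro f ⟨h1, h2, h3⟩
    refine ⟨?_, ?_, ?_⟩
    · simp only [Fin.val_zero, Nat.cast_zero]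
      exact h1
    · intro i j hij
      have hi := i.2
      have hj := j.2
      have h4 := congrArg ZMod.val (h2 hij)
      rw [ZMod.val_natCast_of_lt (by omega), ZMod.val_natCast_of_lt (by omega)] at h4
      exact Fin.ext h4
    · intro i
      have h4 := h3 ((i : ℕ) : ZMod m)
      unfold Adj
      simp only [Fin.val_castSucc, Fin.val_succ, Nat.cast_add, Nat.cast_one]
      rw [abs_sub_comm, abs_sub_comm (f ((i : ℕ) : ZMod m)).2]
      exact h4
  have hinj : Set.InjOn (fun (f : ZMod m → ℤ × ℤ) (k : Fin (m - 1 + 1)) => f ((k : ℕ) : ZMod m))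
      {f : ZMod m → ℤ × ℤ | IsLoop m f} := by
    intro f _ g _ h
    funext i
    have hi := ZMod.val_lt i
    have h1 := congrFun h ⟨i.val, by omega⟩
    simpa using h1
  constructor
  · exact Set.Finite.of_injOn hmap hinj (walks_finite _)
  · rw [← ncard_walks]
    exact Set.ncard_le_ncard_of_injOn _ hmap hinj (walks_finite _)

/-- **the weight of the pairs of walks is bounded by the weight of the loops** -/
theorem sum_loops {D E : Set (ℤ × ℤ)} {q : ℤ × ℤ} (hDE : Disjoint D E) {N M0 : ℕ}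
    (hN : ∀ l : List (ℤ × ℤ), l.Nodup → (∀ p ∈ l, p ∈ D ∪ E) → l.length ≤ N)
    (P : (m : ℕ) → (ZMod m → ℤ × ℤ) → Prop)
    (hP : ∀ l₁ ∈ TL Adj D (0, 0) q, ∀ l₂ ∈ TL Adj E (q.1, q.2 - 1) (0, -1),
      P (l₁ ++ l₂).length (toLoop (l₁ ++ l₂).length (l₁ ++ l₂)))
    (hM0 : ∀ l ∈ TL Adj D (0, 0) q, M0 ≤ l.length) :
    ZL Adj xe D (0, 0) q * ZL Adj xe E (q.1, q.2 - 1) (0, -1) * xe ^ 2 ≤
      ∑ m ∈ Finset.Icc (max 2 M0) N,
        ({f : ZMod m → ℤ × ℤ | IsLoop m f ∧ P m f}.ncard : ℝ≥0∞) * xe ^ m := by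
  classical
  let 𝓛 : ℕ → Set (List (ℤ × ℤ)) := fun m => {l | l.length = m ∧
    ∃ l₁ ∈ TL Adj D (0, 0) q, ∃ l₂ ∈ TL Adj E (q.1, q.2 - 1) (0, -1), l = l₁ ++ l₂}
  let A := TL Adj D (0, 0) q
  let B := TL Adj E (q.1, q.2 - 1) (0, -1)
  have hfil : ∀ l₁ ∈ A, ∀ l₂ ∈ B, (l₁ ++ l₂).filter (fun p => decide (p ∈ D)) = l₁ := by
    intro l₁ h1 l₂ h2
    rw [List.filter_append, List.filter_eq_self.2, List.filter_eq_nil_iff.2, List.append_nil]
    · intro p hp
      simp only [decide_eq_true_eq]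
      exact fun h => (Set.disjoint_left.1 hDE) h (h2.2.2.2.2 p hp)
    · intro p hp
      simp only [decide_eq_true_eq]
      exact h1.2.2.2.2 p hp
  have hne : ∀ l₁ ∈ A, ∀ l₂ ∈ B, 1 ≤ l₁.length ∧ 1 ≤ l₂.length := by
    intro l₁ h1 l₂ h2
    constructor
    · rcases l₁ with _ | ⟨a, l⟩
      · have := h1.1
        simp at this
      · simp
    · rcases l₂ with _ | ⟨a, l⟩
      · have := h2.1
        simp at this
      · simp
  have hloop : ∀ l₁ ∈ A, ∀ l₂ ∈ B, (l₁ ++ l₂).head? = some (0, 0) ∧ (l₁ ++ l₂).Nodup ∧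
      (l₁ ++ l₂).IsChain Adj ∧ (l₁ ++ l₂).getLast? = some (0, -1) ∧
      (∀ p ∈ l₁ ++ l₂, p ∈ D ∪ E) := by
    intro l₁ h1 l₂ h2
    obtain ⟨n1, n2⟩ := hne l₁ h1 l₂ h2
    obtain ⟨a1, a2, a3, a4, a5⟩ := h1
    obtain ⟨b1, b2, b3, b4, b5⟩ := h2
    refine ⟨?_, ?_, ?_, ?_, ?_⟩
    · rw [List.head?_append, a1]
      rfl
    · rw [List.nodup_append]
      refine ⟨a3, b3, ?_⟩
      intro x hx y hy hxy
      subst hxy
      exact (Set.disjoint_left.1 hDE) (a5 x hx) (b5 x hy)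
    · rw [List.isChain_append]
      refine ⟨a4, b4, ?_⟩
      intro x hx y hy
      rw [a2] at hx
      rw [b1] at hy
      simp only [Option.mem_def, Option.some.injEq] at hx hy
      rw [← hx, ← hy]
      unfold Adj
      simp
    · rw [List.getLast?_append, b2]
      rfl
    · intro p hp
      rw [List.mem_append] at hp
      rcases hp with hp | hp
      · exact Or.inl (a5 p hp)
      · exact Or.inr (b5 p hp)
  have hlen : ∀ l₁ ∈ A, ∀ l₂ ∈ B, (l₁ ++ l₂).length ∈ Finset.Icc (max 2 M0) N := by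
    intro l₁ h1 l₂ h2
    obtain ⟨n1, n2⟩ := hne l₁ h1 l₂ h2
    have n3 := hM0 l₁ h1
    obtain ⟨-, d2, -, -, d5⟩ := hloop l₁ h1 l₂ h2
    have n4 := hN _ d2 d5
    rw [Finset.mem_Icc]
    refine ⟨?_, n4⟩
    rw [List.length_append]
    omega
  -- the weight
  let w : ℕ → List (ℤ × ℤ) → ℝ≥0∞ := fun m => (𝓛 m).indicator (fun _ => xe ^ m)
  have hΦ : Function.Injective (fun z : A × B => z.1.1 ++ z.2.1) := by
    rintro ⟨⟨l₁, h1⟩, ⟨l₂, h2⟩⟩ ⟨⟨l₁', h1'⟩, ⟨l₂', h2'⟩⟩ h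
    simp only at h
    have e1 : l₁ = l₁' := by
      rw [← hfil l₁ h1 l₂ h2, h, hfil l₁' h1' l₂' h2']
    subst e1
    have e2 := List.append_cancel_left h
    subst e2
    rfl
  have s1 : ZL Adj xe D (0, 0) q * ZL Adj xe E (q.1, q.2 - 1) (0, -1) * xe ^ 2 =
      ∑' z : A × B, xe ^ (z.1.1 ++ z.2.1).length := by
    unfold ZL
    rw [← ENNReal.tsum_mul_right, ← ENNReal.tsum_mul_right,
      ENNReal.tsum_prod (f := fun (a : A) (b : B) => xe ^ (a.1 ++ b.1).length)]
    congr 1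
    funext a
    rw [← ENNReal.tsum_mul_left, ← ENNReal.tsum_mul_right]
    congr 1
    funext b
    obtain ⟨n1, n2⟩ := hne a.1 a.2 b.1 b.2
    rw [← pow_add, ← pow_add, List.length_append]
    congr 1
    omega
  have s2 : ∑' z : A × B, xe ^ (z.1.1 ++ z.2.1).length ≤
      ∑' l : List (ℤ × ℤ), ∑ m ∈ Finset.Icc (max 2 M0) N, w m l := by
    refine le_trans (ENNReal.tsum_le_tsum fun z => ?_)
      (ENNReal.tsum_comp_le_tsum_of_injective hΦ
        (fun l => ∑ m ∈ Finset.Icc (max 2 M0) N, w m l))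
    have h1 := hlen z.1.1 z.1.2 z.2.1 z.2.2
    refine le_trans ?_ (Finset.single_le_sum (f := fun m => w m (z.1.1 ++ z.2.1))
      (fun _ _ => bot_le) h1)
    simp only [w]
    rw [Set.indicator_of_mem]
    exact ⟨rfl, z.1.1, z.1.2, z.2.1, z.2.2, rfl⟩
  rw [s1]
  refine s2.trans ?_
  rw [Summable.tsum_finsetSum (fun i _ => ENNReal.summable)]
  refine Finset.sum_le_sum fun m hm => ?_
  rw [Finset.mem_Icc] at hm
  have hm2 : 2 ≤ m := (le_max_left _ _).trans hm.1
  have hsub : Set.MapsTo (toLoop m) (𝓛 m) {f : ZMod m → ℤ × ℤ | IsLoop m f ∧ P m f} := by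
    rintro l ⟨h1, l₁, h2, l₂, h3, rfl⟩
    obtain ⟨d1, d2, d3, d4, d5⟩ := hloop l₁ h2 l₂ h3
    refine ⟨toLoop_isLoop hm2 h1 d1 d2 d3 d4, ?_⟩
    have := hP l₁ h2 l₂ h3
    rw [h1] at this
    exact this
  have hinj : Set.InjOn (toLoop m) (𝓛 m) := by
    rintro l ⟨h1, -⟩ l' ⟨h1', -⟩ h
    apply List.ext_getElem (by omega)
    intro i hi hi'
    have h2 := congrFun h (i : ZMod m)
    rw [toLoop_cast h1 (by omega), toLoop_cast h1' (by omega)] at h2
    exact h2
  have hfin : {f : ZMod m → ℤ × ℤ | IsLoop m f ∧ P m f}.Finite :=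
    (loops_card (by omega)).1.subset fun f hf => hf.1
  have hfin' : (𝓛 m).Finite := Set.Finite.of_injOn hsub hinj hfin
  have hcard : (𝓛 m).ncard ≤ {f : ZMod m → ℤ × ℤ | IsLoop m f ∧ P m f}.ncard :=
    Set.ncard_le_ncard_of_injOn _ hsub hinj hfin
  simp only [w]
  rw [← tsum_subtype (𝓛 m) (fun _ => xe ^ m), ENNReal.tsum_set_const, ← hfin'.cast_ncard_eq]
  simp only [ENat.toENNReal_coe]
  gcongr

end Pool.Agent.V11237.SXT
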