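import Pool.Agent.V11237.SXT.Poly3

/-!
Self-avoiding polygons follow closed corridors.
-/

set_option autoImplicit false

namespace Pool.Agent.V11237.SXT

open scoped ENNReal Topology
open Pool.Agent.H122R3.HX (ZL TL gw rect)
open Pool.Agent.H122R3.SX (Adj c walks walks_finite ncard_walks)
open Pool.Agent.H122R3.SY (nbr_symm ZL_map)

/-- The loop `f`, rescaled by `L`, follows the corridor. -/
def Follows (U₁ U₂ : Set (ℝ × ℝ)) (b : ℝ × ℝ) (ρ L : ℝ) (m : ℕ) (f : ZMod m → ℤ × ℤ) : Prop :=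
  ∃ i : ℕ, i < m ∧ dist (pt L (f i)) b ≤ 1 / L ∧
    (∀ k : ℕ, k < i → segment ℝ (pt L (f k)) (pt L (f (k + 1 : ℕ))) ⊆
      U₁ ∪ Metric.ball 0 ρ ∪ Metric.ball b ρ) ∧
    ∀ k : ℕ, i ≤ k → k < m → segment ℝ (pt L (f k)) (pt L (f (k + 1 : ℕ))) ⊆
      U₂ ∪ Metric.ball 0 ρ ∪ Metric.ball b ρ

theorem seg_ball {L : ℝ} (hL : 0 < L) {v w : ℤ × ℤ} (h : |w.1 - v.1| + |w.2 - v.2| = 1) :
    segment ℝ (pt L v) (pt L w) ⊆ Metric.closedBall (pt L v) (1 / L) := by
  have h' : |(w.1 : ℝ) - v.1| + |(w.2 : ℝ) - v.2| = 1 := by exact_mod_cast h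
  have k1 := abs_nonneg ((w.1 : ℝ) - v.1)
  have k2 := abs_nonneg ((w.2 : ℝ) - v.2)
  refine (convex_closedBall _ _).segment_subset (Metric.mem_closedBall_self (by positivity)) ?_
  rw [Metric.mem_closedBall]
  unfold pt
  rw [Prod.dist_eq, Real.dist_eq, Real.dist_eq]
  simp only
  rw [← sub_div, ← sub_div, abs_div, abs_div, abs_of_pos hL]
  apply max_le
  · gcongr; linarith
  · gcongr; linarith

theorem follows {U₁ U₂ : Set (ℝ × ℝ)} {b : ℝ × ℝ} {ρ L : ℝ} (hL : 0 < L) {D E : Set (ℤ × ℤ)}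
    {q : ℤ × ℤ} (hDE : Disjoint D E)
    (hD : ∀ v ∈ D, Metric.closedBall (pt L v) (1 / L) ⊆ U₁ ∪ Metric.ball 0 ρ ∪ Metric.ball b ρ)
    (hE : ∀ v ∈ E, Metric.closedBall (pt L v) (1 / L) ⊆ U₂ ∪ Metric.ball 0 ρ ∪ Metric.ball b ρ)
    (hq : dist (pt L q) b ≤ 1 / L) (hρ : 2 / L < ρ) {l₁ l₂ : List (ℤ × ℤ)}
    (h1 : l₁ ∈ TL Adj D (0, 0) q) (h2 : l₂ ∈ TL Adj E (q.1, q.2 - 1) (0, -1)) :
    Follows U₁ U₂ b ρ L (l₁ ++ l₂).length (toLoop (l₁ ++ l₂).length (l₁ ++ l₂)) := by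
  have n1 : 1 ≤ l₁.length := by
    rcases l₁ with _ | ⟨a, l⟩
    · have := h1.1
      simp at this
    · simp
  have n2 : 1 ≤ l₂.length := by
    rcases l₂ with _ | ⟨a, l⟩
    · have := h2.1
      simp at this
    · simp
  have hloop : IsLoop (l₁ ++ l₂).length (toLoop (l₁ ++ l₂).length (l₁ ++ l₂)) := by
    obtain ⟨a1, a2, a3, a4, a5⟩ := h1
    obtain ⟨b1, b2, b3, b4, b5⟩ := h2
    apply toLoop_isLoop _ rfl
    · rw [List.head?_append, a1]
      rfl
    · rw [List.nodup_append]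
      refine ⟨a3, b3, ?_⟩
      intro x hx y hy hxy
      subst hxy
      exact (Set.disjoint_left.1 hDE) (a5 x hx) (b5 x hy)
    · rw [List.isChain_append]
      refine ⟨a4, b4, ?_⟩
      intro x hx y hy
      rw [a2] at hx
      rw [b1] at hy
      simp only [Option.mem_def, Option.some.injEq] at hx hy
      rw [← hx, ← hy]
      unfold Adj
      simp
    · rw [List.getLast?_append, b2]
      rfl
    · rw [List.length_append]
      omega
  obtain ⟨l, hl⟩ : ∃ l, l = l₁ ++ l₂ := ⟨_, rfl⟩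
  obtain ⟨m, hm⟩ : ∃ m, m = l.length := ⟨_, rfl⟩
  rw [← hl, ← hm] at hloop ⊢
  have hml : m = l₁.length + l₂.length := by rw [hm, hl, List.length_append]
  have hseg : ∀ k : ℕ, k < m → segment ℝ (pt L (toLoop m l k)) (pt L (toLoop m l (k + 1 : ℕ))) ⊆
      Metric.closedBall (pt L (toLoop m l k)) (1 / L) := by
    intro k hk
    apply seg_ball hL
    have := hloop.2.2 (k : ZMod m)
    rw [← Nat.cast_one, ← Nat.cast_add] at this
    exact this
  have hlast : l₁[l₁.length - 1]'(by omega) = q := by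
    have := h1.2.1
    rw [List.getLast?_eq_getElem?, List.getElem?_eq_getElem (by omega)] at this
    exact Option.some.inj this
  have hfi : toLoop m l ((l₁.length - 1 : ℕ) : ZMod m) = q := by
    rw [toLoop_cast hm.symm (by omega)]
    subst hl
    rw [List.getElem_append_left (by omega)]
    exact hlast
  refine ⟨l₁.length - 1, by omega, ?_, ?_, ?_⟩
  · rw [hfi]
    exact hq
  · intro k hk
    refine (hseg k (by omega)).trans (hD _ ?_)
    rw [toLoop_cast hm.symm (by omega)]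
    subst hl
    rw [List.getElem_append_left (by omega)]
    exact h1.2.2.2.2 _ (List.getElem_mem _)
  · intro k hk hkm
    rcases hk.eq_or_lt with hk | hk
    · rw [← hk]
      refine (hseg _ (by omega)).trans ?_
      rw [hfi]
      refine (ball_aux hq ?_).trans Set.subset_union_right
      have : 2 / L = 1 / L + 1 / L := by ring
      linarith
    · refine (hseg k hkm).trans (hE _ ?_)
      rw [toLoop_cast hm.symm hkm]
      subst hl
      rw [List.getElem_append_right (by omega)]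
      exact h2.2.2.2.2 _ (List.getElem_mem _)

theorem len_box {D : Set (ℤ × ℤ)} {B : ℕ} (hD : ∀ v ∈ D, |v.1| ≤ B ∧ |v.2| ≤ B)
    (l : List (ℤ × ℤ)) (hn : l.Nodup) (hl : ∀ p ∈ l, p ∈ D) : l.length ≤ (2 * B + 1) ^ 2 := by
  classical
  have h1 : l.toFinset ⊆ Finset.Icc (-(B : ℤ)) B ×ˢ Finset.Icc (-(B : ℤ)) B := by
    intro p hp
    rw [List.mem_toFinset] at hp
    have := hD p (hl p hp)
    rw [Finset.mem_product, Finset.mem_Icc, Finset.mem_Icc]
    exact ⟨abs_le.1 this.1, abs_le.1 this.2⟩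
  have h2 := Finset.card_le_card h1
  rw [List.toFinset_card_of_nodup hn, Finset.card_product, Int.card_Icc] at h2
  refine h2.trans (le_of_eq ?_)
  rw [pow_two]
  congr 1 <;> omega

/-- **the critical mass** -/
theorem mass {U₁ U₂ : Set (ℝ × ℝ)} {b : ℝ × ℝ} {ρ : ℝ} (h : Closed U₁ U₂ b ρ) :
    ∃ K : ℝ, 2 ≤ K ∧ ∀ L : ℝ, K ≤ L → ∃ S : Finset ℕ,
      (∀ m ∈ S, 2 ≤ m ∧ ‖b‖ * L ≤ m ∧ (m : ℝ) ≤ K * L ^ 2) ∧ (S.card : ℝ) ≤ K * L ^ 2 ∧
      Real.exp (-(K * Real.log L ^ 2)) ≤ ∑ m ∈ S,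
        ({f : ZMod m → ℤ × ℤ | IsLoop m f ∧ Follows U₁ U₂ b ρ L m f}.ncard : ℝ) * (1 / mu) ^ m := by
  obtain ⟨K0, C, M, hK0, hC, hM, h0⟩ := closed_sets h
  have hlog2 : 0 < Real.log 2 := Real.log_pos (by norm_num)
  have hlmu : 0 ≤ Real.log mu := Real.log_nonneg H981.one_le_mu
  have hmu0 : 0 < mu := lt_of_lt_of_le one_pos H981.one_le_mu
  obtain ⟨K, hK⟩ : ∃ K, K = C + (2 * M + 2) ^ 2 + 2 * K0 + 2 * Real.log mu / Real.log 2 ^ 2 := ⟨_, rfl⟩
  have hk1 : 0 ≤ 2 * Real.log mu / Real.log 2 ^ 2 := by positivity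
  have hk2 : 0 ≤ (2 * M + 2) ^ 2 := by positivity
  refine ⟨K, by linarith, ?_⟩
  intro L hL
  have hLC : C ≤ L := by linarith
  have hL2 : 2 ≤ L := by linarith
  have hL0 : 0 < L := by linarith
  obtain ⟨D, E, q, ⟨hq1, hq2⟩, hDE, hbox, hD, hE, hqb, hLρ, g1, g2⟩ := h0 L hLC
  obtain ⟨B, hB⟩ : ∃ B : ℕ, B = ⌈M * L⌉₊ := ⟨_, rfl⟩
  have hB1 : M * L ≤ B := by rw [hB]; exact Nat.le_ceil _
  have hB2 : (B : ℝ) < M * L + 1 := by rw [hB]; exact Nat.ceil_lt_add_one (by positivity)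
  have hboxB : ∀ v ∈ D ∪ E, |v.1| ≤ B ∧ |v.2| ≤ B := by
    intro v hv
    have := hbox v hv
    constructor
    · have h1 := this.1.trans hB1
      exact_mod_cast h1
    · have h1 := this.2.trans hB1
      exact_mod_cast h1
  have hNK : (((2 * B + 1) ^ 2 : ℕ) : ℝ) ≤ K * L ^ 2 := by
    push_cast
    have e1 : (2 * (B : ℝ) + 1) ≤ (2 * M + 2) * L := by nlinarith
    calc (2 * (B : ℝ) + 1) ^ 2 ≤ ((2 * M + 2) * L) ^ 2 := by gcongr
      _ = (2 * M + 2) ^ 2 * L ^ 2 := by ring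
      _ ≤ K * L ^ 2 := by gcongr; linarith
  have hM0 : ∀ l ∈ TL Adj D (0, 0) q, ⌈‖b‖ * L⌉₊ ≤ l.length := by
    intro l hl
    have n1 : 1 ≤ l.length := by
      rcases l with _ | ⟨a, l⟩
      · have := hl.1
        simp at this
      · simp
    have e1 := chain_dist l hl.2.2.2.1 hl.1 (l.length - 1) (by omega)
    have hlast : l[l.length - 1]'(by omega) = q := by
      have := hl.2.1
      rw [List.getLast?_eq_getElem?, List.getElem?_eq_getElem (by omega)] at this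
      exact Option.some.inj this
    rw [hlast] at e1
    have e2 : (((|q.1| + |q.2| : ℤ)) : ℝ) ≤ (l.length : ℝ) - 1 := by
      have : (|q.1| + |q.2| : ℤ) ≤ (l.length : ℤ) - 1 := by omega
      exact_mod_cast this
    push_cast at e2
    rw [Nat.ceil_le, Prod.norm_def, Real.norm_eq_abs, Real.norm_eq_abs]
    have key : ∀ x : ℝ, |x| * L ≤ |(⌊L * x⌋ : ℝ)| + 1 := by
      intro x
      have f1 := Int.floor_le (L * x)
      have f2 := Int.lt_floor_add_one (L * x)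
      have e3 : |x| * L = |L * x| := by rw [abs_mul, abs_of_pos hL0, mul_comm]
      rw [e3, abs_le]
      have f3 := neg_abs_le (⌊L * x⌋ : ℝ)
      have f4 := le_abs_self (⌊L * x⌋ : ℝ)
      constructor <;> linarith
    have k1 := key b.1
    have k2 := key b.2
    rw [← hq1] at k1
    rw [← hq2] at k2
    have k3 := abs_nonneg (q.1 : ℝ)
    have k4 := abs_nonneg (q.2 : ℝ)
    rcases max_cases |b.1| |b.2| with ⟨e, _⟩ | ⟨e, _⟩ <;> rw [e] <;> linarith
  have hs := sum_loops hDE (N := (2 * B + 1) ^ 2) (M0 := ⌈‖b‖ * L⌉₊)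
    (fun l hn hl => len_box hboxB l hn hl)
    (fun m f => Follows U₁ U₂ b ρ L m f)
    (fun l₁ h1 l₂ h2 => follows hL0 hDE hD hE hqb hLρ h1 h2) hM0
  refine ⟨Finset.Icc (max 2 ⌈‖b‖ * L⌉₊) ((2 * B + 1) ^ 2), ?_, ?_, ?_⟩
  · intro m hm
    rw [Finset.mem_Icc] at hm
    refine ⟨(le_max_left _ _).trans hm.1, ?_, ?_⟩
    · exact (Nat.le_ceil _).trans (by exact_mod_cast (le_max_right _ _).trans hm.1)
    · refine le_trans ?_ hNK
      exact_mod_cast hm.2
  · refine le_trans ?_ hNK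
    rw [Nat.card_Icc]
    have : (2 * B + 1) ^ 2 + 1 - max 2 ⌈‖b‖ * L⌉₊ ≤ (2 * B + 1) ^ 2 := by
      have := le_max_left 2 ⌈‖b‖ * L⌉₊
      omega
    exact_mod_cast this
  · -- conversion
    have e1 : ∑ m ∈ Finset.Icc (max 2 ⌈‖b‖ * L⌉₊) ((2 * B + 1) ^ 2),
        ({f : ZMod m → ℤ × ℤ | IsLoop m f ∧ Follows U₁ U₂ b ρ L m f}.ncard : ℝ≥0∞) * xe ^ m =
        ENNReal.ofReal (∑ m ∈ Finset.Icc (max 2 ⌈‖b‖ * L⌉₊) ((2 * B + 1) ^ 2),
        ({f : ZMod m → ℤ × ℤ | IsLoop m f ∧ Follows U₁ U₂ b ρ L m f}.ncard : ℝ) *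
          (1 / mu) ^ m) := by
      rw [ENNReal.ofReal_sum_of_nonneg (fun m _ => by positivity)]
      refine Finset.sum_congr rfl fun m _ => ?_
      rw [ENNReal.ofReal_mul (Nat.cast_nonneg _), ENNReal.ofReal_natCast,
        ENNReal.ofReal_pow (by positivity)]
      rfl
    rw [e1] at hs
    have hxe : xe ^ 2 = ee (-(2 * Real.log mu)) := by
      unfold xe ee
      rw [← ENNReal.ofReal_pow (by positivity)]
      congr 1
      rw [show -(2 * Real.log mu) = -Real.log mu + -Real.log mu by ring, Real.exp_add, Real.exp_neg,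
        Real.exp_log hmu0]
      ring
    apply ee_le_ofReal (Finset.sum_nonneg fun m _ => by positivity)
    refine le_trans ?_ hs
    rw [hxe]
    calc ee (-(K * Real.log L ^ 2))
        ≤ ee (-(K0 * Real.log L ^ 2) + -(K0 * Real.log L ^ 2) + -(2 * Real.log mu)) := by
          apply ee_mono
          have hlL : Real.log 2 ≤ Real.log L := Real.log_le_log (by norm_num) hL2
          have hll : Real.log 2 ^ 2 ≤ Real.log L ^ 2 := pow_le_pow_left₀ hlog2.le hlL 2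
          have h5 : 2 * Real.log mu ≤ 2 * Real.log mu / Real.log 2 ^ 2 * Real.log L ^ 2 := by
            rw [div_mul_eq_mul_div, le_div_iff₀ (by positivity)]
            gcongr
          have h6 : 0 ≤ (C + (2 * M + 2) ^ 2) * Real.log L ^ 2 := by positivity
          rw [hK]
          nlinarith
      _ = ee (-(K0 * Real.log L ^ 2)) * ee (-(K0 * Real.log L ^ 2)) * ee (-(2 * Real.log mu)) := by
          rw [ee_add, ee_add]
      _ ≤ _ := mul_le_mul' (mul_le_mul' g1 g2) le_rfl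

/-- the probability of `P` for the uniform rooted oriented polygon of perimeter `m` -/
noncomputable def lprob (m : ℕ) (P : (ZMod m → ℤ × ℤ) → Prop) : ℝ :=
  ({f : ZMod m → ℤ × ℤ | IsLoop m f ∧ P f}.ncard : ℝ) / ({f : ZMod m → ℤ × ℤ | IsLoop m f}.ncard : ℝ)

/-- **Polygons follow closed corridors.** -/
theorem polygon_prob {U₁ U₂ : Set (ℝ × ℝ)} {b : ℝ × ℝ} {ρ : ℝ} (h : Closed U₁ U₂ b ρ)
    (hb : b ≠ 0) : ∃ K : ℝ, 2 ≤ K ∧ ∀ L : ℝ, K ≤ L → ∃ m : ℕ, 2 ≤ m ∧ L ≤ K * m ∧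
      (m : ℝ) ≤ K * L ^ 2 ∧
      Real.exp (-(K * Real.log m ^ 2)) ≤ lprob m (Follows U₁ U₂ b ρ L m) := by
  obtain ⟨K1, hK1, h1⟩ := mass h
  obtain ⟨K0, hB⟩ := exists_Bd
  have hlog2 : 0 < Real.log 2 := Real.log_pos (by norm_num)
  have hmu0 : 0 < mu := lt_of_lt_of_le one_pos H981.one_le_mu
  have hnb : 0 < ‖b‖ := norm_pos_iff.2 hb
  have hl4 : 0 ≤ Real.log (4 * K1) := Real.log_nonneg (by linarith)
  have hK0 := hB.Kn
  obtain ⟨K, hK⟩ : ∃ K, K = 4 * K1 + K0 + Real.log (4 * K1) / Real.log 2 ^ 2 + 4 / Real.log 2 +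
    1 / ‖b‖ + 1 / ‖b‖ ^ 2 := ⟨_, rfl⟩
  have p1 : 0 ≤ Real.log (4 * K1) / Real.log 2 ^ 2 := by positivity
  have p2 : 0 ≤ 4 / Real.log 2 := by positivity
  have p3 : 0 ≤ 1 / ‖b‖ := by positivity
  have p4 : 0 ≤ 1 / ‖b‖ ^ 2 := by positivity
  refine ⟨K, by linarith, ?_⟩
  intro L hL
  have hLK1 : K1 ≤ L := by linarith
  have hL2 : 2 ≤ L := by linarith
  have hL0 : 0 < L := by linarith
  have hLb : 1 / ‖b‖ ^ 2 ≤ L := by linarith
  obtain ⟨S, hS, hSc, hs⟩ := h1 L hLK1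
  have hSne : S.Nonempty := by
    by_contra hne
    rw [Finset.not_nonempty_iff_eq_empty] at hne
    rw [hne, Finset.sum_empty] at hs
    exact absurd hs (not_le.2 (Real.exp_pos _))
  have hSpos : (0 : ℝ) < S.card := by exact_mod_cast hSne.card_pos
  have hsum : ∑ _m ∈ S, Real.exp (-(K1 * Real.log L ^ 2)) / S.card ≤ ∑ m ∈ S,
      ({f : ZMod m → ℤ × ℤ | IsLoop m f ∧ Follows U₁ U₂ b ρ L m f}.ncard : ℝ) *
        (1 / mu) ^ m := by
    rw [Finset.sum_const, nsmul_eq_mul]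
    field_simp at hs ⊢
    exact hs
  obtain ⟨m, hmS, hm⟩ := Finset.exists_le_of_sum_le hSne hsum
  obtain ⟨m2, mL, mK⟩ := hS m hmS
  have hm0 : (0 : ℝ) < m := by
    have : (2 : ℝ) ≤ m := by exact_mod_cast m2
    linarith
  refine ⟨m, m2, ?_, ?_, ?_⟩
  · have e1 : L ≤ 1 / ‖b‖ * m := by
      rw [div_mul_eq_mul_div, one_mul, le_div_iff₀ hnb]
      linarith
    refine e1.trans ?_
    gcongr
    linarith
  · refine mK.trans ?_
    gcongr
    linarith
  · -- the probability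
    obtain ⟨F, hF⟩ : ∃ F : ℝ, F =
      ({f : ZMod m → ℤ × ℤ | IsLoop m f ∧ Follows U₁ U₂ b ρ L m f}.ncard : ℝ) := ⟨_, rfl⟩
    obtain ⟨A, hA⟩ : ∃ A : ℝ, A = ({f : ZMod m → ℤ × ℤ | IsLoop m f}.ncard : ℝ) := ⟨_, rfl⟩
    rw [← hF] at hm
    unfold lprob
    rw [← hF, ← hA]
    have hF0 : 0 < F := by
      have h3 : 0 < Real.exp (-(K1 * Real.log L ^ 2)) / S.card := by positivity
      by_contra hcon
      push Not at hcon
      have h4 : F * (1 / mu) ^ m ≤ 0 := mul_nonpos_of_nonpos_of_nonneg hcon (by positivity)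
      linarith
    have hFA : F ≤ A := by
      have hsub : {f : ZMod m → ℤ × ℤ | IsLoop m f ∧ Follows U₁ U₂ b ρ L m f} ⊆
          {f : ZMod m → ℤ × ℤ | IsLoop m f} := fun f hf => hf.1
      have := Set.ncard_le_ncard hsub (loops_card (by omega)).1
      rw [hF, hA]
      exact_mod_cast this
    have hA0 : 0 < A := lt_of_lt_of_le hF0 hFA
    have hAc : A * (1 / mu) ^ m ≤ 4 * Real.exp (K0 * Real.log m ^ 2) := by
      have h3 : A ≤ c (m - 1) := by
        rw [hA]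
        exact_mod_cast (loops_card (m := m) (by omega)).2
      have h4 := hB.c_le4 (show m - 1 ≤ m by omega)
      calc A * (1 / mu) ^ m ≤ (4 * mu ^ (m - 1) * Real.exp (K0 * Real.log m ^ 2)) * (1 / mu) ^ m := by
            gcongr
            exact h3.trans h4
        _ = 4 * Real.exp (K0 * Real.log m ^ 2) * (mu ^ (m - 1) * (1 / mu) ^ m) := by ring
        _ ≤ 4 * Real.exp (K0 * Real.log m ^ 2) * 1 := by
            gcongr
            rw [one_div, inv_pow, mul_inv_le_iff₀ (by positivity), one_mul]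
            exact pow_le_pow_right₀ H981.one_le_mu (by omega)
        _ = _ := by ring
    have hkey : Real.exp (-(K1 * Real.log L ^ 2)) / (K1 * L ^ 2) ≤
        F / A * (4 * Real.exp (K0 * Real.log m ^ 2)) := by
      calc Real.exp (-(K1 * Real.log L ^ 2)) / (K1 * L ^ 2)
          ≤ Real.exp (-(K1 * Real.log L ^ 2)) / S.card := by gcongr
        _ ≤ F * (1 / mu) ^ m := hm
        _ = F / A * (A * (1 / mu) ^ m) := by field_simp
        _ ≤ _ := by gcongr
    have hmlog : Real.log 2 ≤ Real.log m := Real.log_le_log (by norm_num) (by exact_mod_cast m2)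
    have hLm : Real.log L ≤ 2 * Real.log m := by
      have e1 : L ≤ (m : ℝ) ^ 2 := by
        have e2 : 1 ≤ ‖b‖ ^ 2 * L := by
          rw [div_le_iff₀ (by positivity)] at hLb
          linarith
        calc L = 1 * L := (one_mul _).symm
          _ ≤ (‖b‖ ^ 2 * L) * L := by gcongr
          _ = (‖b‖ * L) ^ 2 := by ring
          _ ≤ (m : ℝ) ^ 2 := by gcongr
      have e3 := Real.log_le_log hL0 e1
      rw [Real.log_pow] at e3
      exact_mod_cast e3
    have hlogL0 : 0 ≤ Real.log L := Real.log_nonneg (by linarith)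
    have e4 : K1 * L ^ 2 * 4 = Real.exp (Real.log (4 * K1) + 2 * Real.log L) := by
      rw [Real.exp_add, Real.exp_log (by linarith), two_mul (Real.log L), Real.exp_add, Real.exp_log hL0]
      ring
    have e5 : Real.exp (-(K1 * Real.log L ^ 2)) =
        Real.exp (-(K1 * Real.log L ^ 2) - K0 * Real.log m ^ 2 - (Real.log (4 * K1) +
          2 * Real.log L)) * (Real.exp (Real.log (4 * K1) + 2 * Real.log L)) *
          Real.exp (K0 * Real.log m ^ 2) := by
      rw [← Real.exp_add, ← Real.exp_add]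
      congr 1
      ring
    have e6 : Real.exp (-(K1 * Real.log L ^ 2) - K0 * Real.log m ^ 2 - (Real.log (4 * K1) +
          2 * Real.log L)) ≤ F / A := by
      rw [e5, ← e4] at hkey
      have hK1L : 0 < K1 * L ^ 2 := by positivity
      rw [div_le_iff₀ hK1L] at hkey
      have hexp : 0 < Real.exp (K0 * Real.log m ^ 2) := Real.exp_pos _
      have h7 : 0 < K1 * L ^ 2 * 4 * Real.exp (K0 * Real.log m ^ 2) := by positivity
      refine le_of_mul_le_mul_right ?_ h7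
      calc _ = Real.exp (-(K1 * Real.log L ^ 2) - K0 * Real.log m ^ 2 - (Real.log (4 * K1) +
            2 * Real.log L)) * (K1 * L ^ 2 * 4) * Real.exp (K0 * Real.log m ^ 2) := by ring
        _ ≤ _ := hkey
        _ = _ := by ring
    refine le_trans (Real.exp_le_exp.2 ?_) e6
    have q1 : Real.log L ^ 2 ≤ 4 * Real.log m ^ 2 := by nlinarith
    have q2 : Real.log (4 * K1) ≤ Real.log (4 * K1) / Real.log 2 ^ 2 * Real.log m ^ 2 := by
      rw [div_mul_eq_mul_div, le_div_iff₀ (by positivity)]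
      gcongr
    have q3 : 4 * Real.log m ≤ 4 / Real.log 2 * Real.log m ^ 2 := by
      rw [div_mul_eq_mul_div, le_div_iff₀ hlog2]
      nlinarith
    have q4 : 0 ≤ (1 / ‖b‖ + 1 / ‖b‖ ^ 2) * Real.log m ^ 2 := by positivity
    rw [hK]
    nlinarith

end Pool.Agent.V11237.SXT
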