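import Pool.Agent.V11237.SXT.Conn

/-!
Initial pieces of self-avoiding paths.
-/

set_option autoImplicit false

namespace Pool.Agent.V11237.SXT

open scoped ENNReal Topology
open Pool.Agent.H122R3.HX (ZL TL gw rect)
open Pool.Agent.H122R3.SX (Adj c walks walks_finite ncard_walks)
open Pool.Agent.H122R3.SY (nbr_symm ZL_map)

/-- a path from the origin moves by at most one in each step -/
theorem chain_dist (l : List (ℤ × ℤ)) (hc : l.IsChain Adj) (h0 : l.head? = some (0, 0)) (i : ℕ)
    (hi : i < l.length) : |(l[i]).1| + |(l[i]).2| ≤ i := by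
  induction i with
  | zero =>
    rw [List.head?_eq_getElem?, List.getElem?_eq_getElem hi] at h0
    rw [Option.some.inj h0]
    simp
  | succ i ih =>
    have h1 := ih (by omega)
    rw [List.isChain_iff_getElem] at hc
    have h2 := hc i hi
    unfold Adj at h2
    have h3 := abs_sub_abs_le_abs_sub (l[i + 1]).1 (l[i]).1
    have h4 := abs_sub_abs_le_abs_sub (l[i + 1]).2 (l[i]).2
    rw [abs_sub_comm (l[i + 1]).1] at h3
    rw [abs_sub_comm (l[i + 1]).2] at h4
    push_cast
    linarith

/-- paths with `n` steps from the origin in `D` -/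
def SD (D : Set (ℤ × ℤ)) (n : ℕ) : Set (List (ℤ × ℤ)) :=
  {r | r.head? = some (0, 0) ∧ r.Nodup ∧ r.IsChain Adj ∧ r.length = n + 1 ∧ ∀ p ∈ r, p ∈ D}

theorem SD_card (D : Set (ℤ × ℤ)) (n : ℕ) : (SD D n).Finite ∧
    (SD D n).ncard ≤ {f | f ∈ walks n ∧ ∀ i, f i ∈ D}.ncard := by
  have hmap : Set.MapsTo (fun (r : List (ℤ × ℤ)) (k : Fin (n + 1)) => r.getD k (0, 0))
      (SD D n) {f | f ∈ walks n ∧ ∀ i, f i ∈ D} := by
    rintro r ⟨h1, h2, h3, h4, h5⟩
    refine ⟨⟨?_, ?_, ?_⟩, ?_⟩
    · simp only [Fin.val_zero]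
      rw [List.getD_eq_getElem?_getD, ← List.head?_eq_getElem?, h1]
      rfl
    · intro i j hij
      simp only at hij
      rw [List.getD_eq_getElem _ _ (by omega), List.getD_eq_getElem _ _ (by omega)] at hij
      exact Fin.ext ((h2.getElem_inj_iff).1 hij)
    · intro i
      simp only [Fin.val_castSucc, Fin.val_succ]
      rw [List.getD_eq_getElem _ _ (by omega), List.getD_eq_getElem _ _ (by omega)]
      rw [List.isChain_iff_getElem] at h3
      exact h3 i (by omega)
    · intro i
      simp only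
      rw [List.getD_eq_getElem _ _ (by omega)]
      exact h5 _ (List.getElem_mem _)
  have hinj : Set.InjOn (fun (r : List (ℤ × ℤ)) (k : Fin (n + 1)) => r.getD k (0, 0))
      (SD D n) := by
    rintro r ⟨-, -, -, h4, -⟩ r' ⟨-, -, -, h4', -⟩ h
    apply List.ext_getElem (by omega)
    intro i hi hi'
    have := congrFun h ⟨i, by omega⟩
    simp only at this
    rwa [List.getD_eq_getElem _ _ hi, List.getD_eq_getElem _ _ hi'] at this
  have hfin : {f | f ∈ walks n ∧ ∀ i, f i ∈ D}.Finite :=
    (walks_finite n).subset fun f hf => hf.1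
  exact ⟨Set.Finite.of_injOn hmap hinj hfin,
    Set.ncard_le_ncard_of_injOn _ hmap hinj hfin⟩

/-- **the weight of the paths is bounded by the number of the initial pieces** -/
theorem ZL_prefix {D : Set (ℤ × ℤ)} {q : ℤ × ℤ} {n N : ℕ} {Q : ℝ≥0∞}
    (hlong : ∀ l ∈ TL Adj D (0, 0) q, n + 1 ≤ l.length)
    (hN : ∀ l : List (ℤ × ℤ), l.Nodup → (∀ p ∈ l, p ∈ D) → l.length ≤ N)
    (hQ : ∀ p : ℤ × ℤ, ∑' r : List (ℤ × ℤ), gw Adj xe N (some p) r ≤ Q) :
    ZL Adj xe D (0, 0) q ≤ ((SD D n).ncard : ℝ≥0∞) * xe ^ n * Q := by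
  have hmem : ∀ l ∈ TL Adj D (0, 0) q, l.take (n + 1) ∈ SD D n := by
    intro l hl
    have hlen := hlong l hl
    obtain ⟨h1, h2, h3, h4, h5⟩ := hl
    refine ⟨?_, h3.sublist (List.take_sublist _ _), h4.take _, ?_, ?_⟩
    · rw [List.head?_take, if_neg (by omega), h1]
    · rw [List.length_take]; omega
    · intro p hp
      exact h5 p (List.take_subset _ _ hp)
  let Φ : TL Adj D (0, 0) q → SD D n × List (ℤ × ℤ) :=
    fun l => (⟨l.1.take (n + 1), hmem l.1 l.2⟩, l.1.drop n)
  have hΦ : Function.Injective Φ := by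
    intro l l' h
    have h1 : l.1.take (n + 1) = l'.1.take (n + 1) := congrArg (fun z => z.1.1) h
    have h2 : l.1.drop n = l'.1.drop n := congrArg (fun z => z.2) h
    have h3 : l.1.take n = l'.1.take n := by
      have := congrArg (List.take n) h1
      rwa [List.take_take, List.take_take, min_eq_left (by omega)] at this
    apply Subtype.ext
    rw [← List.take_append_drop n l.1, ← List.take_append_drop n l'.1, h2, h3]
  have h1 := ENNReal.tsum_comp_le_tsum_of_injective hΦ
    (fun z : SD D n × List (ℤ × ℤ) => xe ^ n * gw Adj xe N (z.1.1.getLast?) z.2)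
  have h2 : ZL Adj xe D (0, 0) q ≤
      ∑' z : SD D n × List (ℤ × ℤ), xe ^ n * gw Adj xe N (z.1.1.getLast?) z.2 := by
    refine le_trans (le_of_eq ?_) h1
    unfold ZL
    congr 1
    funext l
    obtain ⟨l, hl⟩ := l
    have hlen := hlong l hl
    have hl' := hl
    obtain ⟨h1, h2, h3, h4, h5⟩ := hl'
    simp only [Φ]
    have e1 : (l.take (n + 1)).getLast? = (l.drop n).head? := by
      rw [List.getLast?_eq_getElem?, List.length_take, min_eq_left (by omega), List.head?_drop,
        Nat.add_sub_cancel, List.getElem?_take, if_pos (by omega)]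
    unfold gw
    rw [if_pos]
    · rw [← pow_add, List.length_drop]
      congr 1
      omega
    · refine ⟨e1.symm, ?_, h3.sublist (List.drop_sublist _ _), h4.drop _, ?_⟩
      · intro h
        have := congrArg List.length h
        rw [List.length_drop] at this
        simp at this
        omega
      · rw [List.length_drop]
        have := hN l h3 h5
        omega
  refine h2.trans ?_
  rw [ENNReal.tsum_prod (f := fun (a : SD D n) (b : List (ℤ × ℤ)) =>
    xe ^ n * gw Adj xe N (a.1.getLast?) b)]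
  calc ∑' (a : SD D n) (b : List (ℤ × ℤ)), xe ^ n * gw Adj xe N (a.1.getLast?) b
      ≤ ∑' _ : SD D n, xe ^ n * Q := by
        refine ENNReal.tsum_le_tsum fun a => ?_
        rw [ENNReal.tsum_mul_left]
        refine mul_le_mul' le_rfl ?_
        obtain ⟨a, h1, h2, h3, h4, h5⟩ := a
        simp only
        have hne : a ≠ [] := by
          rintro rfl
          simp at h4
        rw [List.getLast?_eq_getLast_of_ne_nil hne]
        exact hQ _
    _ = ((SD D n).ncard : ℝ≥0∞) * xe ^ n * Q := by
        rw [ENNReal.tsum_set_const, ← (SD_card D n).1.cast_ncard_eq]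
        simp only [ENat.toENNReal_coe]
        ring

end Pool.Agent.V11237.SXT
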