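import Pool.Agent.V11237.SXT.Poly4

/-!
Polygons which follow a rectangle: width, height and area.
-/

set_option autoImplicit false

namespace Pool.Agent.V11237.SXT

open Finset

/-- the extent of an integer function on the polygon -/
noncomputable def ext (m : ℕ) (g : ZMod m → ℤ) : ℕ := sSup {w : ℕ | ∃ i j, w = (g i - g j).natAbs}

theorem ext_le {m : ℕ} {g : ZMod m → ℤ} {a b : ℤ} (h : ∀ i, a ≤ g i ∧ g i ≤ b) :
    (ext m g : ℤ) ≤ b - a := by
  have h0 := h 0
  have h1 : ext m g ≤ (b - a).natAbs := by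
    have hne : {w : ℕ | ∃ i j, w = (g i - g j).natAbs}.Nonempty := ⟨(g 0 - g 0).natAbs, 0, 0, rfl⟩
    unfold ext
    apply csSup_le hne
    rintro w ⟨i, j, rfl⟩
    have := h i
    have := h j
    omega
  omega

theorem le_ext {m : ℕ} {g : ZMod m → ℤ} {a b : ℤ} (h : ∀ i, a ≤ g i ∧ g i ≤ b) (i j : ZMod m) :
    g i - g j ≤ ext m g := by
  have h1 : (g i - g j).natAbs ≤ ext m g := by
    unfold ext
    refine le_csSup ?_ ⟨i, j, rfl⟩
    refine ⟨(b - a).natAbs, ?_⟩
    rintro w ⟨i, j, rfl⟩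
    have := h i
    have := h j
    omega
  omega

/-- the step `k` crosses the column between `a` and `a + 1` -/
def Cr (x : ℕ → ℤ) (a : ℤ) (k : ℕ) : Prop :=
  (x k = a ∧ x (k + 1) = a + 1) ∨ (x k = a + 1 ∧ x (k + 1) = a)

instance (x : ℕ → ℤ) (a : ℤ) (k : ℕ) : Decidable (Cr x a k) := by unfold Cr; infer_instance

/-- **parity of the crossings** -/
theorem parity (x : ℕ → ℤ) (a : ℤ) (n : ℕ) (h : ∀ k < n, |x (k + 1) - x k| ≤ 1) :
    Odd ((range n).filter (Cr x a)).card ↔ ¬ (x 0 ≤ a ↔ x n ≤ a) := by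
  induction n with
  | zero => simp
  | succ n ih =>
    have ih := ih (fun k hk => h k (by omega))
    have hn := h n (by omega)
    rw [abs_le] at hn
    rw [range_add_one, filter_insert]
    by_cases hc : Cr x a n
    · rw [if_pos hc, card_insert_of_notMem (by simp)]
      rw [Nat.odd_add_one, ih]
      unfold Cr at hc
      rcases hc with ⟨h1, h2⟩ | ⟨h1, h2⟩
      · have e1 : x n ≤ a := by omega
        have e2 : ¬ x (n + 1) ≤ a := by omega
        tauto
      · have e1 : ¬ x n ≤ a := by omega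
        have e2 : x (n + 1) ≤ a := by omega
        tauto
    · rw [if_neg hc, ih]
      have e : x n ≤ a ↔ x (n + 1) ≤ a := by
        unfold Cr at hc
        constructor
        · intro h1
          by_contra h2
          exact hc (Or.inl ⟨by omega, by omega⟩)
        · intro h1
          by_contra h2
          exact hc (Or.inr ⟨by omega, by omega⟩)
      tauto

/-- the edge from `f k` to `f (k+1)` is horizontal, joins the columns `x = a` and `x = a + 1`, and
has height larger than `b`: it lies above the unit cell `[a, a+1] × [b, b+1]` -/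
def Above (m : ℕ) (f : ZMod m → ℤ × ℤ) (a b : ℤ) (k : ZMod m) : Prop :=
  (((f k).1 = a ∧ (f (k + 1)).1 = a + 1) ∨ ((f k).1 = a + 1 ∧ (f (k + 1)).1 = a)) ∧ b < (f k).2

/-- the unit cell `[a, a+1] × [b, b+1]` is enclosed by the loop: the vertical ray from the cell
upwards crosses an odd number of edges -/
def Encl (m : ℕ) (f : ZMod m → ℤ × ℤ) (c : ℤ × ℤ) : Prop :=
  Odd (Nat.card {k : ZMod m // Above m f c.1 c.2 k})

/-- the area: the number of unit cells enclosed by the loop -/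
noncomputable def area (m : ℕ) (f : ZMod m → ℤ × ℤ) : ℕ := Nat.card {c : ℤ × ℤ // Encl m f c}

theorem card_above {m : ℕ} (hm : 1 ≤ m) (f : ZMod m → ℤ × ℤ) (a b : ℤ) :
    Nat.card {k : ZMod m // Above m f a b k} =
      ((range m).filter (fun k => Cr (fun j => (f (j : ZMod m)).1) a k ∧ b < (f (k : ZMod m)).2)).card := by
  classical
  haveI : NeZero m := ⟨by omega⟩
  rw [Nat.card_eq_fintype_card, Fintype.card_subtype]
  apply card_bij (fun k _ => k.val)
  · intro k hk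
    rw [mem_filter] at hk ⊢
    refine ⟨mem_range.2 (ZMod.val_lt k), ?_, ?_⟩
    · unfold Cr
      simp only [ZMod.natCast_zmod_val, Nat.cast_add, Nat.cast_one]
      exact hk.2.1
    · rw [ZMod.natCast_zmod_val]
      exact hk.2.2
  · intro k _ k' _ h
    exact ZMod.val_injective m h
  · intro k hk
    rw [mem_filter, mem_range] at hk
    refine ⟨(k : ZMod m), ?_, ZMod.val_natCast_of_lt hk.1⟩
    rw [mem_filter]
    refine ⟨mem_univ _, ?_, hk.2.2⟩
    have := hk.2.1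
    unfold Cr at this
    simp only [Nat.cast_add, Nat.cast_one] at this
    exact this

/-- the upper half of the corridor around the boundary of the rectangle -/
def RU (t δ : ℝ) : Set (ℝ × ℝ) :=
  (Set.Ioo (-δ) δ ×ˢ Set.Ioo 0 (t / 2 + δ)) ∪
    ((Set.Ioo (-δ) (1 + δ) ×ˢ Set.Ioo (t / 2 - δ) (t / 2 + δ)) ∪
      (Set.Ioo (1 - δ) (1 + δ) ×ˢ Set.Ioo 0 (t / 2 + δ)))

/-- the lower half of the corridor around the boundary of the rectangle -/
def RL (t δ : ℝ) : Set (ℝ × ℝ) := (fun x : ℝ × ℝ => (x.1, -x.2)) ⁻¹' RU t δ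

variable {t δ : ℝ}

theorem RU_open : IsOpen (RU t δ) :=
  (isOpen_Ioo.prod isOpen_Ioo).union ((isOpen_Ioo.prod isOpen_Ioo).union (isOpen_Ioo.prod isOpen_Ioo))

theorem RU_conn (hδ : 0 < δ) (hδt : δ ≤ t / 8) : IsPreconnected (RU t δ) := by
  have hB : IsPreconnected (Set.Ioo (-δ) (1 + δ) ×ˢ Set.Ioo (t / 2 - δ) (t / 2 + δ)) :=
    isPreconnected_Ioo.prod isPreconnected_Ioo
  have hBC : IsPreconnected ((Set.Ioo (-δ) (1 + δ) ×ˢ Set.Ioo (t / 2 - δ) (t / 2 + δ)) ∪
      (Set.Ioo (1 - δ) (1 + δ) ×ˢ Set.Ioo 0 (t / 2 + δ))) := by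
    apply IsPreconnected.union ((1 : ℝ), t / 2) _ _ hB (isPreconnected_Ioo.prod isPreconnected_Ioo)
    · exact ⟨⟨by linarith, by linarith⟩, ⟨by linarith, by linarith⟩⟩
    · exact ⟨⟨by linarith, by linarith⟩, ⟨by linarith, by linarith⟩⟩
  apply IsPreconnected.union ((0 : ℝ), t / 2) _ _ (isPreconnected_Ioo.prod isPreconnected_Ioo) hBC
  · exact ⟨⟨by linarith, by linarith⟩, ⟨by linarith, by linarith⟩⟩
  · exact Or.inl ⟨⟨by linarith, by linarith⟩, ⟨by linarith, by linarith⟩⟩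

theorem RU_pos (hδt : δ ≤ t / 8) (hδ : 0 < δ) {x : ℝ × ℝ} (hx : x ∈ RU t δ) :
    -δ < x.1 ∧ x.1 < 1 + δ ∧ 0 < x.2 ∧ x.2 < t / 2 + δ := by
  rcases hx with ⟨⟨h1, h2⟩, h3, h4⟩ | ⟨⟨h1, h2⟩, h3, h4⟩ | ⟨⟨h1, h2⟩, h3, h4⟩
  all_goals refine ⟨?_, ?_, ?_, ?_⟩ <;> linarith

theorem RU_mid (hδt : δ ≤ t / 8) {x : ℝ × ℝ} (hx : x ∈ RU t δ) (h1 : δ ≤ x.1) (h2 : x.1 ≤ 1 - δ) :
    t / 2 - δ < x.2 := by
  rcases hx with ⟨⟨a1, a2⟩, h3, h4⟩ | ⟨⟨a1, a2⟩, h3, h4⟩ | ⟨⟨a1, a2⟩, h3, h4⟩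
  all_goals linarith

theorem closed_rect (hδ : 0 < δ) (hδt : δ ≤ t / 8) (hδ1 : δ ≤ 1 / 8) :
    Closed (RU t δ) (RL t δ) (1, 0) δ := by
  have hrc : Continuous (fun x : ℝ × ℝ => (x.1, -x.2)) := by fun_prop
  refine ⟨RU_open, RU_conn hδ hδt, RU_open.preimage hrc, ?_, ?_, hδ, ?_, ?_, ?_, ?_⟩
  · have e : RL t δ = (fun x : ℝ × ℝ => (x.1, -x.2)) '' RU t δ := by
      unfold RL
      ext x
      constructor
      · intro hx
        exact ⟨(x.1, -x.2), hx, by simp⟩
      · rintro ⟨y, hy, rfl⟩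
        simpa using hy
    rw [e]
    exact (RU_conn hδ hδt).image _ hrc.continuousOn
  · rw [Set.disjoint_left]
    intro x hx hx'
    have h1 := (RU_pos hδt hδ hx).2.2.1
    have h2 := (RU_pos hδt hδ hx').2.2.1
    simp only at h2
    linarith
  · intro x h1 h2 h3
    rw [abs_lt] at h1
    exact Or.inl ⟨⟨by linarith, by linarith⟩, ⟨by linarith, by linarith⟩⟩
  · intro x h1 h2 h3
    rw [abs_lt] at h1
    exact Or.inl ⟨⟨by simp only; linarith, by simp only; linarith⟩,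
      ⟨by simp only; linarith, by simp only; linarith⟩⟩
  · intro x h1 h2 h3
    simp only at h1 h2 h3
    rw [abs_lt] at h1
    exact Or.inr (Or.inr ⟨⟨by linarith, by linarith⟩, ⟨by linarith, by linarith⟩⟩)
  · intro x h1 h2 h3
    simp only at h1 h2 h3
    rw [abs_lt] at h1
    exact Or.inr (Or.inr ⟨⟨by simp only; linarith, by simp only; linarith⟩,
      ⟨by simp only; linarith, by simp only; linarith⟩⟩)

/-- discrete intermediate value -/
theorem ivt (x : ℕ → ℤ) (i : ℕ) (h : ∀ k < i, |x (k + 1) - x k| ≤ 1) (c : ℤ) (h0 : x 0 ≤ c)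
    (hi : c ≤ x i) : ∃ k ≤ i, x k = c := by
  induction i with
  | zero => exact ⟨0, le_rfl, by omega⟩
  | succ i ih =>
    by_cases h1 : c ≤ x i
    · obtain ⟨k, hk, hx⟩ := ih (fun k hk => h k (by omega)) h1
      exact ⟨k, by omega, hx⟩
    · have h2 := h i (by omega)
      rw [abs_le] at h2
      exact ⟨i + 1, le_rfl, by omega⟩

/-- **the polygons which follow the rectangle** -/
theorem rect_shape (hδ : 0 < δ) (hδt : δ ≤ t / 8) (hδ1 : δ ≤ 1 / 8) {L : ℝ} (hL : 8 / δ ≤ L)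
    {m : ℕ} (hm : 2 ≤ m) {f : ZMod m → ℤ × ℤ} (hf : IsLoop m f)
    (hF : Follows (RU t δ) (RL t δ) (1, 0) δ L m f) :
    (L - 1 ≤ ext m (fun k => (f k).1) ∧ (ext m (fun k => (f k).1) : ℝ) ≤ (1 + 2 * δ) * L) ∧
    ((t - 2 * δ) * L ≤ ext m (fun k => (f k).2) ∧
      (ext m (fun k => (f k).2) : ℝ) ≤ (t + 2 * δ) * L) ∧
    (((1 - 2 * δ) * L - 2) * ((t - 2 * δ) * L - 1) ≤ area m f ∧
      (area m f : ℝ) ≤ ((1 + 2 * δ) * L + 1) * ((t + 2 * δ) * L + 1)) := by
  classical
  haveI : NeZero m := ⟨by omega⟩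
  have hL64 : 64 ≤ L := by
    refine le_trans ?_ hL
    rw [le_div_iff₀ hδ]
    linarith
  have hL0 : 0 < L := by linarith
  have hLδ : 8 ≤ δ * L := by
    rw [div_le_iff₀ hδ] at hL
    linarith
  obtain ⟨i, him, hib, h1, h2⟩ := hF
  obtain ⟨x, hx⟩ : ∃ x : ℕ → ℤ, x = fun k : ℕ => (f (k : ZMod m)).1 := ⟨_, rfl⟩
  obtain ⟨y, hy⟩ : ∃ y : ℕ → ℤ, y = fun k : ℕ => (f (k : ZMod m)).2 := ⟨_, rfl⟩
  have hptx : ∀ k : ℕ, (pt L (f (k : ZMod m))).1 * L = x k := by
    intro k
    rw [hx]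
    unfold pt
    simp only
    field_simp
  have hpty : ∀ k : ℕ, (pt L (f (k : ZMod m))).2 * L = y k := by
    intro k
    rw [hy]
    unfold pt
    simp only
    field_simp
  have hstep : ∀ k : ℕ, |x (k + 1) - x k| + |y (k + 1) - y k| = 1 := by
    intro k
    have := hf.2.2 (k : ZMod m)
    rw [hx, hy]
    simp only [Nat.cast_add, Nat.cast_one]
    exact this
  have hstepx : ∀ k : ℕ, |x (k + 1) - x k| ≤ 1 := by
    intro k
    have := hstep k
    have := abs_nonneg (y (k + 1) - y k)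
    linarith
  have hx0 : x 0 = 0 := by
    rw [hx]
    simp only [Nat.cast_zero]
    rw [hf.1]
    rfl
  have hxm : x m = 0 := by
    rw [hx]
    simp only [ZMod.natCast_self]
    rw [hf.1]
    rfl
  -- the upper points
  have hU : ∀ k : ℕ, k < i → pt L (f (k : ZMod m)) ∈
      RU t δ ∪ Metric.ball 0 δ ∪ Metric.ball (1, 0) δ :=
    fun k hk => h1 k hk (left_mem_segment ℝ _ _)
  have hD : ∀ k : ℕ, i ≤ k → k < m → pt L (f (k : ZMod m)) ∈
      RL t δ ∪ Metric.ball 0 δ ∪ Metric.ball (1, 0) δ :=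
    fun k hk hkm => h2 k hk hkm (left_mem_segment ℝ _ _)
  have hball : ∀ (p z : ℝ × ℝ), p ∈ Metric.ball z δ → |p.1 - z.1| < δ ∧ |p.2 - z.2| < δ := by
    intro p z hp
    rw [Metric.mem_ball, Prod.dist_eq, Real.dist_eq, Real.dist_eq, max_lt_iff] at hp
    exact hp
  have hboxp : ∀ k : ℕ, k < m → -δ < (pt L (f (k : ZMod m))).1 ∧ (pt L (f (k : ZMod m))).1 < 1 + δ ∧
      -(t / 2 + δ) < (pt L (f (k : ZMod m))).2 ∧ (pt L (f (k : ZMod m))).2 < t / 2 + δ := by
    intro k hk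
    have hb0 : ∀ p : ℝ × ℝ, p ∈ Metric.ball 0 δ → -δ < p.1 ∧ p.1 < 1 + δ ∧ -(t / 2 + δ) < p.2 ∧
        p.2 < t / 2 + δ := by
      intro p hp
      obtain ⟨a1, a2⟩ := hball p 0 hp
      simp only [Prod.fst_zero, Prod.snd_zero, sub_zero] at a1 a2
      rw [abs_lt] at a1 a2
      refine ⟨?_, ?_, ?_, ?_⟩ <;> linarith
    have hb1 : ∀ p : ℝ × ℝ, p ∈ Metric.ball ((1 : ℝ), (0 : ℝ)) δ → -δ < p.1 ∧ p.1 < 1 + δ ∧
        -(t / 2 + δ) < p.2 ∧ p.2 < t / 2 + δ := by
      intro p hp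
      obtain ⟨a1, a2⟩ := hball p _ hp
      simp only [sub_zero] at a1 a2
      rw [abs_lt] at a1 a2
      refine ⟨?_, ?_, ?_, ?_⟩ <;> linarith
    rcases Nat.lt_or_ge k i with hki | hki
    · rcases hU k hki with (h | h) | h
      · obtain ⟨a1, a2, a3, a4⟩ := RU_pos hδt hδ h
        refine ⟨a1, a2, ?_, a4⟩
        linarith
      · exact hb0 _ h
      · exact hb1 _ h
    · rcases hD k hki hk with (h | h) | h
      · obtain ⟨a1, a2, a3, a4⟩ := RU_pos hδt hδ h
        simp only at a1 a2 a3 a4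
        refine ⟨a1, a2, ?_, ?_⟩ <;> linarith
      · exact hb0 _ h
      · exact hb1 _ h
  have hbox : ∀ k : ℕ, k < m → -(δ * L) < (x k : ℝ) ∧ (x k : ℝ) < (1 + δ) * L ∧
      -((t / 2 + δ) * L) < (y k : ℝ) ∧ (y k : ℝ) < (t / 2 + δ) * L := by
    intro k hk
    obtain ⟨a1, a2, a3, a4⟩ := hboxp k hk
    rw [← hptx, ← hpty]
    refine ⟨?_, ?_, ?_, ?_⟩ <;> nlinarith
  -- integer bounds
  obtain ⟨A, hA⟩ : ∃ A : ℤ, A = ⌈-(δ * L)⌉ := ⟨_, rfl⟩
  obtain ⟨B, hB⟩ : ∃ B : ℤ, B = ⌊(1 + δ) * L⌋ := ⟨_, rfl⟩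
  obtain ⟨Cc, hC⟩ : ∃ Cc : ℤ, Cc = ⌈-((t / 2 + δ) * L)⌉ := ⟨_, rfl⟩
  obtain ⟨Dd, hDd⟩ : ∃ Dd : ℤ, Dd = ⌊(t / 2 + δ) * L⌋ := ⟨_, rfl⟩
  have hzx : ∀ z : ZMod m, A ≤ (f z).1 ∧ (f z).1 ≤ B := by
    intro z
    have hz := ZMod.val_lt z
    obtain ⟨a1, a2, a3, a4⟩ := hbox z.val hz
    have e : x z.val = (f z).1 := by rw [hx]; simp only [ZMod.natCast_zmod_val]
    rw [← e, hA, hB]
    exact ⟨Int.ceil_le.2 a1.le, Int.le_floor.2 a2.le⟩
  have hzy : ∀ z : ZMod m, Cc ≤ (f z).2 ∧ (f z).2 ≤ Dd := by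
    intro z
    have hz := ZMod.val_lt z
    obtain ⟨a1, a2, a3, a4⟩ := hbox z.val hz
    have e : y z.val = (f z).2 := by rw [hy]; simp only [ZMod.natCast_zmod_val]
    rw [← e, hC, hDd]
    exact ⟨Int.ceil_le.2 a3.le, Int.le_floor.2 a4.le⟩
  have hAr : -(δ * L) ≤ A := by rw [hA]; exact Int.le_ceil _
  have hBr : (B : ℝ) ≤ (1 + δ) * L := by rw [hB]; exact Int.floor_le _
  have hCr : -((t / 2 + δ) * L) ≤ Cc := by rw [hC]; exact Int.le_ceil _
  have hDr : (Dd : ℝ) ≤ (t / 2 + δ) * L := by rw [hDd]; exact Int.floor_le _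
  -- the point near b
  have hxi : L - 1 ≤ x i := by
    have h3 := (Prod.dist_eq (x := pt L (f (i : ZMod m))) (y := ((1 : ℝ), (0 : ℝ)))) ▸ hib
    rw [max_le_iff, Real.dist_eq, Real.dist_eq] at h3
    have h4 := h3.1
    simp only at h4
    rw [abs_le] at h4
    have h5 := hptx i
    have h6 : (1 / L) * L = 1 := by field_simp
    nlinarith
  -- the middle
  have hmid : ∀ k : ℕ, k < m → δ * L ≤ x k → (x k : ℝ) ≤ (1 - δ) * L →
      (k < i → (t / 2 - δ) * L < y k) ∧ (i ≤ k → (y k : ℝ) < -((t / 2 - δ) * L)) := by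
    intro k hk a1 a2
    rw [← hptx] at a1 a2
    have a1' : δ ≤ (pt L (f (k : ZMod m))).1 := le_of_mul_le_mul_right a1 hL0
    have a2' : (pt L (f (k : ZMod m))).1 ≤ 1 - δ := le_of_mul_le_mul_right a2 hL0
    have hn0 : pt L (f (k : ZMod m)) ∉ Metric.ball (0 : ℝ × ℝ) δ := by
      intro h
      have := (hball _ _ h).1
      rw [abs_lt] at this
      simp only [Prod.fst_zero, sub_zero] at this
      linarith
    have hn1 : pt L (f (k : ZMod m)) ∉ Metric.ball ((1 : ℝ), (0 : ℝ)) δ := by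
      intro h
      have := (hball _ _ h).1
      rw [abs_lt] at this
      linarith
    constructor
    · intro hki
      rcases hU k hki with (h | h) | h
      · have := RU_mid hδt h a1' a2'
        rw [← hpty]
        exact mul_lt_mul_of_pos_right this hL0
      · exact absurd h hn0
      · exact absurd h hn1
    · intro hki
      rcases hD k hki hk with (h | h) | h
      · have := RU_mid hδt h a1' a2'
        simp only at this
        rw [← hpty]
        nlinarith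
      · exact absurd h hn0
      · exact absurd h hn1
  have ht8 : 0 < t := by linarith
  -- crossing of the middle column
  obtain ⟨c, hc⟩ : ∃ c : ℤ, c = ⌊L / 2⌋ := ⟨_, rfl⟩
  have hc1 : (c : ℝ) ≤ L / 2 := by rw [hc]; exact Int.floor_le _
  have hc2 : L / 2 < c + 1 := by rw [hc]; exact Int.lt_floor_add_one _
  have hcx : c ≤ x i := by
    have : (c : ℝ) ≤ x i := by linarith
    exact_mod_cast this
  have hc0 : 0 ≤ c := by
    have : (-1 : ℝ) < c := by linarith
    have : (-1 : ℤ) < c := by exact_mod_cast this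
    omega
  obtain ⟨k1, hk1, hk1x⟩ := ivt x i (fun k _ => hstepx k) c (by rw [hx0]; exact hc0) hcx
  have hk1r : (x k1 : ℝ) = c := by rw [hk1x]
  have hki1 : k1 < i := by
    rcases hk1.eq_or_lt with h | h
    · rw [h] at hk1r
      linarith
    · exact h
  have hy1 : (t / 2 - δ) * L < y k1 :=
    (hmid k1 (by omega) (by rw [hk1r]; nlinarith) (by rw [hk1r]; nlinarith)).1 hki1
  obtain ⟨j, hj, hjx⟩ := ivt (fun k => x (m - k)) (m - i) (by
    intro k hk
    have e : m - k = (m - (k + 1)) + 1 := by omega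
    have := hstepx (m - (k + 1))
    rw [← e, abs_sub_comm] at this
    exact this) c (by simp only [Nat.sub_zero]; rw [hxm]; exact hc0)
    (by
      have e : m - (m - i) = i := by omega
      simp only [e]
      exact hcx)
  obtain ⟨k2, hk2⟩ : ∃ k2, k2 = m - j := ⟨_, rfl⟩
  have hjx : x (m - j) = c := hjx
  rw [← hk2] at hjx
  have hk2r : (x k2 : ℝ) = c := by rw [hjx]
  have hk2m : k2 < m := by
    rcases Nat.lt_or_ge k2 m with h | h
    · exact h
    · have e : k2 = m := by omega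
      rw [e, hxm] at hjx
      have : (c : ℝ) = 0 := by rw [← hjx]; simp
      linarith
  have hy2 : (y k2 : ℝ) < -((t / 2 - δ) * L) :=
    (hmid k2 hk2m (by rw [hk2r]; nlinarith) (by rw [hk2r]; nlinarith)).2 (by omega)
  have hyD : ∀ k : ℕ, k < m → Cc ≤ y k ∧ y k ≤ Dd := by
    intro k _
    have := hzy (k : ZMod m)
    rw [hy]
    exact this
  have hxD : ∀ k : ℕ, A ≤ x k ∧ x k ≤ B := by
    intro k
    have := hzx (k : ZMod m)
    rw [hx]
    exact this
  have hencl : ∀ p : ℤ × ℤ, Encl m f p → A ≤ p.1 ∧ p.1 + 1 ≤ B ∧ Cc ≤ p.2 ∧ p.2 + 1 ≤ Dd := by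
    rintro ⟨a, b⟩ h
    unfold Encl at h
    simp only at h
    rw [card_above (by omega), ← hx] at h
    obtain ⟨k, hk⟩ : ((range m).filter (fun k => Cr x a k ∧ b < (f (k : ZMod m)).2)).Nonempty := by
      rw [← card_pos]
      exact h.pos
    rw [mem_filter, mem_range] at hk
    obtain ⟨hkm, hcr, hb⟩ := hk
    have hyk : (f (k : ZMod m)).2 = y k := by rw [hy]
    rw [hyk] at hb
    have g1 := hxD k
    have g2 := hxD (k + 1)
    have g3 := hyD k hkm
    have g4 : A ≤ a ∧ a + 1 ≤ B := by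
      unfold Cr at hcr
      omega
    refine ⟨g4.1, g4.2, ?_, by simp only; omega⟩
    simp only
    by_contra hcon
    push Not at hcon
    have hfilt : (range m).filter (fun k => Cr x a k ∧ b < (f (k : ZMod m)).2) =
        (range m).filter (Cr x a) := by
      ext k
      rw [mem_filter, mem_filter, mem_range]
      constructor
      · rintro ⟨h5, h6, -⟩
        exact ⟨h5, h6⟩
      · rintro ⟨h5, h6⟩
        have h7 := hyD k h5
        have hyk : (f (k : ZMod m)).2 = y k := by rw [hy]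
        exact ⟨h5, h6, by rw [hyk]; omega⟩
    rw [hfilt, parity x a m (fun k _ => hstepx k), hx0, hxm] at h
    exact h Iff.rfl
  refine ⟨⟨?_, ?_⟩, ⟨?_, ?_⟩, ?_, ?_⟩
  · have h3 := le_ext hzx (i : ZMod m) (0 : ZMod m)
    have e : (f (i : ZMod m)).1 - (f 0).1 = x i - x 0 := by rw [hx]; simp
    rw [e, hx0, sub_zero] at h3
    have h4 : (x i : ℝ) ≤ ext m (fun k => (f k).1) := by exact_mod_cast h3
    linarith
  · have h3 := ext_le hzx
    have h4 : (ext m (fun k => (f k).1) : ℝ) ≤ B - A := by exact_mod_cast h3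
    linarith
  · have h3 := le_ext hzy (k1 : ZMod m) (k2 : ZMod m)
    have e : (f (k1 : ZMod m)).2 - (f (k2 : ZMod m)).2 = y k1 - y k2 := by rw [hy]
    rw [e] at h3
    have h4 : (y k1 : ℝ) - y k2 ≤ ext m (fun k => (f k).2) := by exact_mod_cast h3
    linarith
  · have h3 := ext_le hzy
    have h4 : (ext m (fun k => (f k).2) : ℝ) ≤ Dd - Cc := by exact_mod_cast h3
    linarith
  · -- the inner cells
    obtain ⟨A', hA'⟩ : ∃ A' : ℤ, A' = ⌈δ * L⌉ := ⟨_, rfl⟩
    obtain ⟨B', hB'⟩ : ∃ B' : ℤ, B' = ⌊(1 - δ) * L⌋ - 1 := ⟨_, rfl⟩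
    obtain ⟨C', hC'⟩ : ∃ C' : ℤ, C' = ⌈-((t / 2 - δ) * L)⌉ := ⟨_, rfl⟩
    obtain ⟨D', hD'⟩ : ∃ D' : ℤ, D' = ⌊(t / 2 - δ) * L⌋ := ⟨_, rfl⟩
    have e1 : (A' : ℝ) < δ * L + 1 := by rw [hA']; exact Int.ceil_lt_add_one _
    have e1' : δ * L ≤ A' := by rw [hA']; exact Int.le_ceil _
    have e2 : (1 - δ) * L - 2 < B' := by
      have := Int.lt_floor_add_one ((1 - δ) * L)
      rw [hB']
      push_cast
      linarith
    have e2' : (B' : ℝ) + 1 ≤ (1 - δ) * L := by
      have := Int.floor_le ((1 - δ) * L)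
      rw [hB']
      push_cast
      linarith
    have e3 : (C' : ℝ) < -((t / 2 - δ) * L) + 1 := by rw [hC']; exact Int.ceil_lt_add_one _
    have e3' : -((t / 2 - δ) * L) ≤ C' := by rw [hC']; exact Int.le_ceil _
    have e4 : (t / 2 - δ) * L - 1 < D' := by
      have := Int.lt_floor_add_one ((t / 2 - δ) * L)
      rw [hD']
      linarith
    have e4' : (D' : ℝ) ≤ (t / 2 - δ) * L := by rw [hD']; exact Int.floor_le _
    have hin : ∀ p ∈ Icc A' B' ×ˢ Icc C' D', Encl m f p := by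
      rintro ⟨a, b⟩ hp
      rw [mem_product, mem_Icc, mem_Icc] at hp
      obtain ⟨⟨p1, p2⟩, p3, p4⟩ := hp
      simp only at p1 p2 p3 p4
      have r1 : (A' : ℝ) ≤ a := by exact_mod_cast p1
      have r2 : (a : ℝ) ≤ B' := by exact_mod_cast p2
      have r3 : (C' : ℝ) ≤ b := by exact_mod_cast p3
      have r4 : (b : ℝ) ≤ D' := by exact_mod_cast p4
      unfold Encl
      simp only
      rw [card_above (by omega), ← hx]
      have hfilt : (range m).filter (fun k => Cr x a k ∧ b < (f (k : ZMod m)).2) =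
          (range i).filter (Cr x a) := by
        ext k
        rw [mem_filter, mem_filter, mem_range, mem_range]
        have hcr : Cr x a k → k < m → δ * L ≤ x k ∧ (x k : ℝ) ≤ (1 - δ) * L := by
          intro hcr _
          have : a ≤ x k ∧ x k ≤ a + 1 := by
            unfold Cr at hcr
            omega
          have h5 : (a : ℝ) ≤ x k := by exact_mod_cast this.1
          have h6 : (x k : ℝ) ≤ a + 1 := by exact_mod_cast this.2
          constructor <;> linarith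
        have hyk : (f (k : ZMod m)).2 = y k := by rw [hy]
        constructor
        · rintro ⟨hkm, hcr', hb⟩
          refine ⟨?_, hcr'⟩
          by_contra hcon
          push Not at hcon
          obtain ⟨h5, h6⟩ := hcr hcr' hkm
          have h7 := (hmid k hkm h5 h6).2 hcon
          rw [hyk] at hb
          have h8 : (b : ℝ) < y k := by exact_mod_cast hb
          linarith
        · rintro ⟨hki, hcr'⟩
          have hkm : k < m := by omega
          obtain ⟨h5, h6⟩ := hcr hcr' hkm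
          have h7 := (hmid k hkm h5 h6).1 hki
          refine ⟨hkm, hcr', ?_⟩
          rw [hyk]
          have h8 : (b : ℝ) < y k := by linarith
          exact_mod_cast h8
      rw [hfilt, parity x a i (fun k _ => hstepx k)]
      have h5 : x 0 ≤ a := by
        rw [hx0]
        have : (0 : ℝ) ≤ a := by nlinarith
        exact_mod_cast this
      have h6 : ¬ x i ≤ a := by
        rw [not_le]
        have : (a : ℝ) < x i := by nlinarith
        exact_mod_cast this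
      tauto
    have hfin : {c : ℤ × ℤ | Encl m f c}.Finite := by
      refine (Set.finite_Icc (A, Cc) (B, Dd)).subset ?_
      intro p hp
      obtain ⟨g1, g2, g3, g4⟩ := hencl p hp
      exact ⟨⟨g1, g3⟩, ⟨by simp only; omega, by simp only; omega⟩⟩
    have hle : (Icc A' B' ×ˢ Icc C' D').card ≤ area m f := by
      unfold area
      have h5 : (↑(Icc A' B' ×ˢ Icc C' D') : Set (ℤ × ℤ)) ⊆ {c : ℤ × ℤ | Encl m f c} :=
        fun p hp => hin p (mem_coe.1 hp)
      have h6 := Set.ncard_le_ncard h5 hfin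
      rw [Set.ncard_coe_finset] at h6
      exact h6
    rw [card_product, Int.card_Icc, Int.card_Icc] at hle
    have h7 : ((B' + 1 - A').toNat : ℝ) ≥ (1 - 2 * δ) * L - 2 := by
      have : ((B' + 1 - A' : ℤ) : ℝ) ≤ ((B' + 1 - A').toNat : ℝ) := by
        exact_mod_cast Int.self_le_toNat _
      push_cast at this
      linarith
    have h8 : ((D' + 1 - C').toNat : ℝ) ≥ (t - 2 * δ) * L - 1 := by
      have : ((D' + 1 - C' : ℤ) : ℝ) ≤ ((D' + 1 - C').toNat : ℝ) := by
        exact_mod_cast Int.self_le_toNat _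
      push_cast at this
      linarith
    have h9 : (((B' + 1 - A').toNat * (D' + 1 - C').toNat : ℕ) : ℝ) ≤ area m f := by
      exact_mod_cast hle
    push_cast at h9
    refine le_trans ?_ h9
    have h10 : 0 ≤ (1 - 2 * δ) * L - 2 := by nlinarith
    exact mul_le_mul h7 h8 (by nlinarith) (by positivity)
  · -- the outer cells
    have hsub : {c : ℤ × ℤ | Encl m f c} ⊆ (↑(Icc A (B - 1) ×ˢ Icc Cc (Dd - 1)) : Set (ℤ × ℤ)) := by
      intro p hp
      obtain ⟨g1, g2, g3, g4⟩ := hencl p hp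
      rw [mem_coe, mem_product, mem_Icc, mem_Icc]
      exact ⟨⟨g1, by omega⟩, ⟨g3, by omega⟩⟩
    have h6 := Set.ncard_le_ncard hsub (Finset.finite_toSet _)
    rw [Set.ncard_coe_finset, card_product, Int.card_Icc, Int.card_Icc] at h6
    have hAB : A ≤ B := (hxD 0).1.trans (hxD 0).2
    have hCD : Cc ≤ Dd := (hyD 0 (by omega)).1.trans (hyD 0 (by omega)).2
    have h7 : ((B - 1 + 1 - A).toNat : ℝ) = B - A := by
      have : ((B - 1 + 1 - A).toNat : ℤ) = B - A := by omega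
      exact_mod_cast this
    have h8 : ((Dd - 1 + 1 - Cc).toNat : ℝ) = Dd - Cc := by
      have : ((Dd - 1 + 1 - Cc).toNat : ℤ) = Dd - Cc := by omega
      exact_mod_cast this
    have h9 : (area m f : ℝ) ≤ ((B - 1 + 1 - A).toNat : ℝ) * ((Dd - 1 + 1 - Cc).toNat : ℝ) := by
      have : area m f ≤ (B - 1 + 1 - A).toNat * (Dd - 1 + 1 - Cc).toNat := h6
      exact_mod_cast this
    rw [h7, h8] at h9
    have hABr : (0 : ℝ) ≤ B - A := by
      have : (A : ℝ) ≤ B := by exact_mod_cast hAB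
      linarith
    have hCDr : (0 : ℝ) ≤ Dd - Cc := by
      have : (Cc : ℝ) ≤ Dd := by exact_mod_cast hCD
      linarith
    refine h9.trans ?_
    have h10 : 0 ≤ (1 + 2 * δ) * L := by positivity
    exact mul_le_mul (by linarith) (by linarith) hCDr (by linarith)

end Pool.Agent.V11237.SXT

namespace Pool.Agent.V11237.SXT

theorem lprob_mono {m : ℕ} (hm : 1 ≤ m) {P Q : (ZMod m → ℤ × ℤ) → Prop}
    (h : ∀ f, IsLoop m f → P f → Q f) : lprob m P ≤ lprob m Q := by
  have h1 : {f : ZMod m → ℤ × ℤ | IsLoop m f ∧ P f} ⊆ {f : ZMod m → ℤ × ℤ | IsLoop m f ∧ Q f} :=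
    fun f hf => ⟨hf.1, h f hf.1 hf.2⟩
  have hfin : {f : ZMod m → ℤ × ℤ | IsLoop m f ∧ Q f}.Finite :=
    (loops_card hm).1.subset fun f hf => hf.1
  have h2 := Set.ncard_le_ncard h1 hfin
  unfold lprob
  gcongr

/-- **Width, height and area of the polygons.** -/
theorem shape_prob (t : ℝ) (ht : 0 < t) (ε : ℝ) (hε : 0 < ε) : ∃ K : ℝ, 2 ≤ K ∧ ∀ L : ℝ, K ≤ L →
    ∃ m : ℕ, 2 ≤ m ∧ L ≤ K * m ∧ (m : ℝ) ≤ K * L ^ 2 ∧
      Real.exp (-(K * Real.log m ^ 2)) ≤ lprob m (fun f =>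
        |(ext m (fun k => (f k).1) : ℝ) - L| ≤ ε * L ∧
        |(ext m (fun k => (f k).2) : ℝ) - t * L| ≤ ε * L ∧
        |(area m f : ℝ) - t * L ^ 2| ≤ ε * L ^ 2) := by
  obtain ⟨δ, hδ⟩ : ∃ δ, δ = min (min (1 / 8) (t / 8)) (ε / (8 * (1 + t))) := ⟨_, rfl⟩
  have h1t : 0 < 8 * (1 + t) := by positivity
  have hδ0 : 0 < δ := by
    rw [hδ]
    exact lt_min (lt_min (by norm_num) (by positivity)) (by positivity)
  have hδ1 : δ ≤ 1 / 8 := by
    rw [hδ]
    exact (min_le_left _ _).trans (min_le_left _ _)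
  have hδt : δ ≤ t / 8 := by
    rw [hδ]
    exact (min_le_left _ _).trans (min_le_right _ _)
  have hδε : δ * (8 * (1 + t)) ≤ ε := by
    rw [← le_div_iff₀ h1t, hδ]
    exact min_le_right _ _
  obtain ⟨K, hK, h⟩ := polygon_prob (closed_rect hδ0 hδt hδ1) (by
    intro h
    have := congrArg Prod.fst h
    simp at this)
  refine ⟨K + 8 / δ + (6 + 8 * t) / ε, ?_, ?_⟩
  · have : 0 ≤ 8 / δ := by positivity
    have : 0 ≤ (6 + 8 * t) / ε := by positivity
    linarith
  intro L hL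
  have p1 : 0 ≤ 8 / δ := by positivity
  have p2 : 0 ≤ (6 + 8 * t) / ε := by positivity
  have hLK : K ≤ L := by linarith
  have hLδ : 8 / δ ≤ L := by linarith
  have hLε : (6 + 8 * t) / ε ≤ L := by linarith
  rw [div_le_iff₀ hε] at hLε
  have hL2 : 2 ≤ L := by linarith
  obtain ⟨m, m2, m3, m4, m5⟩ := h L hLK
  have hm0 : (0 : ℝ) ≤ m := Nat.cast_nonneg _
  refine ⟨m, m2, ?_, ?_, ?_⟩
  · refine m3.trans ?_
    gcongr
    linarith
  · refine m4.trans ?_
    gcongr
    linarith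
  · refine le_trans (Real.exp_le_exp.2 ?_) (m5.trans (lprob_mono (by omega) ?_))
    · have : 0 ≤ Real.log (m : ℝ) ^ 2 := by positivity
      nlinarith
    · intro f hf hF
      obtain ⟨⟨w1, w2⟩, ⟨v1, v2⟩, a1, a2⟩ := rect_shape hδ0 hδt hδ1 hLδ m2 hf hF
      have hL0 : 0 < L := by linarith
      have hLL : L * 1 ≤ L * L := by gcongr; linarith
      have hδL : δ * (8 * (1 + t)) * L ≤ ε * L := by gcongr
      have hδtL : 0 ≤ δ * t * L := by positivity
      have hδL0 : 0 ≤ δ * L := by positivity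
      have hδLL : δ * (8 * (1 + t)) * L ^ 2 ≤ ε * L ^ 2 := by gcongr
      have hδtLL : 0 ≤ δ * t * L ^ 2 := by positivity
      have hδLL0 : 0 ≤ δ * L ^ 2 := by positivity
      have hεLL : (6 + 8 * t) * L ≤ ε * L ^ 2 := by
        calc (6 + 8 * t) * L ≤ (L * ε) * L := by gcongr
          _ = ε * L ^ 2 := by ring
      refine ⟨?_, ?_, ?_⟩
      · rw [abs_le]
        constructor <;> nlinarith
      · rw [abs_le]
        constructor <;> nlinarith
      · rw [abs_le]
        have e1 : δ ^ 2 * L ^ 2 ≤ 1 / 8 * (δ * L ^ 2) := by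
          calc δ ^ 2 * L ^ 2 = δ * (δ * L ^ 2) := by ring
            _ ≤ 1 / 8 * (δ * L ^ 2) := by gcongr
        have e2 : δ * L ≤ 1 / 8 * L := by gcongr
        constructor
        · have e3 : ((1 - 2 * δ) * L - 2) * ((t - 2 * δ) * L - 1) =
              t * L ^ 2 - 2 * (δ * L ^ 2) - 2 * (δ * t * L ^ 2) + 4 * (δ ^ 2 * L ^ 2) - L -
                2 * t * L + 6 * (δ * L) + 2 := by ring
          rw [e3] at a1
          have e4 : 0 ≤ δ ^ 2 * L ^ 2 := by positivity
          nlinarith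
        · have e3 : ((1 + 2 * δ) * L + 1) * ((t + 2 * δ) * L + 1) =
              t * L ^ 2 + 2 * (δ * L ^ 2) + 2 * (δ * t * L ^ 2) + 4 * (δ ^ 2 * L ^ 2) + L +
                t * L + 4 * (δ * L) + 1 := by ring
          rw [e3] at a2
          nlinarith

end Pool.Agent.V11237.SXT
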