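import Pool.Agent.V11237.SXT.Est
import Pool.Agent.TH508.LT.Fin2

/-!
Critical self-avoiding walks on the square lattice: gluing and tubes, with `exp (K (log L)^2)`
(after `Pool.Agent.H122R3.SX.Tube`).
-/

set_option autoImplicit false

namespace Pool.Agent.V11237.SXT

open scoped ENNReal
open Pool.Agent.H122R3.HX (ZL TL gw rect glue nodup_len box_bound ofReal_exp_pow)
open Pool.Agent.H122R3.SX (W walks c fs mem_fs g G Adj fw fw_adj fw_injective fw_inj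
  g_pow g_mul g_mono one_le_g ncard_walks walks_finite two_pow_le pos X V)
open Pool.Agent.H122R3.SY (nbr_symm traj traj_subset g_le_traj ZL_ge ZL_map exists_sym Sn Sn_card gw_sum_le ZL_le_gw Seg)

/-- the number of the walks -/
theorem c_eq (n : ℕ) : (c n : ℝ) = H981.cr' n := by
  rw [H981.cr'_eq, ← ncard_walks]
  congr 1
  unfold H981.C
  rw [← Nat.card_coe_set_eq]
  apply Nat.card_congr
  refine Equiv.subtypeEquivRight fun ω => ?_
  unfold H981.IsSAW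
  constructor
  · rintro ⟨h1, h2, h3⟩
    refine ⟨h1, fun i => ?_, h2⟩
    have := nbr_symm _ _ (h3 i)
    exact this
  · rintro ⟨h1, h2, h3⟩
    refine ⟨h1, h3, fun i => ?_⟩
    exact nbr_symm _ _ (h2 i)

/-- the connective constant -/
noncomputable def mu : ℝ := H981.mu

/-- the critical fugacity -/
noncomputable def xe : ℝ≥0∞ := ENNReal.ofReal (1 / mu)

theorem exists_Bd : ∃ K : ℝ, Bd mu K := by
  obtain ⟨K, hK0, h⟩ := Pool.Agent.TH508.LT.sq_upper2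
  refine ⟨K, ⟨?_, hK0, fun n hn => ?_, fun n hn => ?_⟩⟩
  · exact H981.one_le_mu
  · rw [c_eq]
    exact H981.mu_pow_le n
  · rw [c_eq]
    exact h n hn

theorem main_lower {μ K : ℝ} (h : Bd μ K) {ε : ℝ} (hε : 0 < ε) : ∃ K3 : ℝ, 0 ≤ K3 ∧
    ∀ L : ℕ, 2 ≤ L → ∀ ℓ : ℕ, ℓ ≤ L →
      ∃ n : ℕ, Real.exp (-(K3 * Real.log L ^ 2)) ≤ (g (2 * ℓ) 0 ⌊ε * L⌋ n : ℝ) / μ ^ n := by
  have hμ0 : 0 < μ := by linarith [h.one]
  have hlog2 : 0 < Real.log 2 := Real.log_pos (by norm_num)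
  have hlμ : 0 ≤ Real.log μ := Real.log_nonneg h.one
  obtain ⟨k, hk⟩ : ∃ k : ℕ, k = ⌈2 / ε⌉₊ := ⟨_, rfl⟩
  have hk8 : 2 / ε ≤ k := by rw [hk]; exact Nat.le_ceil _
  have hk0 : 0 < k := by
    have : (0 : ℝ) < k := lt_of_lt_of_le (by positivity) hk8
    exact_mod_cast this
  have hkε : 2 ≤ ε * k := by
    rw [div_le_iff₀ hε] at hk8
    linarith
  have hK2 := K2_nonneg h.Kn
  refine ⟨8 * k * K2 K + 2 * k * Real.log μ / Real.log 2 ^ 2, by positivity, ?_⟩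
  intro L hL ℓ hℓ
  have hLr : (2 : ℝ) ≤ L := by exact_mod_cast hL
  obtain ⟨l, hl⟩ : ∃ l, l = Real.log (L : ℝ) := ⟨_, rfl⟩
  have hl2 : Real.log 2 ≤ l := by rw [hl]; exact Real.log_le_log (by norm_num) hLr
  have hl0 : 0 < l := by linarith
  have hl5 : Real.log 2 ^ 2 ≤ l ^ 2 := pow_le_pow_left₀ hlog2.le hl2 2
  rw [← hl]
  have hT0 : (0 : ℤ) ≤ ⌊ε * L⌋ := Int.floor_nonneg.2 (by positivity)
  have hμk : ∀ j : ℕ, j ≤ 2 * k →
      Real.exp (-(2 * k * Real.log μ / Real.log 2 ^ 2 * l ^ 2)) ≤ 1 / μ ^ j := by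
    intro j hj
    have e1 : (1 : ℝ) / μ ^ j = Real.exp (-(j * Real.log μ)) := by
      rw [Real.exp_neg, Real.exp_nat_mul, Real.exp_log hμ0, one_div]
    rw [e1]
    apply Real.exp_le_exp.2
    have e2 : (j : ℝ) ≤ 2 * k := by exact_mod_cast hj
    have e3 : (j : ℝ) * Real.log μ ≤ 2 * k * Real.log μ := by gcongr
    have e4 : 2 * k * Real.log μ ≤ 2 * k * Real.log μ / Real.log 2 ^ 2 * l ^ 2 := by
      rw [div_mul_eq_mul_div, le_div_iff₀ (by positivity)]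
      gcongr
    linarith
  have hdiv := Nat.div_add_mod ℓ k
  have hmod := Nat.mod_lt ℓ hk0
  obtain ⟨S, hS⟩ : ∃ S, S = ℓ / k := ⟨_, rfl⟩
  obtain ⟨r, hr⟩ : ∃ r, r = ℓ % k := ⟨_, rfl⟩
  rw [← hS, ← hr] at hdiv
  rw [← hr] at hmod
  rcases Nat.eq_zero_or_pos S with hS0 | hS0
  · refine ⟨2 * ℓ, ?_⟩
    have hLr' : ℓ < k := by
      rw [hS0] at hdiv
      omega
    have e1 := one_le_g (2 * ℓ) hT0
    have e2 := hμk (2 * ℓ) (by omega)
    calc Real.exp (-((8 * k * K2 K + 2 * k * Real.log μ / Real.log 2 ^ 2) * l ^ 2))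
        ≤ Real.exp (-(2 * k * Real.log μ / Real.log 2 ^ 2 * l ^ 2)) := by
          apply Real.exp_le_exp.2
          have : 0 ≤ 8 * k * K2 K * l ^ 2 := by positivity
          linarith
      _ ≤ 1 / μ ^ (2 * ℓ) := e2
      _ ≤ _ := by
          apply div_le_div_of_nonneg_right _ (by positivity)
          push_cast at e1
          exact_mod_cast e1
  · obtain ⟨m, hm, hmx⟩ := exists_piece h hS0
    have hT : (2 * S : ℤ) ≤ ⌊ε * L⌋ := by
      rw [Int.le_floor]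
      push_cast
      have a1 : (k : ℝ) * S ≤ L := by
        have : k * S ≤ L := by omega
        exact_mod_cast this
      have a3 : ε * ((k : ℝ) * S) ≤ ε * L := by gcongr
      have a4 : 2 * (S : ℝ) ≤ ε * k * S := by gcongr
      linarith
    refine ⟨k * m + 2 * r, ?_⟩
    have e1 : g (2 * S) 0 (2 * S) m ^ k ≤ g (2 * ℓ) 0 ⌊ε * L⌋ (k * m + 2 * r) := by
      calc g (2 * S) 0 (2 * S) m ^ k ≤ g (2 * S) 0 ⌊ε * L⌋ m ^ k :=
            Nat.pow_le_pow_left (g_mono m hT) k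
        _ ≤ g (k * (2 * S)) 0 ⌊ε * L⌋ (k * m) := g_pow hT0 m k
        _ = g (k * (2 * S)) 0 ⌊ε * L⌋ (k * m) * 1 := (mul_one _).symm
        _ ≤ g (k * (2 * S)) 0 ⌊ε * L⌋ (k * m) * g ((2 * r : ℕ) : ℤ) 0 ⌊ε * L⌋ (2 * r) :=
            Nat.mul_le_mul_left _ (one_le_g (2 * r) hT0)
        _ ≤ _ := g_mul _ _ _ _ _ _ _ _
        _ = _ := by
            congr 1
            · have : (ℓ : ℤ) = k * S + r := by exact_mod_cast hdiv.symm
              rw [this]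
              push_cast
              ring
            · simp
    have e3 : (g (2 * S) 0 (2 * S) m : ℝ) ^ k / μ ^ (k * m + 2 * r) ≤
        (g (2 * ℓ) 0 ⌊ε * L⌋ (k * m + 2 * r) : ℝ) / μ ^ (k * m + 2 * r) := by
      apply div_le_div_of_nonneg_right _ (by positivity)
      exact_mod_cast e1
    refine le_trans ?_ e3
    have e4 : (g (2 * S) 0 (2 * S) m : ℝ) ^ k / μ ^ (k * m + 2 * r) =
        ((g (2 * S) 0 (2 * S) m : ℝ) / μ ^ m) ^ k * (1 / μ ^ (2 * r)) := by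
      rw [div_pow, ← pow_mul, div_mul_div_comm, mul_one, ← pow_add]
      congr 2
      ring
    rw [e4]
    have e5 := hμk (2 * r) (by omega)
    have e6 : Real.log ((S : ℝ) + 1) ≤ 2 * l := by
      rw [hl]
      have : Real.log ((S : ℝ) + 1) ≤ Real.log ((L : ℝ) ^ 2) := by
        apply Real.log_le_log (by positivity)
        have a1 : (S : ℝ) ≤ L := by
          have : S ≤ L := by
            rw [hS]; exact (Nat.div_le_self _ _).trans hℓ
          exact_mod_cast this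
        nlinarith
      rw [Real.log_pow] at this
      exact_mod_cast this
    have e7 : 2 * K2 K * Real.log ((S : ℝ) + 1) ^ 2 ≤ 8 * K2 K * l ^ 2 := by
      have a0 : 0 ≤ Real.log ((S : ℝ) + 1) := Real.log_nonneg (by
        have : (0 : ℝ) ≤ S := Nat.cast_nonneg _
        linarith)
      have : Real.log ((S : ℝ) + 1) ^ 2 ≤ (2 * l) ^ 2 := pow_le_pow_left₀ a0 e6 2
      nlinarith [mul_le_mul_of_nonneg_left this hK2]
    have e8 : Real.exp (-(8 * k * K2 K * l ^ 2)) ≤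
        ((g (2 * S) 0 (2 * S) m : ℝ) / μ ^ m) ^ k := by
      calc Real.exp (-(8 * k * K2 K * l ^ 2)) = Real.exp (-(8 * K2 K * l ^ 2)) ^ k := by
            rw [← Real.exp_nat_mul]
            congr 1
            push_cast
            ring
        _ ≤ Real.exp (-(2 * K2 K * Real.log ((S : ℝ) + 1) ^ 2)) ^ k := by
            apply pow_le_pow_left₀ (Real.exp_pos _).le
            apply Real.exp_le_exp.2
            linarith
        _ ≤ _ := pow_le_pow_left₀ (Real.exp_pos _).le hmx _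
    calc Real.exp (-((8 * k * K2 K + 2 * k * Real.log μ / Real.log 2 ^ 2) * l ^ 2))
        = Real.exp (-(8 * k * K2 K * l ^ 2)) *
          Real.exp (-(2 * k * Real.log μ / Real.log 2 ^ 2 * l ^ 2)) := by
          rw [← Real.exp_add]
          congr 1
          ring
      _ ≤ _ := by gcongr


theorem bounds_in_box (M : ℝ) : ∃ K4 : ℝ, 0 ≤ K4 ∧ ∀ L : ℕ, 2 ≤ L → ∀ D : Set (ℤ × ℤ),
    (∀ p ∈ D, |(p.1 : ℝ)| ≤ M * L ∧ |(p.2 : ℝ)| ≤ M * L) →
    ∃ N : ℕ, (∀ l : List (ℤ × ℤ), l.Nodup → (∀ p ∈ l, p ∈ D) → l.length ≤ N) ∧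
      (N : ℝ≥0∞) ≤ ENNReal.ofReal (Real.exp (K4 * Real.log L ^ 2)) ∧
      ∀ p : ℤ × ℤ, ∑' r : List (ℤ × ℤ), gw Adj xe N (some p) r ≤
        ENNReal.ofReal (Real.exp (K4 * Real.log L ^ 2)) := by
  obtain ⟨K, hB⟩ := exists_Bd
  have hμ0 : 0 < mu := by linarith [hB.one]
  have hlog2 : 0 < Real.log 2 := Real.log_pos (by norm_num)
  obtain ⟨A, hA⟩ : ∃ A, A = (2 * |M| + 3) ^ 2 := ⟨_, rfl⟩
  have hA9 : 9 ≤ A := by
    rw [hA]
    nlinarith [abs_nonneg M]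
  have hlA : 0 ≤ Real.log A := Real.log_nonneg (by linarith)
  obtain ⟨q, hq⟩ : ∃ q, q = Real.log A / Real.log 2 + 2 := ⟨_, rfl⟩
  have hq0 : 0 ≤ q := by rw [hq]; positivity
  have hKn := hB.Kn
  obtain ⟨K4, hK4⟩ : ∃ K4, K4 = Real.log 4 / Real.log 2 ^ 2 + q / Real.log 2 ^ 1 + K * q ^ 2 :=
    ⟨_, rfl⟩
  have hlog3 : 0 ≤ Real.log 4 := Real.log_nonneg (by norm_num)
  have hK40 : 0 ≤ K4 := by rw [hK4]; positivity
  refine ⟨K4, hK40, ?_⟩
  intro L hL D hD2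
  have hLr : (2 : ℝ) ≤ L := by exact_mod_cast hL
  obtain ⟨l, hl⟩ : ∃ l, l = Real.log (L : ℝ) := ⟨_, rfl⟩
  have hl2 : Real.log 2 ≤ l := by rw [hl]; exact Real.log_le_log (by norm_num) hLr
  have hl0 : 0 < l := by linarith
  obtain ⟨hDf, hDc⟩ := box_bound hD2
  obtain ⟨N, hN⟩ : ∃ N, N = (2 * ⌊|M| * L⌋₊ + 1) ^ 2 + 2 := ⟨_, rfl⟩
  have h5 : (N : ℝ) ≤ A * L ^ 2 := by
    have h6 : (⌊|M| * L⌋₊ : ℝ) ≤ |M| * L := Nat.floor_le (by positivity)
    have h7 : (0 : ℝ) ≤ (⌊|M| * L⌋₊ : ℝ) := Nat.cast_nonneg _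
    rw [hN, hA]
    push_cast
    have h8 : (2 * (⌊|M| * L⌋₊ : ℝ) + 1) ^ 2 ≤ (2 * (|M| * L) + 1) ^ 2 := by
      apply pow_le_pow_left₀ (by positivity)
      linarith
    have h9 : 0 ≤ |M| := abs_nonneg M
    have h10 : (2 * (|M| * L) + 1) ≤ (2 * |M| + 1) * L := by nlinarith
    have h11 : (2 * (|M| * L) + 1) ^ 2 ≤ ((2 * |M| + 1) * L) ^ 2 :=
      pow_le_pow_left₀ (by positivity) h10 2
    have h12 : (2 : ℝ) ≤ L ^ 2 := by nlinarith
    nlinarith [mul_nonneg h9 (sq_nonneg (L : ℝ))]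
  have hNr : (1 : ℝ) ≤ N := by exact_mod_cast (by omega : 1 ≤ N)
  have h13 : Real.log N ≤ q * l := by
    calc Real.log N ≤ Real.log (A * L ^ 2) := Real.log_le_log (by linarith) h5
      _ = Real.log A + 2 * l := by
          rw [Real.log_mul (by positivity) (by positivity), Real.log_pow, ← hl]
          push_cast
          ring
      _ ≤ Real.log A / Real.log 2 * l + 2 * l := by
          have : Real.log A ≤ Real.log A / Real.log 2 * l := by
            rw [div_mul_eq_mul_div, le_div_iff₀ hlog2]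
            gcongr
          linarith
      _ = _ := by rw [hq]; ring
  have h14 : 0 ≤ Real.log N := Real.log_nonneg hNr
  have h15 : Real.log N ^ 2 ≤ q ^ 2 * l ^ 2 := by
    rw [← mul_pow]
    exact pow_le_pow_left₀ h14 h13 2
  have hl5 : Real.log 2 ^ 2 ≤ l ^ 2 := pow_le_pow_left₀ hlog2.le hl2 2
  have hl4 : Real.log 2 ^ 1 ≤ l ^ 1 := pow_le_pow_left₀ hlog2.le hl2 1
  have hfin : 4 * (N : ℝ) * Real.exp (K * Real.log N ^ 2) ≤ Real.exp (K4 * l ^ 2) := by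
    calc 4 * (N : ℝ) * Real.exp (K * Real.log N ^ 2) =
          Real.exp (Real.log 4 + Real.log N + K * Real.log N ^ 2) := by
          rw [Real.exp_add, Real.exp_add, Real.exp_log (by norm_num), Real.exp_log (by linarith)]
      _ ≤ _ := by
          apply Real.exp_le_exp.2
          have a1 : Real.log 4 ≤ Real.log 4 / Real.log 2 ^ 2 * l ^ 2 := by
            rw [div_mul_eq_mul_div, le_div_iff₀ (by positivity)]
            gcongr
          have a2 : q * l ≤ q / Real.log 2 ^ 1 * l ^ 2 := by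
            rw [div_mul_eq_mul_div, le_div_iff₀ (by positivity)]
            calc q * l * Real.log 2 ^ 1 ≤ q * l * l ^ 1 := by gcongr
              _ = _ := by ring
          have a3 : K * Real.log N ^ 2 ≤ K * (q ^ 2 * l ^ 2) := by gcongr
          rw [hK4]
          nlinarith
  have hE1 : 1 ≤ Real.exp (K * Real.log N ^ 2) := Real.one_le_exp (by positivity)
  rw [← hl]
  refine ⟨N, nodup_len hDf (by omega), ?_, ?_⟩
  · rw [← ENNReal.ofReal_natCast]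
    apply ENNReal.ofReal_le_ofReal
    refine le_trans ?_ hfin
    nlinarith
  · intro p
    refine (gw_sum_le xe N p).trans ?_
    calc ∑ n ∈ Finset.range N, (c n : ℝ≥0∞) * xe ^ n
        ≤ ∑ n ∈ Finset.range N, ENNReal.ofReal (4 * Real.exp (K * Real.log N ^ 2)) := by
          refine Finset.sum_le_sum fun n hn => ?_
          rw [Finset.mem_range] at hn
          unfold xe
          rw [← ENNReal.ofReal_natCast, ← ENNReal.ofReal_pow (by positivity),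
            ← ENNReal.ofReal_mul (by positivity)]
          apply ENNReal.ofReal_le_ofReal
          have e1 := hB.c_le4 (a := n) (n := N) hn.le
          rw [div_pow, one_pow, mul_one_div, div_le_iff₀ (pow_pos hμ0 n)]
          linarith
      _ = ENNReal.ofReal (4 * N * Real.exp (K * Real.log N ^ 2)) := by
          rw [Finset.sum_const, Finset.card_range, nsmul_eq_mul, ← ENNReal.ofReal_natCast,
            ← ENNReal.ofReal_mul (by positivity)]
          congr 1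
          ring
      _ ≤ _ := ENNReal.ofReal_le_ofReal hfin

/-- the lower bound for rectangles of any height -/
theorem rect_lower {ε : ℝ} (hε : 0 < ε) : ∃ K3 : ℝ, 0 ≤ K3 ∧
    ∀ L : ℕ, 2 ≤ L → 1 ≤ ε * L → ∀ ℓ : ℕ, ℓ ≤ L →
      ENNReal.ofReal (Real.exp (-(K3 * Real.log L ^ 2))) ≤
        ZL Adj xe (rect (ε * L) (2 * ℓ)) (0, 0) (0, 2 * ℓ) := by
  obtain ⟨K, hB⟩ := exists_Bd
  have hμ0 : 0 < mu := by linarith [hB.one]
  obtain ⟨K3, hK3, h3⟩ := main_lower hB hε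
  refine ⟨K3, hK3, ?_⟩
  intro L hL hεL ℓ hℓ
  obtain ⟨n, hn⟩ := h3 L hL ℓ hℓ
  have h4 := g_le_traj (t := ε * L) (H := 2 * ℓ) n
  have h5 := ZL_ge xe (rect (ε * L) (2 * ℓ)) (0, 0) (0, 2 * ℓ) n _ h4
    ((walks_finite n).subset (traj_subset _ _ n))
  refine le_trans ?_ h5
  unfold xe
  rw [← ENNReal.ofReal_natCast, ← ENNReal.ofReal_pow (by positivity),
    ← ENNReal.ofReal_mul (by positivity)]
  apply ENNReal.ofReal_le_ofReal
  refine hn.trans (le_of_eq ?_)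
  rw [div_pow, one_pow]
  ring

/-- **Gluing.** -/
theorem gluing (M : ℝ) : ∃ K : ℝ, ∀ L : ℕ, 2 ≤ L → ∀ D : Set (ℤ × ℤ),
    (∀ p ∈ D, |(p.1 : ℝ)| ≤ M * L ∧ |(p.2 : ℝ)| ≤ M * L) → ∀ a v b : ℤ × ℤ,
      ZL Adj xe D a v * ZL Adj xe D v b ≤
        ENNReal.ofReal (Real.exp (K * Real.log L ^ 2)) * ZL Adj xe D a b := by
  obtain ⟨K4, hK4, h4⟩ := bounds_in_box M
  refine ⟨3 * K4, fun L hL D hD a v b => ?_⟩
  obtain ⟨N, hN1, hN2, hN3⟩ := h4 L hL D hD
  have h := glue (A := D) (B := D) (a := a) (v := v) (b := b) nbr_symm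
    (by rw [Set.union_self]; exact hN1) xe _ hN3
  rw [Set.union_self] at h
  refine h.trans (mul_le_mul' ?_ le_rfl)
  calc (N : ℝ≥0∞) * ENNReal.ofReal (Real.exp (K4 * Real.log L ^ 2)) ^ 2
      ≤ ENNReal.ofReal (Real.exp (K4 * Real.log L ^ 2)) *
        ENNReal.ofReal (Real.exp (K4 * Real.log L ^ 2)) ^ 2 := mul_le_mul' hN2 le_rfl
    _ = ENNReal.ofReal (Real.exp (K4 * Real.log L ^ 2)) ^ 3 := by ring
    _ = _ := by
        rw [ofReal_exp_pow]
        congr 2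
        push_cast
        ring

/-- **Tubes.** -/
theorem tube (ε M : ℝ) (hε : 0 < ε) (k : ℕ) : ∃ K : ℝ, 0 ≤ K ∧ ∀ L : ℕ, 2 ≤ L → 1 ≤ ε * L →
    ∀ D : Set (ℤ × ℤ), (∀ p ∈ D, |(p.1 : ℝ)| ≤ M * L ∧ |(p.2 : ℝ)| ≤ M * L) →
      ∀ p : ℕ → ℤ × ℤ, (∀ i ≤ k, Seg D (ε * L) L (p i) (p (i + 1))) →
        ENNReal.ofReal (Real.exp (-(K * Real.log L ^ 2))) ≤ ZL Adj xe D (p 0) (p (k + 1)) := by
  obtain ⟨K3, hK3, h3⟩ := rect_lower hε
  obtain ⟨K4, hK4⟩ := gluing M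
  have hseg : ∀ L : ℕ, 2 ≤ L → 1 ≤ ε * L → ∀ D : Set (ℤ × ℤ), ∀ p q,
      Seg D (ε * L) L p q →
      ENNReal.ofReal (Real.exp (-(K3 * Real.log L ^ 2))) ≤ ZL Adj xe D p q := by
    rintro L hL hεL D p q ⟨φ, ℓ, hφ, hn, hℓ, rfl, rfl, hz⟩
    exact (h3 L hL hεL ℓ hℓ).trans
      (ZL_map xe hφ.1 (fun a b h => (hn a b).2 h) hz (0, 0) (0, 2 * ℓ))
  induction k with
  | zero =>
    refine ⟨K3, hK3, ?_⟩
    intro L hL hεL D _ p hp
    exact hseg L hL hεL D _ _ (hp 0 le_rfl)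
  | succ k ih =>
    obtain ⟨K, hK, ih⟩ := ih
    refine ⟨K + K3 + |K4|, by positivity, ?_⟩
    intro L hL hεL D hD p hp
    have h1 := ih L hL hεL D hD p (fun i hi => hp i (by omega))
    have h2 := hseg L hL hεL D _ _ (hp (k + 1) le_rfl)
    have h5 := hK4 L hL D hD (p 0) (p (k + 1)) (p (k + 1 + 1))
    have hl : 0 ≤ Real.log (L : ℝ) ^ 2 := pow_nonneg (Real.log_natCast_nonneg L) 2
    have h6 : ENNReal.ofReal (Real.exp (-(K * Real.log L ^ 2))) *
        ENNReal.ofReal (Real.exp (-(K3 * Real.log L ^ 2))) ≤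
        ENNReal.ofReal (Real.exp (|K4| * Real.log L ^ 2)) *
          ZL Adj xe D (p 0) (p (k + 1 + 1)) := by
      refine (mul_le_mul' h1 h2).trans (h5.trans (mul_le_mul' ?_ le_rfl))
      apply ENNReal.ofReal_le_ofReal
      apply Real.exp_le_exp.2
      exact mul_le_mul_of_nonneg_right (le_abs_self K4) hl
    have h7 : ENNReal.ofReal (Real.exp (-((K + K3 + |K4|) * Real.log L ^ 2))) =
        ENNReal.ofReal (Real.exp (-(|K4| * Real.log L ^ 2))) *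
        (ENNReal.ofReal (Real.exp (-(K * Real.log L ^ 2))) *
        ENNReal.ofReal (Real.exp (-(K3 * Real.log L ^ 2)))) := by
      rw [← ENNReal.ofReal_mul (Real.exp_pos _).le, ← ENNReal.ofReal_mul (Real.exp_pos _).le,
        ← Real.exp_add, ← Real.exp_add]
      congr 2
      ring
    rw [h7]
    calc ENNReal.ofReal (Real.exp (-(|K4| * Real.log L ^ 2))) *
        (ENNReal.ofReal (Real.exp (-(K * Real.log L ^ 2))) *
        ENNReal.ofReal (Real.exp (-(K3 * Real.log L ^ 2))))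
        ≤ ENNReal.ofReal (Real.exp (-(|K4| * Real.log L ^ 2))) *
        (ENNReal.ofReal (Real.exp (|K4| * Real.log L ^ 2)) *
          ZL Adj xe D (p 0) (p (k + 1 + 1))) := mul_le_mul' le_rfl h6
      _ = ZL Adj xe D (p 0) (p (k + 1 + 1)) := by
          rw [← mul_assoc, ← ENNReal.ofReal_mul (Real.exp_pos _).le, ← Real.exp_add,
            neg_add_cancel, Real.exp_zero, ENNReal.ofReal_one, one_mul]

/-- **Upper bound.** -/
theorem upper (M : ℝ) : ∃ K : ℝ, 0 ≤ K ∧ ∀ L : ℕ, 2 ≤ L → ∀ D : Set (ℤ × ℤ),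
    (∀ p ∈ D, |(p.1 : ℝ)| ≤ M * L ∧ |(p.2 : ℝ)| ≤ M * L) → ∀ a b : ℤ × ℤ,
      ZL Adj xe D a b ≤ ENNReal.ofReal (Real.exp (K * Real.log L ^ 2)) := by
  obtain ⟨K4, hK4, h4⟩ := bounds_in_box M
  refine ⟨K4, hK4, fun L hL D hD a b => ?_⟩
  obtain ⟨N, hN1, hN2, hN3⟩ := h4 L hL D hD
  exact (ZL_le_gw xe a b hN1).trans (hN3 a)

/-- **Main theorem.** -/
theorem final2 (ε M : ℝ) (hε : 0 < ε) (k : ℕ) : ∃ K : ℝ, ∀ L : ℕ, 2 ≤ L → 1 ≤ ε * L →
    ∀ T D : Set (ℤ × ℤ), T ⊆ D → (∀ p ∈ D, |(p.1 : ℝ)| ≤ M * L ∧ |(p.2 : ℝ)| ≤ M * L) →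
      ∀ p : ℕ → ℤ × ℤ, (∀ i ≤ k, Seg T (ε * L) L (p i) (p (i + 1))) →
        ENNReal.ofReal (Real.exp (-(K * Real.log L ^ 2))) ≤ ZL Adj xe D (p 0) (p (k + 1)) ∧
        ZL Adj xe D (p 0) (p (k + 1)) ≤ ENNReal.ofReal (Real.exp (K * Real.log L ^ 2)) ∧
        ENNReal.ofReal (Real.exp (-(K * Real.log L ^ 2))) ≤
          ZL Adj xe (D ∩ T) (p 0) (p (k + 1)) / ZL Adj xe D (p 0) (p (k + 1)) := by
  obtain ⟨K1, hK1, h1⟩ := tube ε M hε k
  obtain ⟨K2, hK2, h2⟩ := upper M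
  refine ⟨K1 + K2, ?_⟩
  intro L hL hεL T D hTD hD p hp
  have hl : 0 ≤ Real.log (L : ℝ) ^ 2 := pow_nonneg (Real.log_natCast_nonneg L) 2
  have hp' : ∀ i ≤ k, Seg D (ε * L) L (p i) (p (i + 1)) := by
    intro i hi
    obtain ⟨φ, ℓ, a1, a2, a3, a4, a5, a6⟩ := hp i hi
    exact ⟨φ, ℓ, a1, a2, a3, a4, a5, fun z hz => hTD (a6 z hz)⟩
  have e1 := h1 L hL hεL D hD p hp'
  have e2 := h2 L hL D hD (p 0) (p (k + 1))
  have e3 := h1 L hL hεL T (fun z hz => hD z (hTD hz)) p hp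
  refine ⟨le_trans (ENNReal.ofReal_le_ofReal (Real.exp_le_exp.2 ?_)) e1,
    e2.trans (ENNReal.ofReal_le_ofReal (Real.exp_le_exp.2 ?_)), ?_⟩
  · nlinarith [mul_nonneg hK2 hl]
  · nlinarith [mul_nonneg hK1 hl]
  · rw [Set.inter_eq_right.2 hTD]
    rw [ENNReal.le_div_iff_mul_le]
    · calc ENNReal.ofReal (Real.exp (-((K1 + K2) * Real.log L ^ 2))) *
            ZL Adj xe D (p 0) (p (k + 1))
          ≤ ENNReal.ofReal (Real.exp (-((K1 + K2) * Real.log L ^ 2))) *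
            ENNReal.ofReal (Real.exp (K2 * Real.log L ^ 2)) := mul_le_mul' le_rfl e2
        _ = ENNReal.ofReal (Real.exp (-(K1 * Real.log L ^ 2))) := by
            rw [← ENNReal.ofReal_mul (Real.exp_pos _).le, ← Real.exp_add]
            congr 2
            ring
        _ ≤ _ := e3
    · left
      intro h
      rw [h] at e1
      have := ENNReal.ofReal_pos.2 (Real.exp_pos (-(K1 * Real.log L ^ 2)))
      exact absurd (lt_of_lt_of_le this e1) (lt_irrefl _)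
    · left
      exact ne_top_of_le_ne_top ENNReal.ofReal_ne_top e2

end Pool.Agent.V11237.SXT
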